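import Pool.Agent.H166R3.AT.CT

set_option autoImplicit false

/-! Bushy trees relative to a computable tree. -/

namespace Pool.Agent.H166R3.AT

open Encodable

abbrev Str := List ℕ

/-- `C` is `p`-big above a string, inside `T` -/
inductive Big (T : Str → Bool) (p : ℕ → ℕ) (C : Set Str) : Str → Prop
  | here {σ : Str} (h : σ ∈ C) : Big T p C σ
  | step {σ : Str} (s : Finset ℕ) (hs : p σ.length ≤ s.card)
      (hT : ∀ i ∈ s, T (σ ++ [i]) = true) (h : ∀ i ∈ s, Big T p C (σ ++ [i])) : Big T p C σ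

lemma Big.mono {T T' : Str → Bool} {p p' : ℕ → ℕ} {C C' : Set Str} {σ0 σ : Str}
    (h : Big T p C σ) (h0 : σ0 <+: σ) (hT : ∀ ρ, T ρ = true → T' ρ = true)
    (hp : ∀ n, σ0.length ≤ n → p' n ≤ p n) (hC : ∀ ρ, σ0 <+: ρ → ρ ∈ C → ρ ∈ C') :
    Big T' p' C' σ := by
  induction h with
  | here h => exact Big.here (hC _ h0 h)
  | step s hs hT1 _ ih =>
    exact Big.step s ((hp _ h0.length_le).trans hs) (fun i hi => hT _ (hT1 i hi))
      (fun i hi => ih i hi (h0.trans (List.prefix_append _ _)))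

lemma Big.bind {T : Str → Bool} {p : ℕ → ℕ} {C D : Set Str} {σ0 σ : Str}
    (h : Big T p C σ) (h0 : σ0 <+: σ) (hσ : T σ = true)
    (hC : ∀ ρ, σ0 <+: ρ → T ρ = true → ρ ∈ C → Big T p D ρ) :
    Big T p D σ := by
  induction h with
  | here h => exact hC _ h0 hσ h
  | step s hs hT1 _ ih =>
    exact Big.step s hs hT1
      (fun i hi => ih i hi (h0.trans (List.prefix_append _ _)) (hT1 i hi))

lemma Big.colors {T : Str → Bool} {P p : ℕ → ℕ} {C : Set Str} {σ0 σ : Str} {N : ℕ}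
    (D : ℕ → Set Str) (hN : 1 ≤ N)
    (h : Big T P C σ) (h0 : σ0 <+: σ) (hp : ∀ n, σ0.length ≤ n → N * p n ≤ P n)
    (hC : ∀ ρ, σ0 <+: ρ → ρ ∈ C → ∃ v < N, ρ ∈ D v) :
    ∃ v < N, Big T p (D v) σ := by
  classical
  induction h with
  | here h =>
    obtain ⟨v, hv, h1⟩ := hC _ h0 h
    exact ⟨v, hv, Big.here h1⟩
  | @step σ s hs hT1 _ ih =>
    have h1 : ∀ i ∈ s, ∃ v < N, Big T p (D v) (σ ++ [i]) :=
      fun i hi => ih i hi (h0.trans (List.prefix_append _ _))
    choose! f hf1 hf2 using h1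
    have h2 : (Finset.range N).card * p σ.length ≤ s.card := by
      rw [Finset.card_range]; exact (hp _ h0.length_le).trans hs
    obtain ⟨v, hv, h3⟩ := Finset.exists_le_card_fiber_of_mul_le_card_of_maps_to
      (fun i hi => Finset.mem_range.2 (hf1 i hi)) ⟨0, Finset.mem_range.2 hN⟩ h2
    refine ⟨v, Finset.mem_range.1 hv, Big.step _ h3 ?_ ?_⟩
    · intro i hi
      exact hT1 i (Finset.mem_filter.1 hi).1
    · intro i hi
      have h4 := hf2 i (Finset.mem_filter.1 hi).1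
      rwa [(Finset.mem_filter.1 hi).2] at h4

/-- the finite certificates -/
def BOK (T : Str → Bool) (p b : ℕ → ℕ) (lf : Str → Bool) (D : List Str) : Bool :=
  lall D (fun ρ => lf ρ || decide (p ρ.length ≤
    ((Finset.range (b ρ.length)).filter (fun i => (mem (ρ ++ [i]) D && T (ρ ++ [i])) = true)).card))

lemma BOK_iff {T : Str → Bool} {p b : ℕ → ℕ} {lf : Str → Bool} {D : List Str} :
    BOK T p b lf D = true ↔ ∀ ρ ∈ D, lf ρ = true ∨ p ρ.length ≤
    ((Finset.range (b ρ.length)).filter (fun i => ρ ++ [i] ∈ D ∧ T (ρ ++ [i]) = true)).card := by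
  rw [BOK, lall_iff]
  refine forall_congr' (fun ρ => imp_congr_right (fun _ => ?_))
  rw [Bool.or_eq_true, decide_eq_true_iff]
  simp only [Bool.and_eq_true, mem_iff]

lemma c_concat {α : Type*} [Primcodable α] {f : α → Str} {g : α → ℕ} (hf : Computable f)
    (hg : Computable g) : Computable (fun a => f a ++ [g a]) :=
  Computable.list_concat.comp hf hg

lemma c_BOK {α : Type*} [Primcodable α] {T : Str → Bool} {p b : ℕ → ℕ} (hT : Computable T)
    (hp : Computable p) (hb : Computable b) {lf : α → Str → Bool} (hlf : Computable₂ lf)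
    {D : α → List Str} (hD : Computable D) : Computable (fun a => BOK T p b (lf a) (D a)) := by
  refine c_lall hD ?_
  refine c_or hlf ?_
  refine c_le (hp.comp (Computable.list_length.comp Computable.snd)) ?_
  refine c_count (f := fun (q : α × Str) (i : ℕ) => (mem (q.2 ++ [i]) (D q.1) && T (q.2 ++ [i])))
    (hb.comp (Computable.list_length.comp Computable.snd)) ?_
  have h1 : Computable (fun z : (α × Str) × ℕ => z.1.2 ++ [z.2]) :=
    c_concat (Computable.snd.comp Computable.fst) Computable.snd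
  exact c_and (c_mem h1 (hD.comp (Computable.fst.comp Computable.fst))) (hT.comp h1)

lemma len_bound (D : List Str) : ∃ M, ∀ ρ ∈ D, ρ.length ≤ M := by
  refine ⟨(D.map List.length).sum, fun ρ hρ => ?_⟩
  exact List.single_le_sum (by simp) _ (List.mem_map_of_mem hρ)

lemma big_of_BOK {T : Str → Bool} {p b : ℕ → ℕ} {lf : Str → Bool} {D : List Str}
    (hp : ∀ n, 1 ≤ p n) (h : BOK T p b lf D = true) {σ : Str} (hσ : σ ∈ D) :
    Big T p {ρ | lf ρ = true} σ := by
  rw [BOK_iff] at h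
  obtain ⟨M, hM⟩ := len_bound D
  have key : ∀ j, ∀ ρ ∈ D, M - ρ.length ≤ j → Big T p {ρ | lf ρ = true} ρ := by
    intro j
    induction j with
    | zero =>
      intro ρ hρ hj
      rcases h ρ hρ with h1 | h1
      · exact Big.here h1
      · exfalso
        have h2 := lt_of_lt_of_le Nat.one_pos ((hp _).trans h1)
        obtain ⟨x, hx⟩ := Finset.card_pos.1 h2
        rw [Finset.mem_filter] at hx
        have h3 := hM _ hx.2.1
        simp at h3
        omega
    | succ j ih =>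
      intro ρ hρ hj
      rcases h ρ hρ with h1 | h1
      · exact Big.here h1
      · refine Big.step _ h1 (fun x hx => (Finset.mem_filter.1 hx).2.2) (fun x hx => ?_)
        rw [Finset.mem_filter] at hx
        refine ih _ hx.2.1 ?_
        have h3 := hM _ hx.2.1
        simp at h3 ⊢
        omega
  exact key _ σ hσ le_rfl

lemma cert_of_big {T : Str → Bool} {p b : ℕ → ℕ} {C : Set Str} {σ : Str}
    (hTb : ∀ ρ i, T (ρ ++ [i]) = true → i < b ρ.length) (h : Big T p C σ) :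
    ∃ (D L : Finset Str), σ ∈ D ∧ (∀ ρ ∈ D, σ <+: ρ) ∧ (∀ ρ ∈ L, ρ ∈ C) ∧
      ∀ ρ ∈ D, ρ ∈ L ∨ p ρ.length ≤
    ((Finset.range (b ρ.length)).filter (fun i => ρ ++ [i] ∈ D ∧ T (ρ ++ [i]) = true)).card := by
  classical
  induction h with
  | @here σ h => exact ⟨{σ}, {σ}, by simp, by simp, by simpa using h, by simp⟩
  | @step σ s hs hT1 _ ih =>
    choose! D L h1 h2 h3 h4 using ih
    refine ⟨insert σ (s.biUnion D), s.biUnion L, by simp, ?_, ?_, ?_⟩
    · intro ρ hρ
      rw [Finset.mem_insert] at hρ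
      rcases hρ with hρ | hρ
      · rw [hρ]
      · rw [Finset.mem_biUnion] at hρ
        obtain ⟨x, hx, hρ⟩ := hρ
        exact (List.prefix_append _ _).trans (h2 x hx ρ hρ)
    · intro ρ hρ
      rw [Finset.mem_biUnion] at hρ
      obtain ⟨x, hx, hρ⟩ := hρ
      exact h3 x hx ρ hρ
    · intro ρ hρ
      rw [Finset.mem_insert] at hρ
      rcases hρ with hρ | hρ
      · right
        subst hρ
        refine hs.trans (Finset.card_le_card ?_)
        intro x hx
        rw [Finset.mem_filter, Finset.mem_range]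
        exact ⟨hTb _ _ (hT1 x hx), Finset.mem_insert_of_mem (Finset.mem_biUnion.2 ⟨x, hx, h1 x hx⟩),
          hT1 x hx⟩
      · rw [Finset.mem_biUnion] at hρ
        obtain ⟨x, hx, hρ⟩ := hρ
        rcases h4 x hx ρ hρ with h5 | h5
        · left; exact Finset.mem_biUnion.2 ⟨x, hx, h5⟩
        · right
          refine h5.trans (Finset.card_le_card ?_)
          intro y hy
          rw [Finset.mem_filter, Finset.mem_range] at hy ⊢
          exact ⟨hy.1, Finset.mem_insert_of_mem (Finset.mem_biUnion.2 ⟨x, hx, hy.2.1⟩), hy.2.2⟩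

/-- completeness of certificates for enumerated sets -/
lemma BOK_of_big {T : Str → Bool} {p b : ℕ → ℕ} {C : Set Str} {σ : Str}
    (hTb : ∀ ρ i, T (ρ ++ [i]) = true → i < b ρ.length) (h : Big T p C σ)
    (f : Str → ℕ → Bool) (hm : ∀ ρ s t, s ≤ t → f ρ s = true → f ρ t = true)
    (hf : ∀ ρ ∈ C, ∃ s, f ρ s = true) :
    ∃ (D : List Str) (s : ℕ), σ ∈ D ∧ (∀ ρ ∈ D, σ <+: ρ) ∧
      BOK T p b (fun ρ => f ρ s) D = true := by
  obtain ⟨D, L, h1, h2, h3, h4⟩ := cert_of_big hTb h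
  have h5 : ∀ ρ ∈ L, ∃ s, f ρ s = true := fun ρ hρ => hf ρ (h3 ρ hρ)
  choose! g hg using h5
  refine ⟨D.toList, L.sup g, by simpa using h1, by simpa using h2, ?_⟩
  rw [BOK_iff]
  intro ρ hρ
  rcases h4 ρ (by simpa using hρ) with h6 | h6
  · left
    exact hm _ _ _ (Finset.le_sup h6) (hg ρ h6)
  · right
    simpa using h6

/-- the closure of a set above `σ` -/
def clo (T : Str → Bool) (Q : ℕ → ℕ) (B : Set Str) (σ : Str) : Set Str :=
  {ρ | ∃ ρ1, σ <+: ρ1 ∧ ρ1 <+: ρ ∧ Big T Q B ρ1}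

lemma clo_sub {T : Str → Bool} {Q : ℕ → ℕ} {B : Set Str} {σ ρ : Str} (h0 : σ <+: ρ)
    (h : ρ ∈ B) : ρ ∈ clo T Q B σ := ⟨ρ, h0, List.prefix_rfl, Big.here h⟩

lemma clo_up {T : Str → Bool} {Q : ℕ → ℕ} {B : Set Str} {σ ρ : Str} {i : ℕ}
    (h : ρ ∈ clo T Q B σ) : ρ ++ [i] ∈ clo T Q B σ := by
  obtain ⟨ρ1, h1, h2, h3⟩ := h
  exact ⟨ρ1, h1, h2.trans (List.prefix_append _ _), h3⟩

lemma clo_root {T : Str → Bool} {Q : ℕ → ℕ} {B : Set Str} {σ : Str}
    (h : σ ∈ clo T Q B σ) : Big T Q B σ := by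
  obtain ⟨ρ1, h1, h2, h3⟩ := h
  have : ρ1 = σ := List.IsPrefix.eq_of_length h2 (le_antisymm h2.length_le h1.length_le)
  rwa [this] at h3

lemma clo_closed {T : Str → Bool} {Q : ℕ → ℕ} {B : Set Str} {σ ρ : Str} (h0 : σ <+: ρ)
    (h : Big T Q (clo T Q B σ) ρ) : ρ ∈ clo T Q B σ := by
  induction h with
  | here h => exact h
  | @step ρ s hs hT1 _ ih =>
    by_cases hc : ∃ i ∈ s, ∃ ρ1, σ <+: ρ1 ∧ ρ1 <+: ρ ∧ Big T Q B ρ1
    · obtain ⟨i, _, ρ1, h1, h2, h3⟩ := hc
      exact ⟨ρ1, h1, h2, h3⟩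
    · refine ⟨ρ, h0, List.prefix_rfl, Big.step s hs hT1 (fun i hi => ?_)⟩
      obtain ⟨ρ1, h1, h2, h3⟩ := ih i hi (h0.trans (List.prefix_append _ _))
      rcases List.prefix_concat_iff.1 h2 with h4 | h4
      · rw [h4] at h3
        exact h3
      · exact absurd ⟨i, hi, ρ1, h1, h4, h3⟩ hc

lemma c_take {α : Type*} [Primcodable α] {f : α → ℕ} {g : α → Str} (hf : Computable f)
    (hg : Computable g) : Computable (fun a => (g a).take (f a)) :=
  (Primrec.list_take.to_comp).comp hf hg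

lemma clo_CE {T : Str → Bool} {Q b : ℕ → ℕ} {B : Set Str} {σ : Str} (hT : Computable T)
    (hQ : Computable Q) (hb : Computable b) (hQ1 : ∀ n, 1 ≤ Q n)
    (hTb : ∀ ρ i, T (ρ ++ [i]) = true → i < b ρ.length) (hB : CE B) : CE (clo T Q B σ) := by
  obtain ⟨f, hf, hm, hfB⟩ := hB
  refine CE.ofEx (δ := ℕ × (List Str × ℕ)) (fun ρ q =>
    decide ((ρ.take q.1).take σ.length = σ) && (mem (ρ.take q.1) q.2.1 &&
      BOK T Q b (fun ρ' => f ρ' q.2.2) q.2.1)) ?_ ?_
  · have a1 : Computable (fun z : Str × (ℕ × (List Str × ℕ)) => z.1.take z.2.1) :=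
      c_take (Computable.fst.comp Computable.snd) Computable.fst
    have a2 : Computable (fun z : Str × (ℕ × (List Str × ℕ)) => z.2.2.1) :=
      Computable.fst.comp (Computable.snd.comp Computable.snd)
    refine c_and (c_eq (c_take (Computable.const _) a1) (Computable.const σ)) (c_and
      (c_mem a1 a2) ?_)
    refine c_BOK hT hQ hb (lf := fun (z : Str × (ℕ × (List Str × ℕ))) ρ' => f ρ' z.2.2.2) ?_ a2
    exact hf.comp Computable.snd (Computable.snd.comp (Computable.snd.comp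
      (Computable.snd.comp Computable.fst)))
  · intro ρ
    constructor
    · rintro ⟨ρ1, h1, h2, h3⟩
      obtain ⟨D, s, h4, _, h5⟩ := BOK_of_big hTb h3 f hm (fun ρ hρ => (hfB ρ).1 hρ)
      have h6 : ρ.take ρ1.length = ρ1 := (List.prefix_iff_eq_take.1 h2).symm
      refine ⟨(ρ1.length, (D, s)), ?_⟩
      simp only [h6, Bool.and_eq_true, decide_eq_true_iff, mem_iff]
      exact ⟨(List.prefix_iff_eq_take.1 h1).symm, h4, h5⟩
    · rintro ⟨⟨j, D, s⟩, h⟩
      simp only [Bool.and_eq_true, decide_eq_true_iff, mem_iff] at h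
      obtain ⟨h1, h2, h3⟩ := h
      refine ⟨ρ.take j, List.prefix_iff_eq_take.2 h1.symm, List.take_prefix _ _, ?_⟩
      refine (big_of_BOK hQ1 h3 h2).mono List.prefix_rfl (fun _ h => h) (fun _ _ => le_rfl) ?_
      intro ρ' _ h4
      exact (hfB ρ').2 ⟨s, h4⟩

end Pool.Agent.H166R3.AT
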