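import Mathlib

set_option autoImplicit false

/-! Closure of computable functions under bounded searches over lists, and a small calculus of
computably enumerable sets. -/

namespace Pool.Agent.H166R3.AT

open Encodable

variable {α β γ : Type*} [Primcodable α] [Primcodable β] [Primcodable γ]

/-- composition with an explicit result -/
lemma cmp {f : β → γ} {g : α → β} (hf : Computable f) (hg : Computable g) {k : α → γ}
    (hk : ∀ a, f (g a) = k a) : Computable k :=
  (Computable.comp hf hg).of_eq hk

lemma c_and {f g : α → Bool} (hf : Computable f) (hg : Computable g) :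
    Computable (fun a => f a && g a) :=
  (Primrec.and.to_comp).comp hf hg

lemma c_or {f g : α → Bool} (hf : Computable f) (hg : Computable g) :
    Computable (fun a => f a || g a) :=
  (Primrec.or.to_comp).comp hf hg

lemma c_not {f : α → Bool} (hf : Computable f) : Computable (fun a => !(f a)) :=
  (Primrec.not.to_comp).comp hf

lemma c_le {f g : α → ℕ} (hf : Computable f) (hg : Computable g) :
    Computable (fun a => decide (f a ≤ g a)) :=
  (Primrec.nat_le.decide.to_comp).comp hf hg

lemma c_lt {f g : α → ℕ} (hf : Computable f) (hg : Computable g) :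
    Computable (fun a => decide (f a < g a)) :=
  (Primrec.nat_lt.decide.to_comp).comp hf hg

lemma c_eq [DecidableEq β] {f g : α → β} (hf : Computable f) (hg : Computable g) :
    Computable (fun a => decide (f a = g a)) :=
  ((Primrec.eq (α := β)).decide.to_comp).comp hf hg

lemma c_add {f g : α → ℕ} (hf : Computable f) (hg : Computable g) :
    Computable (fun a => f a + g a) := (Primrec.nat_add.to_comp).comp hf hg

lemma c_mul {f g : α → ℕ} (hf : Computable f) (hg : Computable g) :
    Computable (fun a => f a * g a) := (Primrec.nat_mul.to_comp).comp hf hg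

lemma c_sub {f g : α → ℕ} (hf : Computable f) (hg : Computable g) :
    Computable (fun a => f a - g a) := (Primrec.nat_sub.to_comp).comp hf hg

lemma c_div {f g : α → ℕ} (hf : Computable f) (hg : Computable g) :
    Computable (fun a => f a / g a) := (Primrec.nat_div.to_comp).comp hf hg

lemma c_mod {f g : α → ℕ} (hf : Computable f) (hg : Computable g) :
    Computable (fun a => f a % g a) := (Primrec.nat_mod.to_comp).comp hf hg

lemma pow_primrec' : Primrec₂ (fun a b : ℕ => a ^ b) := Primrec₂.unpaired'.1 Nat.Primrec.pow

lemma c_pow {f g : α → ℕ} (hf : Computable f) (hg : Computable g) :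
    Computable (fun a => f a ^ g a) := (pow_primrec'.to_comp).comp hf hg

lemma c_ite {f : α → Bool} {g h : α → β} (hf : Computable f) (hg : Computable g)
    (hh : Computable h) : Computable (fun a => if f a = true then g a else h a) := by
  have := Computable.cond hf hg hh
  refine this.of_eq (fun a => ?_)
  cases f a <;> rfl

/-- bounded sums -/
lemma c_sum {n : α → ℕ} {f : α → ℕ → ℕ} (hn : Computable n) (hf : Computable₂ f) :
    Computable (fun a => ∑ i ∈ Finset.range (n a), f a i) := by
  have h := Computable.nat_rec (f := n) (g := fun _ => (0 : ℕ))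
    (h := fun a q => q.2 + f a q.1) hn (Computable.const 0) (by
      refine c_add (Computable.snd.comp Computable.snd) ?_
      exact hf.comp Computable.fst (Computable.fst.comp Computable.snd))
  refine h.of_eq (fun a => ?_)
  induction n a with
  | zero => rfl
  | succ m ih => rw [Finset.sum_range_succ, ← ih]

lemma c_ofb {f : α → Bool} (hf : Computable f) : Computable (fun a => (f a).toNat) := by
  have := Computable.cond hf (Computable.const 1) (Computable.const 0)
  exact this.of_eq (fun a => by cases f a <;> rfl)

/-- counting over an initial segment -/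
lemma c_count {n : α → ℕ} {f : α → ℕ → Bool} (hn : Computable n) (hf : Computable₂ f) :
    Computable (fun a => ((Finset.range (n a)).filter (fun i => f a i = true)).card) := by
  have h := c_sum (f := fun a i => (f a i).toNat) hn (c_ofb hf)
  refine h.of_eq (fun a => ?_)
  rw [Finset.card_filter]
  refine Finset.sum_congr rfl (fun i _ => ?_)
  cases f a i <;> simp

/-- bounded existential quantifier over numbers -/
def bex (n : ℕ) (f : ℕ → Bool) : Bool :=
  decide (0 < ((Finset.range n).filter (fun i => f i = true)).card)

/-- bounded universal quantifier over numbers -/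
def ball (n : ℕ) (f : ℕ → Bool) : Bool :=
  decide (n ≤ ((Finset.range n).filter (fun i => f i = true)).card)

lemma bex_iff {n : ℕ} {f : ℕ → Bool} : bex n f = true ↔ ∃ i < n, f i = true := by
  rw [bex, decide_eq_true_iff, Finset.card_pos]
  constructor
  · rintro ⟨i, hi⟩
    rw [Finset.mem_filter, Finset.mem_range] at hi
    exact ⟨i, hi⟩
  · rintro ⟨i, hi, h⟩
    exact ⟨i, by rw [Finset.mem_filter, Finset.mem_range]; exact ⟨hi, h⟩⟩

lemma ball_iff {n : ℕ} {f : ℕ → Bool} : ball n f = true ↔ ∀ i < n, f i = true := by
  rw [ball, decide_eq_true_iff]
  constructor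
  · intro h i hi
    have h1 : (Finset.range n).filter (fun i => f i = true) = Finset.range n := by
      apply Finset.eq_of_subset_of_card_le (Finset.filter_subset _ _)
      simpa using h
    have h2 : i ∈ (Finset.range n).filter (fun i => f i = true) := by
      rw [h1]; simpa using hi
    exact (Finset.mem_filter.1 h2).2
  · intro h
    have h1 : (Finset.range n).filter (fun i => f i = true) = Finset.range n :=
      Finset.filter_true_of_mem (fun i hi => h i (by simpa using hi))
    rw [h1]; simp

lemma c_bex {n : α → ℕ} {f : α → ℕ → Bool} (hn : Computable n) (hf : Computable₂ f) :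
    Computable (fun a => bex (n a) (f a)) :=
  c_lt (Computable.const 0) (c_count hn hf)

lemma c_ball {n : α → ℕ} {f : α → ℕ → Bool} (hn : Computable n) (hf : Computable₂ f) :
    Computable (fun a => ball (n a) (f a)) :=
  c_le hn (c_count hn hf)

/-- universal quantifier over the members of a list -/
def lall (L : List β) (f : β → Bool) : Bool :=
  ball L.length (fun i => ((L[i]?).map f).getD true)

/-- existential quantifier over the members of a list -/
def lex (L : List β) (f : β → Bool) : Bool :=
  bex L.length (fun i => ((L[i]?).map f).getD false)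

omit [Primcodable β] in
lemma lall_iff {L : List β} {f : β → Bool} : lall L f = true ↔ ∀ b ∈ L, f b = true := by
  rw [lall, ball_iff]
  constructor
  · intro h b hb
    obtain ⟨i, hi, rfl⟩ := List.getElem_of_mem hb
    have := h i hi
    rw [List.getElem?_eq_getElem hi] at this
    simpa using this
  · intro h i hi
    rw [List.getElem?_eq_getElem hi]
    simpa using h _ (List.getElem_mem hi)

omit [Primcodable β] in
lemma lex_iff {L : List β} {f : β → Bool} : lex L f = true ↔ ∃ b ∈ L, f b = true := by
  rw [lex, bex_iff]
  constructor
  · rintro ⟨i, hi, h⟩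
    rw [List.getElem?_eq_getElem hi] at h
    exact ⟨L[i], List.getElem_mem hi, by simpa using h⟩
  · rintro ⟨b, hb, h⟩
    obtain ⟨i, hi, rfl⟩ := List.getElem_of_mem hb
    refine ⟨i, hi, ?_⟩
    rw [List.getElem?_eq_getElem hi]
    simpa using h

lemma c_lall {L : α → List β} {f : α → β → Bool} (hL : Computable L) (hf : Computable₂ f) :
    Computable (fun a => lall (L a) (f a)) := by
  refine c_ball (Computable.list_length.comp hL) ?_
  refine Computable.option_getD ?_ (Computable.const true)
  refine Computable.option_map ?_ ?_
  · exact Computable.list_getElem?.comp (hL.comp Computable.fst) Computable.snd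
  · exact hf.comp (Computable.fst.comp Computable.fst) Computable.snd

lemma c_lex {L : α → List β} {f : α → β → Bool} (hL : Computable L) (hf : Computable₂ f) :
    Computable (fun a => lex (L a) (f a)) := by
  refine c_bex (Computable.list_length.comp hL) ?_
  refine Computable.option_getD ?_ (Computable.const false)
  refine Computable.option_map ?_ ?_
  · exact Computable.list_getElem?.comp (hL.comp Computable.fst) Computable.snd
  · exact hf.comp (Computable.fst.comp Computable.fst) Computable.snd

/-- membership test -/
def mem [DecidableEq β] (b : β) (L : List β) : Bool := lex L (fun c => decide (c = b))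

omit [Primcodable β] in
lemma mem_iff [DecidableEq β] {b : β} {L : List β} : mem b L = true ↔ b ∈ L := by
  rw [mem, lex_iff]
  constructor
  · rintro ⟨c, hc, h⟩
    rw [decide_eq_true_iff] at h
    rwa [← h]
  · intro h
    exact ⟨b, h, by simp⟩

lemma c_mem [DecidableEq β] {b : α → β} {L : α → List β} (hb : Computable b)
    (hL : Computable L) : Computable (fun a => mem (b a) (L a)) :=
  c_lex hL (c_eq Computable.snd (hb.comp Computable.fst))

/-- A monotone computable enumeration of a set. -/
def Enum (B : Set β) (f : β → ℕ → Bool) : Prop :=
  Computable₂ f ∧ (∀ b s t, s ≤ t → f b s = true → f b t = true) ∧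
    ∀ b, b ∈ B ↔ ∃ s, f b s = true

/-- computably enumerable sets -/
def CE (B : Set β) : Prop := ∃ f, Enum B f

lemma CE.of {B : Set β} (f : β → ℕ → Bool) (hf : Computable₂ f)
    (h : ∀ b, b ∈ B ↔ ∃ s, f b s = true) : CE B := by
  refine ⟨fun b s => bex (s + 1) (f b), ?_, ?_, ?_⟩
  · refine c_bex (Computable.succ.comp Computable.snd) ?_
    exact hf.comp (Computable.fst.comp Computable.fst) Computable.snd
  · intro b s t hst h1
    simp only [bex_iff] at h1 ⊢
    obtain ⟨i, hi, h2⟩ := h1
    exact ⟨i, by omega, h2⟩
  · intro b
    rw [h b]
    constructor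
    · rintro ⟨s, hs⟩
      exact ⟨s, bex_iff.2 ⟨s, by omega, hs⟩⟩
    · rintro ⟨s, hs⟩
      obtain ⟨i, _, h2⟩ := bex_iff.1 hs
      exact ⟨i, h2⟩

/-- existential projection with a witness of arbitrary type -/
lemma CE.ofEx {δ : Type*} [Primcodable δ] {B : Set β} (f : β → δ → Bool) (hf : Computable₂ f)
    (h : ∀ b, b ∈ B ↔ ∃ d, f b d = true) : CE B := by
  refine CE.of (fun b s => ((decode s : Option δ).map (f b)).getD false) ?_ ?_
  · refine Computable.option_getD ?_ (Computable.const false)
    refine Computable.option_map (Computable.decode.comp Computable.snd) ?_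
    exact hf.comp (Computable.fst.comp Computable.fst) Computable.snd
  · intro b
    rw [h b]
    constructor
    · rintro ⟨d, hd⟩
      exact ⟨encode d, by simp [hd]⟩
    · rintro ⟨s, hs⟩
      cases hd : (decode s : Option δ) with
      | none => rw [hd] at hs; simp at hs
      | some d => exact ⟨d, by rw [hd] at hs; simpa using hs⟩

/-- A computable total search. -/
lemma c_find {f : α → ℕ → Bool} (hf : Computable₂ f) (h : ∀ a, ∃ n, f a n = true) :
    Computable (fun a => Nat.find (h a)) := by
  have h1 : Partrec (fun a => Nat.rfind (fun n => Part.some (f a n))) :=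
    Partrec.rfind hf.partrec₂
  refine Partrec.of_eq h1 (fun a => ?_)
  refine Part.eq_some_iff.2 (Nat.mem_rfind.2 ⟨?_, ?_⟩)
  · simpa using (Nat.find_spec (h a)).symm
  · intro m hm
    have := Nat.find_min (h a) hm
    simpa using this

end Pool.Agent.H166R3.AT
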