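import Pool.Agent.H715R3.D8

set_option autoImplicit false

/-! Definitions: Martin-Löf tests and randomness. -/

namespace Pool.Agent.H166R3.AT

open MeasureTheory
open scoped ENNReal
open Pool.Agent.H715R3.Disp (mu)

/-- `V` is a Martin-Löf test: a uniformly c.e. sequence of open sets `V k` of measure at most
`2^(-k)`. -/
structure IsMLTest (V : ℕ → Set (ℕ → Bool)) : Prop where
  ce : ∃ S : ℕ → Set (List Bool), REPred (fun q : ℕ × List Bool => q.2 ∈ S q.1) ∧
    ∀ k, V k = {X | ∃ n, List.ofFn (fun i : Fin n => X i) ∈ S k}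
  small : ∀ k, (Measure.infinitePi (fun _ : ℕ => (PMF.uniformOfFintype Bool).toMeasure)) (V k)
    ≤ (2⁻¹ : ℝ≥0∞) ^ k

/-- Martin-Löf randomness -/
def MLRandom (X : ℕ → Bool) : Prop := ∀ V, IsMLTest V → ∃ k, X ∉ V k

end Pool.Agent.H166R3.AT
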