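import Pool.Agent.H166R3.AT.GL
import Pool.Agent.H166R3.AT.Def

set_option autoImplicit false

/-! The forcing conditions and the main step. -/

namespace Pool.Agent.H166R3.AT

open Encodable MeasureTheory
open scoped ENNReal
open Pool.Agent.Helper743 (pre pre_length pre_succ pre_prefix)
open Pool.Agent.H715R3.Disp (gam gam_mono gam_primrec mu cyl_measure)

/-- compactness for increasing families -/
lemma Big.sup {T : Str → Bool} {p : ℕ → ℕ} {C : Set Str} {D : ℕ → Set Str} {σ : Str}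
    (h : Big T p C σ) (hD : ∀ j k, j ≤ k → D j ⊆ D k) (hC : ∀ ρ ∈ C, ∃ k, ρ ∈ D k) :
    ∃ k, Big T p (D k) σ := by
  classical
  induction h with
  | here h => obtain ⟨k, hk⟩ := hC _ h; exact ⟨k, Big.here hk⟩
  | step s hs hT _ ih =>
    choose! k hk using ih
    refine ⟨s.sup k, Big.step s hs hT (fun i hi => ?_)⟩
    exact (hk i hi).mono List.prefix_rfl (fun _ h => h) (fun _ _ => le_rfl)
      (fun ρ _ h => hD _ _ (Finset.le_sup hi) h)

lemma Big.proper {T : Str → Bool} {p b : ℕ → ℕ} {C : Set Str} {τ : Str}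
    (h : Big T p C τ) (hup : ∀ i, τ ∈ C → τ ++ [i] ∈ C)
    (hbu : p τ.length ≤ ((Finset.range (b τ.length)).filter (fun i => T (τ ++ [i]) = true)).card) :
    Big T p {ρ | ρ ≠ τ ∧ ρ ∈ C} τ := by
  have hne : ∀ i ρ, τ ++ [i] <+: ρ → ρ ≠ τ := by
    rintro i ρ h1 rfl
    have := h1.length_le
    simp at this
  cases h with
  | here h =>
    refine Big.step _ hbu (fun i hi => (Finset.mem_filter.1 hi).2) (fun i _ => Big.here ?_)
    exact ⟨hne i _ List.prefix_rfl, hup i h⟩
  | step s hs hT h =>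
    refine Big.step s hs hT (fun i hi => ?_)
    exact (h i hi).mono List.prefix_rfl (fun _ h => h) (fun _ _ => le_rfl)
      (fun ρ h1 h2 => ⟨hne i ρ h1, h2⟩)

/-- the ambient data -/
structure Ctx where
  b : ℕ → ℕ
  t : ℕ → ℕ
  hb : Computable b
  ht : Computable t
  htm : Monotone t
  htl : ∀ l, l < t l
  htb : ∀ l, (∏ j ∈ Finset.range l, b j) * 2 ^ (l + 1) ≤ 2 ^ t l

/-- forcing conditions at stage `e` -/
structure Cond (c : Ctx) (e : ℕ) where
  σ : Str
  T : Str → Bool
  P : ℕ → ℕ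
  Q : ℕ → ℕ
  B : Set Str
  hT : Computable T
  hTb : ∀ ρ, T ρ = true → ∀ i (h : i < ρ.length), ρ[i] < c.b i
  hTσ : T σ = true
  hTp : ∀ ρ i, σ <+: ρ → T (ρ ++ [i]) = true → T ρ = true
  hPb : ∀ ρ, σ <+: ρ → T ρ = true → P ρ.length ≤
    ((Finset.range (c.b ρ.length)).filter (fun i => T (ρ ++ [i]) = true)).card
  hB : CE B
  hBup : ∀ ρ i, σ <+: ρ → ρ ∈ B → ρ ++ [i] ∈ B
  hBcl : ∀ ρ, σ <+: ρ → T ρ = true → Big T Q B ρ → ρ ∈ B
  hσB : σ ∉ B
  hQ : Computable Q
  hQ1 : ∀ n, 1 ≤ Q n
  hbud : ∀ n, σ.length ≤ n → Q n * (2 ^ c.t n) ^ (4 ^ (n - e)) ≤ P n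
  hle : e + 1 ≤ σ.length

namespace Cond

variable {c : Ctx} {e : ℕ} (d : Cond c e)

lemma hTb' (ρ : Str) (i : ℕ) (h : d.T (ρ ++ [i]) = true) : i < c.b ρ.length := by
  have := d.hTb _ h ρ.length (by simp)
  simpa using this

def Sat (a : ℕ → ℕ) : Prop := GD.Pth d.T d.σ a ∧ ∀ n, d.σ.length ≤ n → pre a n ∉ d.B

lemma ext1 : ∃ i, d.T (d.σ ++ [i]) = true ∧ d.σ ++ [i] ∉ d.B := by
  by_contra hcon
  push Not at hcon
  apply d.hσB
  apply d.hBcl _ List.prefix_rfl d.hTσ
  refine Big.step ((Finset.range (c.b d.σ.length)).filter (fun i => d.T (d.σ ++ [i]) = true)) ?_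
    (fun i hi => (Finset.mem_filter.1 hi).2)
    (fun i hi => Big.here (hcon i (Finset.mem_filter.1 hi).2))
  refine le_trans ?_ (d.hPb _ List.prefix_rfl d.hTσ)
  refine le_trans ?_ (d.hbud _ le_rfl)
  exact Nat.le_mul_of_pos_right _ (by positivity)

end Cond

/-- patterns -/
def pat (n v : ℕ) : List Bool := (List.range n).map (fun x => decide (v / 2 ^ x % 2 = 1))

/-- the colour predicate for functional `p` -/
def EE (c : Ctx) (p : ℕ) (τ : Str) (v : ℕ) (ρ : Str) : Bool :=
  ball (c.t τ.length) (fun x => ((gam p ρ x).map (fun y => decide (y ≤ v.unpair.2) &&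
    (decide (y ≠ 0) == decide (v.unpair.1 / 2 ^ x % 2 = 1)))).getD false)

lemma EE_iff {c : Ctx} {p : ℕ} {τ : Str} {v : ℕ} {ρ : Str} : EE c p τ v ρ = true ↔
    ∀ x < c.t τ.length, ∃ y, gam p ρ x = some y ∧ y ≤ v.unpair.2 ∧
      (y ≠ 0 ↔ v.unpair.1 / 2 ^ x % 2 = 1) := by
  rw [EE, ball_iff]
  refine forall_congr' (fun x => imp_congr_right (fun _ => ?_))
  cases h : gam p ρ x with
  | none => simp
  | some y =>
    simp only [Option.map_some, Option.getD_some, Bool.and_eq_true, decide_eq_true_iff,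
      Option.some.injEq, exists_eq_left', beq_iff_eq, decide_eq_decide]

lemma c_unl {α : Type*} [Primcodable α] {f : α → ℕ} (hf : Computable f) :
    Computable (fun a => (f a).unpair.1) := Computable.fst.comp (Computable.unpair.comp hf)

lemma c_unr {α : Type*} [Primcodable α] {f : α → ℕ} (hf : Computable f) :
    Computable (fun a => (f a).unpair.2) := Computable.snd.comp (Computable.unpair.comp hf)

lemma c_bit {α : Type*} [Primcodable α] {f g : α → ℕ} (hf : Computable f) (hg : Computable g) :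
    Computable (fun a => decide (f a / 2 ^ g a % 2 = 1)) :=
  c_eq (c_mod (c_div hf (c_pow (Computable.const 2) hg)) (Computable.const 2)) (Computable.const 1)

lemma c_beq {α : Type*} [Primcodable α] {f g : α → Bool} (hf : Computable f)
    (hg : Computable g) : Computable (fun a => f a == g a) := by
  have h := c_eq hf hg
  refine h.of_eq (fun a => ?_)
  cases f a <;> cases g a <;> rfl

lemma c_EE (c : Ctx) (p : ℕ) : Computable (fun q : (Str × ℕ) × Str => EE c p q.1.1 q.1.2 q.2) := by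
  have h0 : Computable (fun z : ((Str × ℕ) × Str) × ℕ => gam p z.1.2 z.2) := by
    have h1 : Computable (fun z : ((Str × ℕ) × Str) × ℕ => ((p, z.1.2), z.2)) :=
      ((Computable.const p).pair (Computable.snd.comp Computable.fst)).pair Computable.snd
    exact cmp gam_primrec.to_comp h1 (fun _ => rfl)
  have hv : Computable (fun w : (((Str × ℕ) × Str) × ℕ) × ℕ => w.1.1.1.2) :=
    Computable.snd.comp (Computable.fst.comp (Computable.fst.comp Computable.fst))
  have hx : Computable (fun w : (((Str × ℕ) × Str) × ℕ) × ℕ => w.1.2) :=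
    Computable.snd.comp Computable.fst
  have h2 : Computable (fun w : (((Str × ℕ) × Str) × ℕ) × ℕ =>
      decide (w.2 ≤ w.1.1.1.2.unpair.2)) := c_le Computable.snd (c_unr hv)
  have h3 : Computable (fun w : (((Str × ℕ) × Str) × ℕ) × ℕ => decide (w.2 ≠ 0)) := by
    have h4 : Computable (fun w : (((Str × ℕ) × Str) × ℕ) × ℕ => !(decide (w.2 = 0))) :=
      c_not (c_eq Computable.snd (Computable.const 0))
    refine h4.of_eq (fun q => ?_)
    by_cases h : q.2 = 0 <;> simp [h]
  have h5 : Computable (fun w : (((Str × ℕ) × Str) × ℕ) × ℕ =>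
      decide (w.1.1.1.2.unpair.1 / 2 ^ w.1.2 % 2 = 1)) := c_bit (c_unl hv) hx
  have h6 : Computable₂ (fun (z : ((Str × ℕ) × Str) × ℕ) (y : ℕ) =>
      decide (y ≤ z.1.1.2.unpair.2) && (decide (y ≠ 0) ==
        decide (z.1.1.2.unpair.1 / 2 ^ z.2 % 2 = 1))) := by
    have := c_and h2 (c_beq h3 h5)
    exact this
  have h7 : Computable₂ (fun (q : (Str × ℕ) × Str) (x : ℕ) =>
      ((gam p q.2 x).map (fun y => decide (y ≤ q.1.2.unpair.2) &&
    (decide (y ≠ 0) == decide (q.1.2.unpair.1 / 2 ^ x % 2 = 1)))).getD false) := by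
    have := Computable.option_getD (Computable.option_map h0 h6) (Computable.const false)
    exact this
  have h8 : Computable (fun q : (Str × ℕ) × Str => c.t q.1.1.length) :=
    c.ht.comp (Computable.list_length.comp (Computable.fst.comp Computable.fst))
  have h9 := c_ball h8 h7
  exact h9

lemma pat_num (n : ℕ) (f : ℕ → Bool) : ∃ v < 2 ^ n, ∀ x < n, (v / 2 ^ x % 2 = 1 ↔ f x = true) := by
  induction n with
  | zero => exact ⟨0, by simp, by simp⟩
  | succ n ih =>
    obtain ⟨v, hv, h⟩ := ih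
    refine ⟨v + (f n).toNat * 2 ^ n, ?_, ?_⟩
    · have : (f n).toNat ≤ 1 := Bool.toNat_le _
      calc v + (f n).toNat * 2 ^ n ≤ v + 1 * 2 ^ n := by gcongr
        _ < 2 ^ n + 1 * 2 ^ n := by gcongr
        _ = 2 ^ (n + 1) := by ring
    · intro x hx
      rcases Nat.lt_succ_iff_lt_or_eq.1 hx with h1 | h1
      · rw [← h x h1]
        have h2 : 2 ^ n = 2 ^ x * (2 * 2 ^ (n - x - 1)) := by
          rw [← pow_succ', ← pow_add]; congr 1; omega
        have h3 : (v + (f n).toNat * 2 ^ n) / 2 ^ x =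
            v / 2 ^ x + (f n).toNat * (2 * 2 ^ (n - x - 1)) := by
          rw [h2]
          rw [show v + (f n).toNat * (2 ^ x * (2 * 2 ^ (n - x - 1))) =
            v + 2 ^ x * ((f n).toNat * (2 * 2 ^ (n - x - 1))) by ring]
          exact Nat.add_mul_div_left _ _ (by positivity)
        rw [h3, show (f n).toNat * (2 * 2 ^ (n - x - 1)) =
          2 * ((f n).toNat * 2 ^ (n - x - 1)) by ring, Nat.add_mul_mod_self_left]
      · subst h1
        have h3 : (v + (f x).toNat * 2 ^ x) / 2 ^ x = (f x).toNat := by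
          rw [Nat.add_mul_div_right _ _ (by positivity), Nat.div_eq_of_lt hv, zero_add]
        rw [h3]
        cases f x <;> simp

end Pool.Agent.H166R3.AT
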