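import Pool.Agent.H166R3.AT.FS

set_option autoImplicit false

/-! The generic function. -/

namespace Pool.Agent.H166R3.AT

open Encodable MeasureTheory
open scoped ENNReal
open Pool.Agent.Helper743 (pre pre_length pre_succ pre_prefix)
open Pool.Agent.H715R3.Disp (gam gam_mono gam_primrec mu cyl_measure)

/-- the final outcome for functional `p` -/
def Res (a : ℕ → ℕ) (p : ℕ) : Prop :=
  (∃ x, ∀ n, gam p (pre a n) x = none) ∨
  ((∃ G : ℕ → ℕ, Computable G ∧ ∀ x, ∃ n y, gam p (pre a n) x = some y ∧ y ≤ G x) ∧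
   ∃ V, IsMLTest V ∧ ∀ X : ℕ → Bool,
    (∀ x n y, gam p (pre a n) x = some y → X x = decide (y ≠ 0)) → ∀ k, X ∈ V k)

lemma Out.res {c : Ctx} {e : ℕ} {d : Cond c e} {p : ℕ} (h : Out d p) {a : ℕ → ℕ}
    (ha : d.Sat a) : Res a p := by
  rcases h with ⟨x, h⟩ | ⟨⟨G, hG, h⟩, V, hV, h'⟩
  · exact Or.inl ⟨x, h a ha⟩
  · exact Or.inr ⟨⟨G, hG, h a ha⟩, V, hV, h' a ha⟩

/-- the full bounded tree -/
def T0 (b : ℕ → ℕ) (ρ : Str) : Bool := ball ρ.length (fun j => decide (ρ.getD j 0 < b j))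

lemma T0_iff {b : ℕ → ℕ} {ρ : Str} : T0 b ρ = true ↔ ∀ i (h : i < ρ.length), ρ[i] < b i := by
  rw [T0, ball_iff]
  refine forall_congr' (fun i => forall_congr' (fun h => ?_))
  rw [decide_eq_true_iff, List.getD_eq_getElem _ _ h]

lemma c_getD {α : Type*} [Primcodable α] {f : α → Str} {g : α → ℕ} (hf : Computable f)
    (hg : Computable g) : Computable (fun a => (f a).getD (g a) 0) :=
  ((Primrec.list_getD 0).to_comp).comp hf hg

lemma c_T0 {b : ℕ → ℕ} (hb : Computable b) : Computable (T0 b) := by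
  have h1 : Computable₂ (fun (ρ : Str) (j : ℕ) => decide (ρ.getD j 0 < b j)) := by
    have := c_lt (c_getD (α := Str × ℕ) Computable.fst Computable.snd)
      (hb.comp Computable.snd)
    exact this
  have h2 := c_ball (n := fun ρ : Str => ρ.length) Computable.list_length h1
  exact h2

def B0 (W : ℕ → Set ℕ) : Set Str := {ρ | ∃ j, ∃ h : j < ρ.length, ρ[j] ∈ W j}

lemma B0_CE {W : ℕ → Set ℕ} (hW : CE {q : ℕ × ℕ | q.2 ∈ W q.1}) : CE (B0 W) := by
  obtain ⟨f, hf, _, h⟩ := hW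
  refine CE.ofEx (δ := ℕ × ℕ) (fun ρ q => decide (q.1 < ρ.length) && f (q.1, ρ.getD q.1 0) q.2)
    ?_ ?_
  · have h1 : Computable (fun z : Str × (ℕ × ℕ) => decide (z.2.1 < z.1.length)) :=
      c_lt (Computable.fst.comp Computable.snd) (Computable.list_length.comp Computable.fst)
    have h2 : Computable (fun z : Str × (ℕ × ℕ) => (z.2.1, z.1.getD z.2.1 0)) :=
      (Computable.fst.comp Computable.snd).pair (c_getD Computable.fst
        (Computable.fst.comp Computable.snd))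
    have h3 : Computable (fun z : Str × (ℕ × ℕ) => f (z.2.1, z.1.getD z.2.1 0) z.2.2) :=
      hf.comp h2 (Computable.snd.comp Computable.snd)
    exact c_and h1 h3
  · intro ρ
    constructor
    · rintro ⟨j, hj, h1⟩
      obtain ⟨s, hs⟩ := (h (j, ρ[j])).1 h1
      refine ⟨(j, s), ?_⟩
      simp only [Bool.and_eq_true, decide_eq_true_iff]
      refine ⟨hj, ?_⟩
      rw [List.getD_eq_getElem _ _ hj]
      exact hs
    · rintro ⟨⟨j, s⟩, h1⟩
      simp only [Bool.and_eq_true, decide_eq_true_iff] at h1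
      obtain ⟨hj, h2⟩ := h1
      rw [List.getD_eq_getElem _ _ hj] at h2
      exact ⟨j, hj, (h (j, ρ[j])).2 ⟨s, h2⟩⟩

lemma B0_up {W : ℕ → Set ℕ} {ρ : Str} {i : ℕ} (h : ρ ∈ B0 W) : ρ ++ [i] ∈ B0 W := by
  obtain ⟨j, hj, h1⟩ := h
  refine ⟨j, by rw [List.length_append]; omega, ?_⟩
  rw [List.getElem_append_left hj]
  exact h1

lemma B0_last {W : ℕ → Set ℕ} {ρ : Str} {i : ℕ} (h : ρ ++ [i] ∈ B0 W) (h0 : ρ ∉ B0 W) :
    i ∈ W ρ.length := by
  obtain ⟨j, hj, h1⟩ := h
  rw [List.length_append] at hj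
  simp only [List.length_singleton] at hj
  rcases Nat.lt_succ_iff_lt_or_eq.1 hj with h2 | h2
  · rw [List.getElem_append_left h2] at h1
    exact absurd ⟨j, h2, h1⟩ h0
  · subst h2
    rw [List.getElem_append_right le_rfl] at h1
    simpa using h1

lemma B0_closed {W : ℕ → Set ℕ} {Q b : ℕ → ℕ}
    (hQ : ∀ n, ∀ s : Finset ℕ, (∀ i ∈ s, i ∈ W n) → s.card < Q n) {ρ : Str}
    (h : Big (T0 b) Q (B0 W) ρ) : ρ ∈ B0 W := by
  induction h with
  | here h => exact h
  | @step ρ s hs _ _ ih =>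
    by_contra hcon
    have := hQ ρ.length s (fun i hi => B0_last (ih i hi) hcon)
    omega

lemma T0_append {b : ℕ → ℕ} {ρ : Str} {i : ℕ} : T0 b (ρ ++ [i]) = true ↔
    T0 b ρ = true ∧ i < b ρ.length := by
  rw [T0_iff, T0_iff]
  constructor
  · intro h
    refine ⟨fun j hj => ?_, ?_⟩
    · have := h j (by rw [List.length_append]; omega)
      rwa [List.getElem_append_left hj] at this
    · have := h ρ.length (by simp)
      simpa using this
  · rintro ⟨h1, h2⟩ j hj
    rw [List.length_append] at hj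
    simp only [List.length_singleton] at hj
    rcases Nat.lt_succ_iff_lt_or_eq.1 hj with h3 | h3
    · rw [List.getElem_append_left h3]; exact h1 j h3
    · subst h3
      rw [List.getElem_append_right le_rfl]
      simpa using h2

theorem init (c : Ctx) (W : ℕ → Set ℕ) (hW : CE {q : ℕ × ℕ | q.2 ∈ W q.1}) (Q : ℕ → ℕ)
    (hQc : Computable Q) (hQ : ∀ n, ∀ s : Finset ℕ, (∀ i ∈ s, i ∈ W n) → s.card < Q n)
    (h0 : Q 0 ≤ c.b 0) (hbud : ∀ n, 1 ≤ n → Q n * (2 ^ c.t n) ^ (4 ^ n) ≤ c.b n) :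
    ∃ d : Cond c 0, d.B = B0 W ∧ d.T = T0 c.b ∧ d.σ.length = 1 := by
  have h1 : ∃ i, i < c.b 0 ∧ i ∉ W 0 := by
    by_contra hcon
    push Not at hcon
    have := hQ 0 (Finset.range (c.b 0)) (fun i hi => hcon i (Finset.mem_range.1 hi))
    rw [Finset.card_range] at this
    omega
  obtain ⟨i, hi1, hi2⟩ := h1
  have hT1 : T0 c.b [i] = true := by
    rw [T0_iff]
    intro j hj
    simp only [List.length_singleton] at hj
    have : j = 0 := by omega
    subst this
    simpa using hi1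
  refine ⟨{ σ := [i], T := T0 c.b, P := c.b, Q := Q, B := B0 W,
            hT := c_T0 c.hb, hTb := fun ρ h => T0_iff.1 h, hTσ := hT1,
            hTp := fun ρ i _ h => (T0_append.1 h).1,
            hPb := ?_, hB := B0_CE hW, hBup := fun ρ i _ h => B0_up h,
            hBcl := fun ρ _ _ h => B0_closed hQ h, hσB := ?_,
            hQ := hQc, hQ1 := fun n => ?_, hbud := ?_, hle := by simp }, rfl, rfl, rfl⟩
  · intro ρ _ h
    have h2 : (Finset.range (c.b ρ.length)).filter (fun i => T0 c.b (ρ ++ [i]) = true) =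
        Finset.range (c.b ρ.length) :=
      Finset.filter_true_of_mem (fun i hi => T0_append.2 ⟨h, Finset.mem_range.1 hi⟩)
    rw [h2, Finset.card_range]
  · rintro ⟨j, hj, h2⟩
    simp only [List.length_singleton] at hj
    have : j = 0 := by omega
    subst this
    exact hi2 (by simpa using h2)
  · have := hQ n ∅ (by simp)
    rw [Finset.card_empty] at this
    exact this
  · intro n hn
    simpa using hbud n (by simpa using hn)

lemma Cond.T_mid {c : Ctx} {e : ℕ} (d : Cond c e) {ρ ρ' : Str} (h0 : d.σ <+: ρ) (h : ρ <+: ρ')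
    (hT : d.T ρ' = true) : d.T ρ = true := by
  obtain ⟨l, rfl⟩ := h
  induction l using List.reverseRecOn with
  | nil => simpa using hT
  | append_singleton l i ih =>
    rw [← List.append_assoc] at hT
    exact ih (d.hTp _ _ (h0.trans (List.prefix_append _ _)) hT)

lemma Cond.B_mid {c : Ctx} {e : ℕ} (d : Cond c e) {ρ ρ' : Str} (h0 : d.σ <+: ρ) (h : ρ <+: ρ')
    (hB : ρ ∈ d.B) : ρ' ∈ d.B := by
  obtain ⟨l, rfl⟩ := h
  induction l using List.reverseRecOn with
  | nil => simpa using hB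
  | append_singleton l i ih =>
    rw [← List.append_assoc]
    exact d.hBup _ _ (h0.trans (List.prefix_append _ _)) ih

/-- The forcing theorem. -/
theorem generic (c : Ctx) (W : ℕ → Set ℕ) (hW : CE {q : ℕ × ℕ | q.2 ∈ W q.1}) (Q : ℕ → ℕ)
    (hQc : Computable Q) (hQ : ∀ n, ∀ s : Finset ℕ, (∀ i ∈ s, i ∈ W n) → s.card < Q n)
    (h0 : Q 0 ≤ c.b 0) (hbud : ∀ n, 1 ≤ n → Q n * (2 ^ c.t n) ^ (4 ^ n) ≤ c.b n) :
    ∃ a : ℕ → ℕ, (∀ n, a n < c.b n) ∧ (∀ n, a n ∉ W n) ∧ ∀ p, Res a p := by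
  classical
  obtain ⟨d0, hd1, hd2, hd3⟩ := init c W hW Q hQc hQ h0 hbud
  have hstep : ∀ (e : ℕ) (d : Cond c e), ∃ d' : Cond c (e + 1), d.σ <+: d'.σ ∧
    (∀ ρ, d'.T ρ = true → d.T ρ = true) ∧ (∀ ρ, d'.σ <+: ρ → ρ ∈ d.B → ρ ∈ d'.B) ∧
    Out d' e := fun e d => step d e
  choose nx hx1 hx2 hx3 hx4 using hstep
  let D : (e : ℕ) → Cond c e := fun e => Nat.rec d0 (fun e d => nx e d) e
  have D0 : D 0 = d0 := rfl
  have DS : ∀ e, D (e + 1) = nx e (D e) := fun e => rfl
  have hch : ∀ k, (D k).σ <+: (D (k + 1)).σ := fun k => by rw [DS]; exact hx1 k _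
  obtain ⟨a, ha⟩ := chain_limit (s := fun k => (D k).σ) hch (fun k => by
    have := (D k).hle
    show k ≤ (D k).σ.length
    omega)
  have hTm : ∀ e k, ∀ ρ, (D (e + k)).T ρ = true → (D e).T ρ = true := by
    intro e k
    induction k with
    | zero => intro ρ h; exact h
    | succ k ih =>
      intro ρ h
      apply ih
      apply hx2 (e + k) (D (e + k))
      rw [← DS]; exact h
  have hBm : ∀ e k, ∀ ρ, (D (e + k)).σ <+: ρ → ρ ∈ (D e).B → ρ ∈ (D (e + k)).B := by
    intro e k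
    induction k with
    | zero => intro ρ _ h; exact h
    | succ k ih =>
      intro ρ h1 h2
      have h3 := hx3 (e + k) (D (e + k)) ρ
      rw [← DS] at h3
      exact h3 h1 (ih ρ ((hch (e + k)).trans h1) h2)
  have hsat : ∀ e, (D e).Sat a := by
    intro e
    have key : ∀ n, (D e).σ.length ≤ n → (D e).σ <+: pre a n ∧ pre a n <+: (D (e + n)).σ := by
      intro n hn
      constructor
      · have h1 := pre_prefix a hn
        rwa [ha e] at h1
      · have h1 : n ≤ (D (e + n)).σ.length := by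
          have := (D (e + n)).hle; omega
        have h2 := pre_prefix a h1
        rwa [ha (e + n)] at h2
    refine ⟨⟨ha e, fun n hn => ?_⟩, fun n hn hB => ?_⟩
    · exact (D e).T_mid (key n hn).1 (key n hn).2 (hTm e n _ (D (e + n)).hTσ)
    · have h1 := (D e).B_mid (key n hn).1 (key n hn).2 hB
      exact (D (e + n)).hσB (hBm e n _ List.prefix_rfl h1)
  refine ⟨a, fun n => ?_, fun n hn => ?_, fun p => ?_⟩
  · have h1 := (hsat 0).1.2 (n + 1) (by rw [D0, hd3]; omega)
    rw [D0, hd2, T0_iff] at h1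
    have := h1 n (by simp)
    simpa [pre] using this
  · have h1 := (hsat 0).2 (n + 1) (by rw [D0, hd3]; omega)
    rw [D0, hd1] at h1
    apply h1
    refine ⟨n, by simp, ?_⟩
    simpa [pre] using hn
  · have h1 : Out (D (p + 1)) p := by rw [DS]; exact hx4 p _
    exact h1.res (hsat (p + 1))

end Pool.Agent.H166R3.AT
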