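import Pool.Agent.H715R3.D7

set_option autoImplicit false

/-! The strong law. -/

namespace Pool.Agent.H166R3.AT

open Encodable MeasureTheory Filter ProbabilityTheory
open scoped ENNReal Topology
open Pool.Agent.H715R3.Disp (mu coin fr)

lemma coin_xor (c : Bool) : ((PMF.uniformOfFintype Bool).toMeasure).map (fun b => xor c b) =
    (PMF.uniformOfFintype Bool).toMeasure := by
  refine Measure.ext_of_singleton (fun b => ?_)
  rw [Measure.map_apply (measurable_of_countable _) (MeasurableSet.singleton b), coin]
  have : (fun b => xor c b) ⁻¹' {b} = {xor c b} := by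
    ext d; cases b <;> cases c <;> cases d <;> simp
  rw [this, coin]

def gX (b : Bool) : ℝ := if b then 1 else 0

def XX (C : ℕ → Bool) (i : ℕ) (B : ℕ → Bool) : ℝ := gX (xor (C i) (B i))

lemma XX_map (C : ℕ → Bool) (i : ℕ) : mu.map (XX C i) =
    ((PMF.uniformOfFintype Bool).toMeasure).map gX := by
  have h1 : XX C i = gX ∘ ((fun b => xor (C i) b) ∘ (fun B : ℕ → Bool => B i)) := rfl
  have m1 : Measurable (fun B : ℕ → Bool => B i) := measurable_pi_apply i
  have m2 : Measurable (fun b => xor (C i) b) := measurable_of_countable _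
  have m3 : Measurable gX := measurable_of_countable _
  rw [h1, ← Measure.map_map m3 (m2.comp m1), ← Measure.map_map m2 m1]
  have h2 : mu.map (fun B : ℕ → Bool => B i) = (PMF.uniformOfFintype Bool).toMeasure := by
    exact Measure.infinitePi_map_eval (fun _ : ℕ => (PMF.uniformOfFintype Bool).toMeasure) i
  rw [h2, coin_xor]

lemma XX_meas (C : ℕ → Bool) (i : ℕ) : Measurable (XX C i) := by
  have m1 : Measurable (fun B : ℕ → Bool => B i) := measurable_pi_apply i
  have m2 : Measurable (fun b => gX (xor (C i) b)) := measurable_of_countable _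
  exact m2.comp m1

lemma XX_indep (C : ℕ → Bool) : iIndepFun (XX C) mu := by
  have := iIndepFun_infinitePi (P := fun _ : ℕ => (PMF.uniformOfFintype Bool).toMeasure)
    (X := fun i (b : Bool) => gX (xor (C i) b)) (fun i => measurable_of_countable _)
  exact this

lemma XX_int (C : ℕ → Bool) (i : ℕ) : ∫ B, XX C i B ∂mu = 1 / 2 := by
  have h1 : ∫ B, XX C i B ∂mu = ∫ y, y ∂(mu.map (XX C i)) := by
    rw [integral_map (XX_meas C i).aemeasurable (by fun_prop)]
  rw [h1, XX_map, integral_map (measurable_of_countable _).aemeasurable (by fun_prop)]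
  rw [integral_fintype (by simp)]
  simp [gX, measureReal_def, coin]

lemma slln (C : ℕ → Bool) : ∀ᵐ B ∂mu, Tendsto (fr C B) atTop (𝓝 (1 / 2)) := by
  have h := strong_law_ae_real (μ := mu) (XX C) ?_ ?_ ?_
  · filter_upwards [h] with B hB
    rw [XX_int] at hB
    refine hB.congr (fun n => ?_)
    unfold fr
    congr 1
    rw [Finset.card_filter]
    push_cast
    refine Finset.sum_congr rfl (fun i _ => ?_)
    unfold XX gX
    cases C i <;> cases B i <;> simp
  · refine Integrable.of_bound (XX_meas C 0).aestronglyMeasurable 1 ?_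
    refine Eventually.of_forall (fun B => ?_)
    unfold XX gX
    split_ifs <;> simp
  · intro i j hij
    exact (XX_indep C).indepFun hij
  · intro i
    refine ⟨(XX_meas C i).aemeasurable, (XX_meas C 0).aemeasurable, ?_⟩
    rw [XX_map, XX_map]

end Pool.Agent.H166R3.AT
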