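import Pool.Agent.H166R3.AT.PR
import Pool.Agent.H166R3.AT.SL

set_option autoImplicit false

/-! The code and the final statement. -/

namespace Pool.Agent.H166R3.AT

open Encodable MeasureTheory Filter
open scoped ENNReal Topology
open Pool.Agent.Helper743
open Pool.Agent.H715R3.Disp (gam gam_mono gam_primrec mu cyl_measure bn meas_pre exists_gam fr
  fr_nonneg fr_le_one fr_bdd fr_cobdd lim_le_one lim_nonneg TEq_iff)

lemma blk_comp : Computable blk := by
  have h1 : Computable₂ (fun (x n : ℕ) => decide (x < 2 ^ uu (n + 1))) :=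
    c_lt Computable.fst (c_two (c_uu (Computable.succ.comp Computable.snd)))
  have hex : ∀ x : ℕ, ∃ n, decide (x < 2 ^ uu (n + 1)) = true := by
    intro x
    refine ⟨x, decide_eq_true ?_⟩
    have h1 : x < 2 ^ x := Nat.lt_two_pow_self
    have h2 : 2 ^ x ≤ 2 ^ uu (x + 1) := Nat.pow_le_pow_right (by norm_num)
      ((Nat.le_succ x).trans (le_uu (x + 1)))
    omega
  refine (c_find h1 hex).of_eq (fun x => ?_)
  unfold blk
  refine Nat.find_congr' (fun {n} => ?_)
  simp

lemma code_TR (a : ℕ → ℕ) : TR (bn (code a)) a := by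
  have h1 : RecT {((a : ℕ → ℕ) : ℕ →. ℕ)} (fun x => Nat.pair x (a (blk x))) :=
    RecT.pair (Computable.recT Computable.id) (RecT.comp (TR.refl a) (Computable.recT blk_comp))
  have u1 : Computable (fun z : ℕ => z.unpair.1) := Computable.fst.comp Computable.unpair
  have u2 : Computable (fun z : ℕ => z.unpair.2) := Computable.snd.comp Computable.unpair
  have h2 : Computable (fun z : ℕ => (chi (kp (blk z.unpair.1)) z.unpair.2 z.unpair.1).toNat) :=
    c_ofb (c_chi (c_kp (cmp blk_comp u1 (fun _ => rfl))) u2 u1)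
  have h3 := RecT.comp (Computable.recT h2) h1
  refine Nat.RecursiveIn.of_eq h3 ?_
  intro n
  simp only [Nat.unpair_pair, bn, code]

lemma chi_bit {k u i j : ℕ} (hj : j < k) (hk : k ≤ u) :
    chi k i (2 ^ u + 2 ^ j) = decide (i / 2 ^ j % 2 = 1) := by
  unfold chi
  have h1 : 2 ^ u + 2 ^ j = 2 ^ j + 2 ^ k * 2 ^ (u - k) := by
    rw [← pow_add, Nat.add_sub_cancel' hk, add_comm]
  rw [Finset.sum_eq_single j]
  · rw [h1, bit_add hj, Nat.div_self (by positivity)]
    have : i / 2 ^ j % 2 < 2 := Nat.mod_lt _ (by norm_num)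
    generalize i / 2 ^ j % 2 = q at this
    interval_cases q <;> simp
  · intro l hl hne
    rw [Finset.mem_range] at hl
    rw [h1, bit_add hl]
    have : 2 ^ j / 2 ^ l % 2 = 0 := by
      rcases Nat.lt_or_gt_of_ne hne with h | h
      · rw [Nat.pow_div h.le (by norm_num)]
        have : j - l = (j - l - 1) + 1 := by omega
        rw [this, pow_succ]; omega
      · rw [Nat.div_eq_of_lt (Nat.pow_lt_pow_right (by norm_num) h)]
    rw [this, mul_zero]
  · intro h; exact absurd (Finset.mem_range.2 hj) h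

lemma bits_sum (k i : ℕ) : ∑ j ∈ Finset.range k, 2 ^ j * (i / 2 ^ j % 2) = i % 2 ^ k := by
  induction k with
  | zero => simp [Nat.mod_one]
  | succ k ih => rw [Finset.sum_range_succ, ih, Nat.mod_pow_succ]

/-- recovering the index -/
def dec (n : ℕ) (w : List ℕ) : ℕ :=
  ∑ j ∈ Finset.range (kp n), 2 ^ j * w.getD (2 ^ uu n + 2 ^ j) 0

lemma dec_eq {a : ℕ → ℕ} (ha : ∀ n, a n < 2 ^ kp n) (n : ℕ) :
    dec n (pre (bn (code a)) (2 ^ (uu n + 1))) = a n := by
  unfold dec
  have h1 : ∀ j ∈ Finset.range (kp n), 2 ^ j *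
      (pre (bn (code a)) (2 ^ (uu n + 1))).getD (2 ^ uu n + 2 ^ j) 0 =
      2 ^ j * (a n / 2 ^ j % 2) := by
    intro j hj
    rw [Finset.mem_range] at hj
    have hku := kp_add n
    have h2 : 2 ^ uu n + 2 ^ j < 2 ^ (uu n + 1) := by
      have : 2 ^ j < 2 ^ uu n := Nat.pow_lt_pow_right (by norm_num) (by omega)
      rw [pow_succ]; omega
    have h3 : blk (2 ^ uu n + 2 ^ j) = n := by
      apply blk_eq (Nat.le_add_right _ _)
      exact lt_of_lt_of_le h2 (Nat.pow_le_pow_right (by norm_num) (uu_lt n))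
    rw [List.getD_eq_getElem _ _ (by simpa using h2)]
    simp only [pre, List.getElem_map, List.getElem_range]
    rw [bn, code, h3, chi_bit hj (by omega)]
    have : a n / 2 ^ j % 2 < 2 := Nat.mod_lt _ (by norm_num)
    generalize a n / 2 ^ j % 2 = q at this
    interval_cases q <;> simp
  rw [Finset.sum_congr rfl h1, bits_sum, Nat.mod_eq_of_lt (ha n)]

lemma TR_code {a : ℕ → ℕ} (ha : ∀ n, a n < 2 ^ kp n) : TR a (bn (code a)) := by
  have h0 := recT_pre (O := {((bn (code a) : ℕ → ℕ) : ℕ →. ℕ)}) (TR.refl _)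
  have c1 : Computable (fun n : ℕ => 2 ^ (uu n + 1)) :=
    c_two (Computable.succ.comp (c_uu Computable.id))
  have h1 := RecT.pair (O := {((bn (code a) : ℕ → ℕ) : ℕ →. ℕ)})
    (Computable.recT Computable.id) (RecT.comp h0 (Computable.recT c1))
  have u1 : Computable (fun z : ℕ => z.unpair.1) := Computable.fst.comp Computable.unpair
  have u2 : Computable (fun z : ℕ => z.unpair.2) := Computable.snd.comp Computable.unpair
  have u3 : Computable (fun z : ℕ => ((decode z.unpair.2 : Option (List ℕ)).getD [])) :=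
    Computable.option_getD (Computable.decode.comp u2) (Computable.const [])
  have g0 : Computable₂ (fun (w : List ℕ) (i : ℕ) => w.getD i 0) :=
    (Primrec.list_getD 0).to_comp
  have g1 : Computable₂ (fun (z : ℕ) (j : ℕ) => 2 ^ j *
      ((decode z.unpair.2 : Option (List ℕ)).getD []).getD (2 ^ uu z.unpair.1 + 2 ^ j) 0) := by
    have s1 : Computable (fun q : ℕ × ℕ => 2 ^ q.2) := c_two Computable.snd
    have s2 : Computable (fun q : ℕ × ℕ => 2 ^ uu q.1.unpair.1 + 2 ^ q.2) :=
      c_add (c_two (c_uu (u1.comp Computable.fst))) s1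
    have s3 : Computable (fun q : ℕ × ℕ =>
      ((decode q.1.unpair.2 : Option (List ℕ)).getD []).getD (2 ^ uu q.1.unpair.1 + 2 ^ q.2) 0) :=
      cmp g0 ((u3.comp Computable.fst).pair s2) (fun _ => rfl)
    have := c_mul s1 s3
    exact this
  have h2 : Computable (fun z : ℕ => dec z.unpair.1
      ((decode z.unpair.2 : Option (List ℕ)).getD [])) := by
    have := c_sum (c_kp u1) g1
    exact this
  have h3 := RecT.comp (Computable.recT h2) h1
  refine Nat.RecursiveIn.of_eq h3 ?_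
  intro n
  simp only [Nat.unpair_pair, encodek, Option.getD_some, id, dec_eq ha]

/-! ### measure -/

lemma ae_good {a : ℕ → ℕ} (ha : ∀ n, a n < 2 ^ kp n) (hW : ∀ n, a n ∉ WW n) :
    ∀ᵐ B ∂mu, ∀ p, ∃ N, ∀ n ≥ N, B ∉ Ev p n (a n) := by
  rw [ae_all_iff]
  intro p
  have h0 : ∀ n, mu (Ev p n (a n)) ≤ 2 ^ p * (2⁻¹ : ℝ≥0∞) ^ n := by
    intro n
    rcases le_or_gt p n with h | h
    · refine (Ev_small h (ha n) (hW n)).trans ?_
      have : (1 : ℝ≥0∞) ≤ 2 ^ p := one_le_pow₀ (by norm_num)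
      exact le_mul_of_one_le_left' this
    · refine (prob_le_one (μ := mu)).trans ?_
      calc (1 : ℝ≥0∞) = 2 ^ n * (2⁻¹ : ℝ≥0∞) ^ n := (two_pow_mul_inv n).symm
        _ ≤ 2 ^ p * (2⁻¹ : ℝ≥0∞) ^ n := by
          gcongr
          norm_num
  have h1 : ∑' n, mu (Ev p n (a n)) ≠ ∞ := by
    refine ne_top_of_le_ne_top ?_ (ENNReal.tsum_le_tsum h0)
    rw [ENNReal.tsum_mul_left, ENNReal.tsum_geometric, ENNReal.one_sub_inv_two, inv_inv]
    exact ENNReal.mul_ne_top (ENNReal.pow_ne_top (by norm_num)) (by norm_num)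
  filter_upwards [ae_eventually_notMem h1] with B hB
  exact eventually_atTop.1 hB

lemma not_bad {a : ℕ → ℕ} {B D : ℕ → Bool} (hB : ∀ p, ∃ N, ∀ n ≥ N, B ∉ Ev p n (a n))
    (hD : TR (bn D) (bn B)) : ∃ N, ∀ n, N ≤ n → ¬ Bd n (a n) D := by
  obtain ⟨p, hp⟩ := exists_gam (bn B) _ hD
  obtain ⟨N, hN⟩ := hB p
  refine ⟨N, fun n hn hbad => hN n hn ?_⟩
  have h1 : ∀ x, ∃ l, gam p (pre (bn B) l) x = some (bn D x) := fun x =>
    (hp x (bn D x)).1 (Part.mem_some _)
  choose l hl using h1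
  refine ⟨(Finset.range (2 ^ uu (n + 1))).sup l, hitb_iff.2 ?_⟩
  have h2 : ∀ x < 2 ^ uu (n + 1), gam p (pre (bn B) ((Finset.range (2 ^ uu (n + 1))).sup l)) x =
      some (bn D x) := by
    intro x hx
    exact gam_mono (pre_prefix (bn B) (Finset.le_sup (f := l) (Finset.mem_range.2 hx))) (hl x)
  refine ⟨fun x hx => by rw [h2 x hx]; rfl, Bd_congr (fun x hx => ?_) hbad⟩
  unfold DD
  rw [h2 x hx]
  unfold bn
  cases D x <;> simp

lemma lim_half {a : ℕ → ℕ} {D : ℕ → Bool} {N0 : ℕ} (hg : ∀ n, N0 ≤ n → ¬ Bd n (a n) D) :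
    limsup (fr (code a) D) atTop ≤ 1 / 2 := by
  refine le_of_forall_pos_le_add (fun ε hε => ?_)
  obtain ⟨N1, hN1⟩ := exists_pow_lt_of_lt_one (show (0 : ℝ) < ε / 3 by positivity)
    (show (1 / 2 : ℝ) < 1 by norm_num)
  set N := max N0 N1 with hN
  have hpow : (1 / 2 : ℝ) ^ N < ε / 3 :=
    lt_of_le_of_lt (pow_le_pow_of_le_one (by norm_num) (by norm_num) (le_max_right _ _)) hN1
  obtain ⟨M, hM⟩ := exists_nat_gt ((2 : ℝ) ^ uu N / ε)
  refine limsup_le_of_le (fr_cobdd _ _) ?_
  filter_upwards [eventually_ge_atTop (max (M + 1) (2 ^ uu N))] with m hm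
  have hm1 : M + 1 ≤ m := (le_max_left _ _).trans hm
  have hm2 : 2 ^ uu N ≤ m := (le_max_right _ _).trans hm
  have h1 := dl_all (fun n hn => hg n ((le_max_left _ _).trans hn)) m hm2
  rw [dl_card] at h1
  have h2 : (2 : ℝ) ^ N * (2 * (((Finset.range m).filter
      (fun k => code a k ≠ D k)).card : ℝ) - m) ≤ 2 ^ N * 2 ^ uu N + 3 * m := by
    exact_mod_cast h1
  set K : ℝ := (((Finset.range m).filter (fun k => code a k ≠ D k)).card : ℝ) with hK
  have hmpos : (0 : ℝ) < m := by
    have : 0 < m := by omega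
    exact_mod_cast this
  have hpos : (0 : ℝ) < 2 ^ N := by positivity
  have h3 : 2 * K - m ≤ 2 ^ uu N + 3 * m * (1 / 2) ^ N := by
    have h4 : (2 : ℝ) ^ N * (2 * K - m) ≤ 2 ^ N * (2 ^ uu N + 3 * m * (1 / 2) ^ N) := by
      have h5 : (2 : ℝ) ^ N * (1 / 2) ^ N = 1 := by
        rw [← mul_pow]; norm_num
      calc (2 : ℝ) ^ N * (2 * K - m) ≤ 2 ^ N * 2 ^ uu N + 3 * m := h2
        _ = 2 ^ N * 2 ^ uu N + 3 * m * ((2 : ℝ) ^ N * (1 / 2) ^ N) := by rw [h5, mul_one]
        _ = _ := by ring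
    exact le_of_mul_le_mul_left h4 hpos
  have h6 : (2 : ℝ) ^ uu N ≤ ε * m := by
    have h7 : (2 : ℝ) ^ uu N / ε ≤ m := by
      refine hM.le.trans ?_
      have : (M : ℝ) + 1 ≤ m := by exact_mod_cast hm1
      linarith
    rw [div_le_iff₀ hε] at h7
    linarith
  have h8 : 3 * m * (1 / 2 : ℝ) ^ N ≤ ε * m := by nlinarith
  unfold fr
  rw [div_le_iff₀ hmpos]
  rw [← hK]
  nlinarith

/-- the candidate for a set computed by functional `p` -/
noncomputable def Cp (A : ℕ → Bool) (p : ℕ) : ℕ → Bool := by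
  classical
  exact fun x => decide (∃ l, gam p (pre (bn A) l) x = some 1)

lemma Cp_iff {A : ℕ → Bool} {p x : ℕ} : Cp A p x = true ↔
    ∃ l, gam p (pre (bn A) l) x = some 1 := by
  classical
  unfold Cp
  simp

lemma Cp_spec {A C : ℕ → Bool} (h : TR (bn C) (bn A)) : ∃ p, C = Cp A p := by
  obtain ⟨p, hp⟩ := exists_gam (bn A) _ h
  refine ⟨p, funext (fun x => ?_)⟩
  have h1 := hp x 1
  have h2 : (1 : ℕ) ∈ ((bn C : ℕ →. ℕ) x) ↔ C x = true := by
    unfold bn
    simp only [PFun.coe_val, Part.mem_some_iff]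
    cases C x <;> simp
  rw [Bool.eq_iff_iff, Cp_iff]
  exact h2.symm.trans h1

lemma ae_half (A : ℕ → Bool) : ∀ᵐ B ∂mu, ∀ C, TR (bn C) (bn A) →
    limsup (fr C B) atTop = 1 / 2 := by
  have h1 : ∀ᵐ B ∂mu, ∀ p, Tendsto (fr (Cp A p) B) atTop (𝓝 (1 / 2)) :=
    ae_all_iff.2 (fun p => slln (Cp A p))
  filter_upwards [h1] with B hB C hC
  obtain ⟨p, rfl⟩ := Cp_spec hC
  exact (hB p).limsup_eq

lemma formula_half {A B : ℕ → Bool}
    (h1 : ∀ C, TR (bn C) (bn A) → limsup (fr C B) atTop = 1 / 2)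
    (h2 : ∀ D, TR (bn D) (bn B) → limsup (fr A D) atTop ≤ 1 / 2) :
    max
            (⨆ C : {C : ℕ → Bool // TuringEquivalent (fun n => Part.some (C n).toNat)
                                        (fun n => Part.some (A n).toNat)},
              ⨅ D : {D : ℕ → Bool // TuringEquivalent (fun n => Part.some (D n).toNat)
                                        (fun n => Part.some (B n).toNat)},
                Filter.limsup
                  (fun n : ℕ => (((Finset.range n).filter (fun k => C.1 k ≠ D.1 k)).card : ℝ) / (n : ℝ))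
                  Filter.atTop)
            (⨆ D : {D : ℕ → Bool // TuringEquivalent (fun n => Part.some (D n).toNat)
                                        (fun n => Part.some (B n).toNat)},
              ⨅ C : {C : ℕ → Bool // TuringEquivalent (fun n => Part.some (C n).toNat)
                                        (fun n => Part.some (A n).toNat)},
                Filter.limsup
                  (fun n : ℕ => (((Finset.range n).filter (fun k => C.1 k ≠ D.1 k)).card : ℝ) / (n : ℝ))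
                  Filter.atTop) = (1 / 2 : ℝ) := by
  have hAA : TuringEquivalent (fun n => Part.some (A n).toNat)
      (fun n => Part.some (A n).toNat) := TuringEquivalent.refl _
  have hBB : TuringEquivalent (fun n => Part.some (B n).toNat)
      (fun n => Part.some (B n).toNat) := TuringEquivalent.refl _
  have : Nonempty {C : ℕ → Bool // TuringEquivalent (fun n => Part.some (C n).toNat)
                                        (fun n => Part.some (A n).toNat)} := ⟨⟨A, hAA⟩⟩
  have : Nonempty {C : ℕ → Bool // TuringEquivalent (fun n => Part.some (C n).toNat)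
                                        (fun n => Part.some (B n).toNat)} := ⟨⟨B, hBB⟩⟩
  refine le_antisymm (max_le ?_ ?_) (le_max_of_le_right ?_)
  · refine ciSup_le (fun C => ?_)
    refine ciInf_le_of_le ?_ ⟨B, hBB⟩ (h1 C.1 (TEq_iff.1 C.2).1).le
    refine ⟨0, ?_⟩
    rintro _ ⟨D, rfl⟩
    exact lim_nonneg C.1 D.1
  · refine ciSup_le (fun D => ?_)
    refine ciInf_le_of_le ?_ ⟨A, hAA⟩ (h2 D.1 (TEq_iff.1 D.2).1)
    refine ⟨0, ?_⟩
    rintro _ ⟨C, rfl⟩
    exact lim_nonneg C.1 D.1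
  · refine le_ciSup_of_le ?_ ⟨B, hBB⟩ (le_ciInf ?_)
    · refine ⟨1, ?_⟩
      rintro _ ⟨D, rfl⟩
      refine ciInf_le_of_le ?_ ⟨A, hAA⟩ (lim_le_one A D.1)
      refine ⟨0, ?_⟩
      rintro _ ⟨C, rfl⟩
      exact lim_nonneg C.1 D.1
    · intro C
      exact (h1 C.1 (TEq_iff.1 C.2).1).ge

end Pool.Agent.H166R3.AT
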