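import Pool.Agent.H166R3.AT.FT

set_option autoImplicit false

/-! The main step of the forcing. -/

namespace Pool.Agent.H166R3.AT

open Encodable MeasureTheory
open scoped ENNReal
open Pool.Agent.Helper743 (pre pre_length pre_succ pre_prefix)
open Pool.Agent.H715R3.Disp (gam gam_mono gam_primrec mu cyl_measure)

/-- what is decided about functional `p` -/
def Out {c : Ctx} {e : ℕ} (d : Cond c e) (p : ℕ) : Prop :=
  (∃ x, ∀ a, d.Sat a → ∀ n, gam p (pre a n) x = none) ∨
  ((∃ G : ℕ → ℕ, Computable G ∧ ∀ a, d.Sat a → ∀ x, ∃ n y, gam p (pre a n) x = some y ∧ y ≤ G x) ∧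
   ∃ V, IsMLTest V ∧ ∀ a, d.Sat a → ∀ X : ℕ → Bool,
    (∀ x n y, gam p (pre a n) x = some y → X x = decide (y ≠ 0)) → ∀ k, X ∈ V k)

def Cx (p x : ℕ) : Set Str := {ρ | (gam p ρ x).isSome = true}

lemma Cx_up {p x : ℕ} {ρ ρ' : Str} (h : ρ <+: ρ') (h1 : ρ ∈ Cx p x) : ρ' ∈ Cx p x := by
  simp only [Cx, Set.mem_ofPred_eq, Option.isSome_iff_exists] at h1 ⊢
  obtain ⟨y, hy⟩ := h1
  exact ⟨y, gam_mono h hy⟩

lemma CE_union {B : Set Str} (hB : CE B) (p x : ℕ) : CE (B ∪ Cx p x) := by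
  obtain ⟨f, hf, hm, h⟩ := hB
  refine CE.of (fun ρ s => f ρ s || (gam p ρ x).isSome) ?_ ?_
  · have h1 : Computable (fun q : Str × ℕ => ((p, q.1), x)) :=
      ((Computable.const p).pair Computable.fst).pair (Computable.const x)
    have h2 : Computable (fun q : Str × ℕ => gam p q.1 x) := cmp gam_primrec.to_comp h1
      (fun _ => rfl)
    have h3 := c_or (hf.comp Computable.fst Computable.snd) (GD.c_isSome h2)
    exact h3
  · intro ρ
    rw [Set.mem_union, h ρ]
    constructor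
    · rintro (⟨s, hs⟩ | hs)
      · exact ⟨s, by simp [hs]⟩
      · exact ⟨0, by simp only [Bool.or_eq_true]; exact Or.inr hs⟩
    · rintro ⟨s, hs⟩
      rw [Bool.or_eq_true] at hs
      exact hs.imp (fun h => ⟨s, h⟩) id

variable {c : Ctx} {e : ℕ}

/-- the middle budget -/
def MM (c : Ctx) (e : ℕ) (Q : ℕ → ℕ) (n : ℕ) : ℕ := Q n * (2 ^ c.t n) ^ (2 * 4 ^ (n - (e + 1)))

/-- the lower budget -/
def PP (c : Ctx) (e : ℕ) (Q : ℕ → ℕ) (n : ℕ) : ℕ :=
  Q n * (2 ^ c.t n) ^ (2 * 4 ^ (n - (e + 1)) - 1)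

lemma c_MM {Q : ℕ → ℕ} (hQ : Computable Q) : Computable (MM c e Q) := by
  have h1 : Computable (fun n : ℕ => 2 * 4 ^ (n - (e + 1))) :=
    c_mul (Computable.const 2) (c_pow (Computable.const 4) (c_sub Computable.id
      (Computable.const _)))
  exact c_mul hQ (c_pow (c_pow (Computable.const 2) c.ht) h1)

lemma c_PP {Q : ℕ → ℕ} (hQ : Computable Q) : Computable (PP c e Q) := by
  have h1 : Computable (fun n : ℕ => 2 * 4 ^ (n - (e + 1)) - 1) :=
    c_sub (c_mul (Computable.const 2) (c_pow (Computable.const 4) (c_sub Computable.id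
      (Computable.const _)))) (Computable.const 1)
  exact c_mul hQ (c_pow (c_pow (Computable.const 2) c.ht) h1)

lemma MM_pos {Q : ℕ → ℕ} (hQ : ∀ n, 1 ≤ Q n) (n : ℕ) : 1 ≤ MM c e Q n :=
  Nat.one_le_iff_ne_zero.2 (Nat.mul_ne_zero (by have := hQ n; omega) (by positivity))

lemma PP_pos {Q : ℕ → ℕ} (hQ : ∀ n, 1 ≤ Q n) (n : ℕ) : 1 ≤ PP c e Q n :=
  Nat.one_le_iff_ne_zero.2 (Nat.mul_ne_zero (by have := hQ n; omega) (by positivity))

lemma one_le_4 (m : ℕ) : 1 ≤ 4 ^ m := Nat.one_le_pow _ _ (by norm_num)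

lemma exp_split {n : ℕ} (hn : e + 1 ≤ n) : 4 ^ (n - e) = 4 * 4 ^ (n - (e + 1)) := by
  rw [← pow_succ']; congr 1; omega

lemma MM_bud (d : Cond c e) {n : ℕ} (hn : d.σ.length ≤ n) :
    MM c e d.Q n * (2 ^ c.t n) ^ (4 ^ (n - (e + 1))) ≤ d.P n := by
  refine le_trans ?_ (d.hbud n hn)
  rw [MM, mul_assoc, ← pow_add, exp_split (le_trans d.hle hn)]
  refine Nat.mul_le_mul_left _ (Nat.pow_le_pow_right (by positivity) ?_)
  omega

lemma PP_bud (d : Cond c e) (n : ℕ) :
    d.Q n * (2 ^ c.t n) ^ (4 ^ (n - (e + 1))) ≤ PP c e d.Q n := by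
  rw [PP]
  refine Nat.mul_le_mul_left _ (Nat.pow_le_pow_right (by positivity) ?_)
  have := one_le_4 (n - (e + 1))
  omega

lemma PP_le (d : Cond c e) {n : ℕ} (hn : d.σ.length ≤ n) : PP c e d.Q n ≤ d.P n := by
  refine le_trans ?_ (d.hbud n hn)
  rw [PP, exp_split (le_trans d.hle hn)]
  refine Nat.mul_le_mul_left _ (Nat.pow_le_pow_right (by positivity) ?_)
  omega

lemma PP_MM (d : Cond c e) (n : ℕ) : 2 ^ c.t n * PP c e d.Q n = MM c e d.Q n := by
  rw [PP, MM]
  have h1 := one_le_4 (n - (e + 1))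
  have h2 : 2 * 4 ^ (n - (e + 1)) = (2 * 4 ^ (n - (e + 1)) - 1) + 1 := by omega
  rw [mul_left_comm, ← pow_succ', ← h2]

def CN (p N : ℕ) : Set Str := {ρ | ∀ x < N, ρ ∈ Cx p x}

lemma big_CN (d : Cond c e) {p : ℕ}
    (hB : ∀ τ : Str, d.σ <+: τ → τ ≠ d.σ → d.T τ = true → ∀ x,
      Big d.T (MM c e d.Q) (d.B ∪ Cx p x) τ) {τ : Str} (h0 : d.σ <+: τ) (h1 : τ ≠ d.σ)
    (hT : d.T τ = true) (N : ℕ) : Big d.T (MM c e d.Q) (d.B ∪ CN p N) τ := by
  induction N with
  | zero => exact Big.here (Or.inr (fun x hx => absurd hx (Nat.not_lt_zero x)))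
  | succ N ih =>
    refine ih.bind List.prefix_rfl hT ?_
    intro ρ h2 h3 h4
    rcases h4 with h4 | h4
    · exact Big.here (Or.inl h4)
    · have h5 : ρ ≠ d.σ := by
        rintro rfl
        exact h1 (List.IsPrefix.eq_of_length h2 (le_antisymm h2.length_le h0.length_le))
      refine (hB ρ (h0.trans h2) h5 h3 N).mono List.prefix_rfl (fun _ h => h)
        (fun _ _ => le_rfl) ?_
      intro ρ' h6 h7
      rcases h7 with h7 | h7
      · exact Or.inl h7
      · right
        intro x hx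
        rcases Nat.lt_succ_iff_lt_or_eq.1 hx with h8 | h8
        · exact Cx_up h6 (h4 x h8)
        · subst h8; exact h7

lemma EE_up {p : ℕ} {τ : Str} {v : ℕ} {ρ ρ' : Str} (h : ρ <+: ρ') (h1 : EE c p τ v ρ = true) :
    EE c p τ v ρ' = true := by
  rw [EE_iff] at h1 ⊢
  intro x hx
  obtain ⟨y, h2, h3⟩ := h1 x hx
  exact ⟨y, gam_mono h h2, h3⟩

lemma hbig_aux (d : Cond c e) {p : ℕ} {f : Str → ℕ → Bool} (hf : Enum d.B f)
    (hB : ∀ τ : Str, d.σ <+: τ → τ ≠ d.σ → d.T τ = true → ∀ x,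
      Big d.T (MM c e d.Q) (d.B ∪ Cx p x) τ) {τ : Str} (h0 : d.σ <+: τ) (h1 : τ ≠ d.σ)
    (hT : d.T τ = true) :
    ∃ v, Big d.T (PP c e d.Q) {ρ | ρ ≠ τ ∧ ((∃ s, f ρ s = true) ∨ EE c p τ v ρ = true)} τ := by
  classical
  have h2 := big_CN d hB h0 h1 hT (c.t τ.length)
  obtain ⟨v, _, h3⟩ := h2.colors (p := PP c e d.Q) (N := 2 ^ c.t τ.length)
    (fun v => d.B ∪ {ρ | ∀ x < c.t τ.length, ∃ y, gam p ρ x = some y ∧
      (y ≠ 0 ↔ v / 2 ^ x % 2 = 1)}) (Nat.one_le_two_pow) List.prefix_rfl (by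
      intro n hn
      rw [← PP_MM]
      exact Nat.mul_le_mul_right _ (Nat.pow_le_pow_right (by norm_num) (c.htm hn))) (by
      intro ρ _ h4
      rcases h4 with h4 | h4
      · exact ⟨0, by positivity, Or.inl h4⟩
      · obtain ⟨v, hv, h5⟩ := pat_num (c.t τ.length) (fun x => decide (gam p ρ x ≠ some 0))
        refine ⟨v, hv, Or.inr (fun x hx => ?_)⟩
        have h6 := h4 x hx
        simp only [Cx, Set.mem_ofPred_eq, Option.isSome_iff_exists] at h6
        obtain ⟨y, hy⟩ := h6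
        refine ⟨y, hy, ?_⟩
        rw [h5 x hx, decide_eq_true_iff, hy]
        simp)
  obtain ⟨k, h4⟩ := h3.sup (D := fun k => d.B ∪ {ρ | EE c p τ (Nat.pair v k) ρ = true}) (by
      intro j k hjk ρ hρ
      rcases hρ with hρ | hρ
      · exact Or.inl hρ
      · right
        simp only [Set.mem_ofPred_eq, EE_iff, Nat.unpair_pair] at hρ ⊢
        intro x hx
        obtain ⟨y, h5, h6, h7⟩ := hρ x hx
        exact ⟨y, h5, h6.trans hjk, h7⟩) (by
      intro ρ hρ
      rcases hρ with hρ | hρ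
      · exact ⟨0, Or.inl hρ⟩
      · simp only [Set.mem_ofPred_eq] at hρ
        choose! y hy using hρ
        refine ⟨(Finset.range (c.t τ.length)).sup y, Or.inr ?_⟩
        simp only [Set.mem_ofPred_eq, EE_iff, Nat.unpair_pair]
        intro x hx
        exact ⟨y x, (hy x hx).1, Finset.le_sup (Finset.mem_range.2 hx), (hy x hx).2⟩)
  have h5 := h4.proper (b := c.b) (by
      intro i hi
      rcases hi with hi | hi
      · exact Or.inl (d.hBup _ _ h0 hi)
      · exact Or.inr (EE_up (List.prefix_append _ _) hi))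
    ((PP_le d h0.length_le).trans (d.hPb _ h0 hT))
  refine ⟨Nat.pair v k, h5.mono List.prefix_rfl (fun _ h => h) (fun _ _ => le_rfl) ?_⟩
  rintro ρ _ ⟨h6, h7⟩
  refine ⟨h6, ?_⟩
  rcases h7 with h7 | h7
  · left; exact (hf.2.2 ρ).1 h7
  · right; exact h7

/-- The main step. -/
theorem step (d : Cond c e) (p : ℕ) : ∃ d' : Cond c (e + 1), d.σ <+: d'.σ ∧
    (∀ ρ, d'.T ρ = true → d.T ρ = true) ∧ (∀ ρ, d'.σ <+: ρ → ρ ∈ d.B → ρ ∈ d'.B) ∧
    Out d' p := by
  classical
  by_cases hA : ∃ τ : Str, d.σ <+: τ ∧ τ ≠ d.σ ∧ d.T τ = true ∧ ∃ x,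
      ¬ Big d.T (MM c e d.Q) (d.B ∪ Cx p x) τ
  · obtain ⟨τ, h0, h1, hT, x, hx⟩ := hA
    have hlen : d.σ.length < τ.length := by
      rcases lt_or_eq_of_le h0.length_le with h | h
      · exact h
      · exact absurd (List.IsPrefix.eq_of_length h0 h).symm h1
    refine ⟨{ σ := τ, T := d.T, P := d.P, Q := MM c e d.Q,
              B := clo d.T (MM c e d.Q) (d.B ∪ Cx p x) τ,
              hT := d.hT, hTb := d.hTb, hTσ := hT,
              hTp := fun ρ i h => d.hTp ρ i (h0.trans h),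
              hPb := fun ρ h => d.hPb ρ (h0.trans h),
              hB := clo_CE d.hT (c_MM d.hQ) c.hb (MM_pos d.hQ1) d.hTb' (CE_union d.hB p x),
              hBup := fun ρ i _ h => clo_up h,
              hBcl := fun ρ h _ h' => clo_closed h h',
              hσB := fun h => hx (clo_root h),
              hQ := c_MM d.hQ, hQ1 := MM_pos d.hQ1,
              hbud := fun n hn => MM_bud d (h0.length_le.trans hn),
              hle := lt_of_le_of_lt d.hle hlen }, h0, fun ρ h => h, ?_, ?_⟩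
    · intro ρ h2 h3
      exact clo_sub h2 (Or.inl h3)
    · left
      refine ⟨x, fun a ha n => ?_⟩
      have h2 := ha.2 (max n τ.length) (le_max_right _ _)
      by_contra hcon
      apply h2
      refine clo_sub (ha.1.pfx (le_max_right _ _)) (Or.inr ?_)
      refine Cx_up (pre_prefix a (le_max_left n τ.length)) ?_
      simp only [Cx, Set.mem_ofPred_eq]
      rw [← Option.ne_none_iff_isSome]
      exact hcon
  · push Not at hA
    obtain ⟨i, hi1, hi2⟩ := d.ext1
    obtain ⟨f, hf⟩ := d.hB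
    have h0 : d.σ <+: d.σ ++ [i] := List.prefix_append _ _
    have hne : ∀ τ : Str, d.σ ++ [i] <+: τ → τ ≠ d.σ := by
      rintro τ h rfl
      have := h.length_le
      simp at this
    let g : GD :=
      { b := c.b
        p := PP c e d.Q
        T := d.T
        σ := d.σ ++ [i]
        f := f
        E := EE c p
        hb := c.hb
        hp := c_PP d.hQ
        hp1 := PP_pos d.hQ1
        hT := d.hT
        hTb := d.hTb'
        hTσ := hi1
        hf := hf.1
        hfm := hf.2.1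
        hE := c_EE c p
        hbig := fun τ h1 h2 => hbig_aux d hf hA (h0.trans h1) (hne τ h1) h2 }
    have hl1 : (e + 1) + 1 ≤ (d.σ ++ [i]).length := by
      have := d.hle
      simp
      omega
    refine ⟨{ σ := d.σ ++ [i], T := g.T', P := PP c e d.Q, Q := d.Q, B := d.B,
              hT := g.c_T', hTb := fun ρ h => d.hTb ρ (g.T'_T h), hTσ := g.T'_root,
              hTp := fun ρ i h h' => g.T'_pfx h h',
              hPb := fun ρ _ h => g.T'_bushy h,
              hB := d.hB,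
              hBup := fun ρ i h => d.hBup ρ i (h0.trans h),
              hBcl := fun ρ h h' h'' => d.hBcl ρ (h0.trans h) (g.T'_T h')
                (h''.mono List.prefix_rfl (fun _ h => g.T'_T h) (fun _ _ => le_rfl)
                  (fun _ _ h => h)),
              hσB := hi2,
              hQ := d.hQ, hQ1 := d.hQ1,
              hbud := fun n _ => PP_bud d n,
              hle := hl1 }, h0, fun ρ h => g.T'_T h,
              fun ρ _ h => h, ?_⟩
    right
    have hres : ∀ a, GD.Pth g.T' g.σ a → (∀ n, g.σ.length ≤ n → pre a n ∉ d.B) →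
        ∀ m, g.isb (pre a m) = true → ∃ n, EE c p (pre a m) (g.vc (pre a m)) (pre a n) = true := by
      intro a h1 h2 m hm
      refine g.respect h1 (fun n hn s => ?_) hm
      by_contra hcon
      rw [Bool.not_eq_false] at hcon
      exact h2 n hn ((hf.2.2 _).2 ⟨s, hcon⟩)
    constructor
    · obtain ⟨G, hG, h1⟩ := g.bound (val := fun v => v.unpair.2) (c_unr Computable.id)
      refine ⟨G, hG, fun a ha x => ?_⟩
      obtain ⟨m, h2, h3, h4⟩ := h1 a ha.1 x
      obtain ⟨n, h5⟩ := hres a ha.1 ha.2 m h3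
      rw [EE_iff, pre_length] at h5
      obtain ⟨y, h6, h7, _⟩ := h5 x (lt_of_le_of_lt h2 (c.htl m))
      exact ⟨n, y, h6, h7.trans h4⟩
    · refine ⟨tV c g, tV_test c g d.hTb, fun a ha X hX k => ?_⟩
      obtain ⟨m, h2, h3⟩ := g.bases ha.1 k
      obtain ⟨n, h5⟩ := hres a ha.1 ha.2 m h3
      rw [EE_iff, pre_length] at h5
      refine ⟨c.t m, pre a m, h3, by simpa using h2, ?_⟩
      rw [ofFn_eq_pat, pre_length]
      refine ⟨rfl, fun x hx => ?_⟩
      obtain ⟨y, h6, _, h7⟩ := h5 x hx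
      rw [hX x n y h6]
      exact decide_eq_decide.2 h7

end Pool.Agent.H166R3.AT
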