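import Pool.Agent.H166R3.AT.FC

set_option autoImplicit false

/-! The test attached to a thinned tree. -/

namespace Pool.Agent.H166R3.AT

open Encodable MeasureTheory
open scoped ENNReal
open Pool.Agent.Helper743 (pre pre_length pre_succ pre_prefix)
open Pool.Agent.H715R3.Disp (gam gam_mono gam_primrec mu cyl_measure)

lemma pat_primrec : Primrec (fun q : ℕ × ℕ => pat q.1 q.2) := by
  refine Primrec.list_map (Primrec.list_range.comp Primrec.fst) ?_
  have h1 : Primrec (fun z : (ℕ × ℕ) × ℕ => z.1.2 / 2 ^ z.2 % 2) :=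
    Primrec.nat_mod.comp (Primrec.nat_div.comp (Primrec.snd.comp Primrec.fst)
      (pow_primrec'.comp (Primrec.const 2) Primrec.snd)) (Primrec.const 2)
  exact (Primrec.eq.comp h1 (Primrec.const 1)).decide

@[simp] lemma pat_length (n v : ℕ) : (pat n v).length = n := by simp [pat]

lemma ofFn_eq_pat {X : ℕ → Bool} {n m v : ℕ} : List.ofFn (fun i : Fin n => X i) = pat m v ↔
    n = m ∧ ∀ x < m, X x = decide (v / 2 ^ x % 2 = 1) := by
  constructor
  · intro h
    have h1 : n = m := by
      have := congrArg List.length h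
      simpa using this
    subst h1
    refine ⟨rfl, fun x hx => ?_⟩
    have h2 := congrArg (fun l => l[x]?) h
    simp only [pat, List.getElem?_map, List.getElem?_ofFn, hx] at h2
    simpa [hx] using h2
  · rintro ⟨rfl, h⟩
    apply List.ext_getElem
    · simp
    · intro i h1 h2
      simp only [pat, List.getElem_ofFn, List.getElem_map, List.getElem_range]
      exact h i (by simpa using h1)

/-- bounded strings of a given length -/
def Lev (b : ℕ → ℕ) (l : ℕ) : Finset Str :=
  (Fintype.piFinset (fun j : Fin l => Finset.range (b j))).image (fun f => List.ofFn f)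

lemma Lev_card (b : ℕ → ℕ) (l : ℕ) : (Lev b l).card ≤ ∏ j ∈ Finset.range l, b j := by
  refine Finset.card_image_le.trans ?_
  rw [Fintype.card_piFinset, Finset.prod_range]
  simp

lemma mem_Lev {b : ℕ → ℕ} {τ : Str} (h : ∀ i (hi : i < τ.length), τ[i] < b i) :
    τ ∈ Lev b τ.length := by
  rw [Lev, Finset.mem_image]
  refine ⟨fun j => τ[j], ?_, by simp⟩
  rw [Fintype.mem_piFinset]
  intro j
  rw [Finset.mem_range]
  exact h j j.2

variable (c : Ctx) (g : GD)

def tS (k : ℕ) : Set (List Bool) :=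
  {w | ∃ τ : Str, g.isb τ = true ∧ k ≤ τ.length ∧ w = pat (c.t τ.length) (g.vc τ).unpair.1}

def tV (k : ℕ) : Set (ℕ → Bool) := {X | ∃ n, List.ofFn (fun i : Fin n => X i) ∈ tS c g k}

lemma tS_re : REPred (fun q : ℕ × List Bool => q.2 ∈ tS c g q.1) := by
  have h1 : Computable (fun z : (ℕ × List Bool) × Str =>
      pat (c.t z.2.length) (g.vc z.2).unpair.1) := by
    have h2 : Computable (fun z : (ℕ × List Bool) × Str =>
        (c.t z.2.length, (g.vc z.2).unpair.1)) :=
      (c.ht.comp (Computable.list_length.comp Computable.snd)).pair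
        (c_unl (g.c_vc.comp Computable.snd))
    exact cmp pat_primrec.to_comp h2 (fun _ => rfl)
  have h3 : Computable₂ (fun (q : ℕ × List Bool) (τ : Str) => g.isb τ &&
      (decide (q.1 ≤ τ.length) && decide (q.2 = pat (c.t τ.length) (g.vc τ).unpair.1))) := by
    have h4 : Computable (fun z : (ℕ × List Bool) × Str => g.isb z.2) :=
      g.c_isb.comp Computable.snd
    have h5 : Computable (fun z : (ℕ × List Bool) × Str => decide (z.1.1 ≤ z.2.length)) :=
      c_le (Computable.fst.comp Computable.fst) (Computable.list_length.comp Computable.snd)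
    have h6 : Computable (fun z : (ℕ × List Bool) × Str => decide (z.1.2 =
        pat (c.t z.2.length) (g.vc z.2).unpair.1)) :=
      c_eq (Computable.snd.comp Computable.fst) h1
    have := c_and h4 (c_and h5 h6)
    exact this
  have h7 : Computable₂ (fun (q : ℕ × List Bool) (n : ℕ) =>
      ((decode n : Option Str).map (fun τ => g.isb τ &&
      (decide (q.1 ≤ τ.length) && decide (q.2 = pat (c.t τ.length) (g.vc τ).unpair.1)))).getD
        false) := by
    have h8 : Computable₂ (fun (q : (ℕ × List Bool) × ℕ) (τ : Str) => g.isb τ &&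
      (decide (q.1.1 ≤ τ.length) && decide (q.1.2 = pat (c.t τ.length) (g.vc τ).unpair.1))) := by
      have h9 : Computable (fun z : ((ℕ × List Bool) × ℕ) × Str => (z.1.1, z.2)) :=
        (Computable.fst.comp Computable.fst).pair Computable.snd
      exact cmp h3 h9 (fun _ => rfl)
    exact Computable.option_getD (Computable.option_map (Computable.decode.comp Computable.snd)
      h8) (Computable.const false)
  have h10 := (Partrec.rfind h7.partrec₂).dom_re
  refine h10.of_eq (fun q => ?_)
  rw [Nat.rfind_dom']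
  constructor
  · rintro ⟨n, hn, _⟩
    simp only [PFun.coe_val, Part.mem_some_iff] at hn
    cases hd : (decode n : Option Str) with
    | none => rw [hd] at hn; simp at hn
    | some τ =>
      rw [hd] at hn
      simp only [Option.map_some, Option.getD_some] at hn
      have hn' := hn.symm
      simp only [Bool.and_eq_true, decide_eq_true_iff] at hn'
      exact ⟨τ, hn'⟩
  · rintro ⟨τ, h1, h2, h3⟩
    refine ⟨encode τ, ?_, fun _ => trivial⟩
    simp only [PFun.coe_val, Part.mem_some_iff, encodek, Option.map_some, Option.getD_some]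
    symm
    simp only [Bool.and_eq_true, decide_eq_true_iff]
    exact ⟨h1, h2, h3⟩

/-- the test is a Martin-Löf test -/
theorem tV_test (hTb : ∀ ρ, g.T ρ = true → ∀ i (h : i < ρ.length), ρ[i] < c.b i) :
    IsMLTest (tV c g) := by
  refine ⟨⟨tS c g, tS_re c g, fun k => rfl⟩, fun k => ?_⟩
  have h1 : tV c g k ⊆ ⋃ j : ℕ, ⋃ τ ∈ Lev c.b (k + j), {X : ℕ → Bool | ∀ x < c.t (k + j),
      X x = decide ((g.vc τ).unpair.1 / 2 ^ x % 2 = 1)} := by
    rintro X ⟨n, τ, h2, h3, h4⟩
    rw [ofFn_eq_pat] at h4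
    rw [Set.mem_iUnion]
    obtain ⟨j, hj⟩ := Nat.exists_eq_add_of_le h3
    refine ⟨j, ?_⟩
    rw [Set.mem_iUnion₂]
    refine ⟨τ, ?_, ?_⟩
    · rw [← hj]
      exact mem_Lev (hTb τ (g.T'_T (g.isb_T' h2)))
    · rw [← hj]; exact h4.2
  refine (measure_mono h1).trans ((measure_iUnion_le _).trans ?_)
  have h2 : ∀ j : ℕ, mu (⋃ τ ∈ Lev c.b (k + j), {X : ℕ → Bool | ∀ x < c.t (k + j),
      X x = decide ((g.vc τ).unpair.1 / 2 ^ x % 2 = 1)}) ≤ (2⁻¹ : ℝ≥0∞) ^ k *
        ((2⁻¹ : ℝ≥0∞) ^ (j + 1)) := by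
    intro j
    refine (measure_biUnion_finset_le _ _).trans ?_
    have h3 : ∀ τ ∈ Lev c.b (k + j), mu {X : ℕ → Bool | ∀ x < c.t (k + j),
        X x = decide ((g.vc τ).unpair.1 / 2 ^ x % 2 = 1)} = (2⁻¹ : ℝ≥0∞) ^ (c.t (k + j)) :=
      fun τ _ => cyl_measure (fun x => decide ((g.vc τ).unpair.1 / 2 ^ x % 2 = 1)) _
    rw [Finset.sum_congr rfl h3, Finset.sum_const, nsmul_eq_mul, ← pow_add]
    have h4 : (Lev c.b (k + j)).card * 2 ^ (k + (j + 1)) ≤ 2 ^ c.t (k + j) := by
      refine le_trans ?_ (c.htb (k + j))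
      rw [← Nat.add_assoc]
      exact Nat.mul_le_mul_right _ (Lev_card _ _)
    have h5 : ((Lev c.b (k + j)).card : ℝ≥0∞) * 2 ^ (k + (j + 1)) ≤ 2 ^ c.t (k + j) := by
      exact_mod_cast h4
    rw [← ENNReal.inv_pow, ← ENNReal.inv_pow]
    rw [← div_eq_mul_inv, ENNReal.div_le_iff (by positivity) (by simp)]
    rw [mul_comm, ← div_eq_mul_inv, ENNReal.le_div_iff_mul_le (by simp) (by simp)]
    exact h5
  refine (ENNReal.tsum_le_tsum h2).trans ?_
  rw [ENNReal.tsum_mul_left, ENNReal.tsum_geometric_add_one, ENNReal.one_sub_inv_two, inv_inv]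
  rw [ENNReal.inv_mul_cancel (by norm_num) (by norm_num), mul_one]

end Pool.Agent.H166R3.AT
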