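import Pool.Agent.H166R3.AT.BG
import Pool.Agent.H715R3.D1

set_option autoImplicit false

/-! Thinning a bushy tree by a computable search. -/

namespace Pool.Agent.H166R3.AT

open Encodable
open Pool.Agent.Helper743 (pre pre_length pre_succ pre_prefix)

lemma chain_mono {s : ℕ → Str} (h : ∀ k, s k <+: s (k + 1)) {j k : ℕ} (hjk : j ≤ k) :
    s j <+: s k := by
  induction hjk with
  | refl => exact List.prefix_rfl
  | step _ ih => exact ih.trans (h _)

/-- the limit of a chain of strings -/
lemma chain_limit {s : ℕ → Str} (h : ∀ k, s k <+: s (k + 1)) (hl : ∀ k, k ≤ (s k).length) :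
    ∃ a : ℕ → ℕ, ∀ k, pre a (s k).length = s k := by
  refine ⟨fun n => (s (n + 1)).getD n 0, fun k => ?_⟩
  apply List.ext_getElem
  · simp
  · intro i h1 h2
    have h3 : (pre (fun n => (s (n + 1)).getD n 0) (s k).length)[i] = (s (i + 1)).getD i 0 := by
      simp [pre]
    rw [h3]
    have h4 : i < (s (i + 1)).length := lt_of_lt_of_le (Nat.lt_succ_self i) (hl (i + 1))
    rw [List.getD_eq_getElem _ _ h4]
    rcases le_total k (i + 1) with h5 | h5
    · exact ((chain_mono h h5).getElem h2).symm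
    · exact (chain_mono h h5).getElem h4

/-- building a path -/
lemma path_exists {R : Str → Prop} {σ : Str} (h0 : R σ)
    (h : ∀ ρ, σ <+: ρ → R ρ → ∃ i, R (ρ ++ [i])) :
    ∃ a : ℕ → ℕ, pre a σ.length = σ ∧ ∀ n, σ.length ≤ n → R (pre a n) := by
  classical
  choose! nx hnx using h
  let s : ℕ → Str := fun k => Nat.rec σ (fun _ ρ => ρ ++ [nx ρ]) k
  have s0 : s 0 = σ := rfl
  have s1 : ∀ k, s (k + 1) = s k ++ [nx (s k)] := fun k => rfl
  have hch : ∀ k, s k <+: s (k + 1) := fun k => by rw [s1]; exact List.prefix_append _ _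
  have hlen : ∀ k, (s k).length = σ.length + k := by
    intro k
    induction k with
    | zero => simp [s0]
    | succ k ih => rw [s1, List.length_append, ih]; simp; omega
  have hpre : ∀ k, σ <+: s k := fun k => chain_mono hch (Nat.zero_le k)
  have hR : ∀ k, R (s k) := by
    intro k
    induction k with
    | zero => exact h0
    | succ k ih => rw [s1]; exact hnx _ (hpre k) ih
  obtain ⟨a, ha⟩ := chain_limit hch (fun k => by rw [hlen]; omega)
  refine ⟨a, ha 0, fun n hn => ?_⟩
  obtain ⟨k, rfl⟩ := Nat.exists_eq_add_of_le hn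
  have := ha k
  rw [hlen] at this
  rw [this]
  exact hR k

/-- the data of the thinning process -/
structure GD where
  b : ℕ → ℕ
  p : ℕ → ℕ
  T : Str → Bool
  σ : Str
  f : Str → ℕ → Bool
  E : Str → ℕ → Str → Bool
  hb : Computable b
  hp : Computable p
  hp1 : ∀ n, 1 ≤ p n
  hT : Computable T
  hTb : ∀ ρ i, T (ρ ++ [i]) = true → i < b ρ.length
  hTσ : T σ = true
  hf : Computable₂ f
  hfm : ∀ ρ s t, s ≤ t → f ρ s = true → f ρ t = true
  hE : Computable (fun q : (Str × ℕ) × Str => E q.1.1 q.1.2 q.2)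
  hbig : ∀ τ, σ <+: τ → T τ = true →
    ∃ v, Big T p {ρ | ρ ≠ τ ∧ ((∃ s, f ρ s = true) ∨ E τ v ρ = true)} τ

namespace GD

variable (g : GD)

/-- leaves of the finite tree above `τ` with colour `v`, at stage `s` -/
def lf (τ : Str) (v s : ℕ) (ρ : Str) : Bool := g.f ρ s || g.E τ v ρ

/-- certificates -/
abbrev CTy := List Str × (ℕ × ℕ)

def chk (τ : Str) (c : CTy) : Bool :=
  mem τ c.1 && BOK g.T g.p g.b (fun ρ => decide (ρ ≠ τ) && g.lf τ c.2.1 c.2.2 ρ) c.1

lemma c_lf : Computable (fun q : (Str × (ℕ × ℕ)) × Str => g.lf q.1.1 q.1.2.1 q.1.2.2 q.2) := by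
  have h1 : Computable (fun q : (Str × (ℕ × ℕ)) × Str => g.f q.2 q.1.2.2) :=
    g.hf.comp Computable.snd (Computable.snd.comp (Computable.snd.comp Computable.fst))
  have h2 : Computable (fun q : (Str × (ℕ × ℕ)) × Str => ((q.1.1, q.1.2.1), q.2)) :=
    ((Computable.fst.comp Computable.fst).pair
    (Computable.fst.comp (Computable.snd.comp Computable.fst))).pair Computable.snd
  have h3 : Computable (fun q : (Str × (ℕ × ℕ)) × Str => g.E q.1.1 q.1.2.1 q.2) :=
    cmp g.hE h2 (fun _ => rfl)
  have h4 := c_or h1 h3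
  exact h4

lemma c_chk : Computable (fun q : Str × CTy => g.chk q.1 q.2) := by
  have a1 : Computable (fun q : Str × CTy => q.2.1) := Computable.fst.comp Computable.snd
  have b1 : Computable (fun z : (Str × CTy) × Str => decide (z.2 ≠ z.1.1)) := by
    have h1 : Computable (fun z : (Str × CTy) × Str => !(decide (z.2 = z.1.1))) :=
      c_not (c_eq (Computable.snd) (Computable.fst.comp Computable.fst))
    refine h1.of_eq (fun q => ?_)
    by_cases h : q.2 = q.1.1 <;> simp [h]
  have h2 : Computable (fun z : (Str × CTy) × Str => ((z.1.1, z.1.2.2), z.2)) :=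
    ((Computable.fst.comp Computable.fst).pair
      (Computable.snd.comp (Computable.snd.comp Computable.fst))).pair Computable.snd
  have b2 : Computable (fun z : (Str × CTy) × Str => g.lf z.1.1 z.1.2.2.1 z.1.2.2.2 z.2) :=
    cmp g.c_lf h2 (fun _ => rfl)
  have b3 : Computable₂ (fun (q : Str × CTy) (ρ : Str) =>
      decide (ρ ≠ q.1) && g.lf q.1 q.2.2.1 q.2.2.2 ρ) := by
    have := c_and b1 b2
    exact this
  have b4 := c_BOK g.hT g.hp g.hb b3 a1
  have b5 : Computable (fun q : Str × CTy => mem q.1 q.2.1) := c_mem Computable.fst a1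
  have b6 := c_and b5 b4
  exact b6

/-- the searched predicate -/
def sr (τ : Str) (n : ℕ) : Bool :=
  !(decide (τ.take g.σ.length = g.σ) && g.T τ) ||
    ((decode n : Option CTy).map (g.chk τ)).getD false

lemma c_sr : Computable₂ g.sr := by
  have h1 : Computable (fun q : Str × ℕ => !(decide (q.1.take g.σ.length = g.σ) && g.T q.1)) :=
    c_not (c_and (c_eq (c_take (Computable.const _) Computable.fst)
    (Computable.const _)) (g.hT.comp Computable.fst))
  have h4' : Computable (fun q : (Str × ℕ) × CTy => (q.1.1, q.2)) :=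
      (Computable.fst.comp Computable.fst).pair Computable.snd
  have h4 : Computable₂ (fun (q : Str × ℕ) (c : CTy) => g.chk q.1 c) :=
    cmp g.c_chk h4' (fun _ => rfl)
  have h3 : Computable (fun q : Str × ℕ => (decode q.2 : Option CTy).map (g.chk q.1)) :=
    Computable.option_map (Computable.decode.comp Computable.snd) h4
  have h2 : Computable (fun q : Str × ℕ =>
      ((decode q.2 : Option CTy).map (g.chk q.1)).getD false) :=
    Computable.option_getD h3 (Computable.const false)
  have h5 := c_or h1 h2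
  exact h5

lemma sr_ex (τ : Str) : ∃ n, g.sr τ n = true := by
  by_cases h : τ.take g.σ.length = g.σ ∧ g.T τ = true
  · obtain ⟨v, hv⟩ := g.hbig τ (List.prefix_iff_eq_take.2 h.1.symm) h.2
    obtain ⟨D, s, h1, h2, h3⟩ := BOK_of_big g.hTb hv
      (fun ρ s => decide (ρ ≠ τ) && g.lf τ v s ρ) (by
        intro ρ s t hst h4
        simp only [lf, Bool.and_eq_true, Bool.or_eq_true] at h4 ⊢
        refine ⟨h4.1, h4.2.imp (g.hfm _ _ _ hst) id⟩) (by
        rintro ρ ⟨h4, h5⟩
        rcases h5 with ⟨s, h5⟩ | h5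
        · exact ⟨s, by simp [lf, h4, h5]⟩
        · exact ⟨0, by simp [lf, h4, h5]⟩)
    refine ⟨encode ((D, (v, s)) : CTy), ?_⟩
    simp only [sr, encodek, Option.map_some, Option.getD_some, Bool.or_eq_true]
    right
    simp only [chk, Bool.and_eq_true, mem_iff]
    exact ⟨h1, h3⟩
  · refine ⟨0, ?_⟩
    simp only [sr, Bool.or_eq_true, Bool.not_eq_true']
    left
    by_contra hcon
    rw [Bool.not_eq_false, Bool.and_eq_true, decide_eq_true_iff] at hcon
    exact h hcon

/-- the certificate of `τ` -/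
def ct (τ : Str) : CTy := ((decode (Nat.find (g.sr_ex τ)) : Option CTy)).getD ([], (0, 0))

lemma c_ct : Computable g.ct :=
  Computable.option_getD (Computable.decode.comp (c_find g.c_sr g.sr_ex)) (Computable.const _)

lemma ct_spec {τ : Str} (h0 : g.σ <+: τ) (hT : g.T τ = true) : g.chk τ (g.ct τ) = true := by
  have h1 : g.sr τ (Nat.find (g.sr_ex τ)) = true := Nat.find_spec (g.sr_ex τ)
  have h2 : τ.take g.σ.length = g.σ := (List.prefix_iff_eq_take.1 h0).symm
  unfold ct
  generalize Nat.find (g.sr_ex τ) = n at h1 ⊢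
  unfold sr at h1
  simp only [h2, hT, decide_true, Bool.and_self, Bool.not_true, Bool.false_or] at h1
  cases hd : (decode n : Option CTy) with
  | none => rw [hd] at h1; simp at h1
  | some c => rw [hd] at h1; simpa using h1

/-- is `ρ` a leaf for the base `τ` -/
def isl (τ ρ : Str) : Bool := g.lf τ (g.ct τ).2.1 (g.ct τ).2.2 ρ

/-- one step of the process -/
def stp (τ ρ : Str) : Option Str :=
  if (mem ρ (g.ct τ).1 && g.T ρ) = true then (if g.isl τ ρ = true then some ρ else some τ)
  else none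

lemma c_isl : Computable (fun q : Str × Str => g.isl q.1 q.2) := by
  have h1 : Computable (fun q : Str × Str => ((q.1, (g.ct q.1).2), q.2)) :=
    (Computable.fst.pair (Computable.snd.comp (g.c_ct.comp Computable.fst))).pair Computable.snd
  exact cmp g.c_lf h1 (fun _ => rfl)

lemma c_stp : Computable (fun q : Str × Str => g.stp q.1 q.2) := by
  have h0 : Computable (fun q : Str × Str => (g.ct q.1).1) :=
    Computable.fst.comp (g.c_ct.comp Computable.fst)
  have h1 : Computable (fun q : Str × Str => mem q.2 (g.ct q.1).1 && g.T q.2) :=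
    c_and (c_mem Computable.snd h0) (g.hT.comp Computable.snd)
  have h2 : Computable (fun q : Str × Str => if g.isl q.1 q.2 = true then some q.2 else some q.1) :=
    c_ite g.c_isl (Computable.option_some.comp Computable.snd)
      (Computable.option_some.comp Computable.fst)
  have h3 := c_ite h1 h2 (Computable.const (none : Option Str))
  exact h3

def FF (ρ : Str) (k : ℕ) : Option Str :=
  Nat.rec (some g.σ) (fun k acc => acc.bind (fun τ => g.stp τ (ρ.take (g.σ.length + k + 1)))) k

lemma c_FF : Computable₂ g.FF := by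
  have h := Computable.nat_rec (f := fun q : Str × ℕ => q.2) (g := fun _ => (some g.σ : Option Str))
    (h := fun (q : Str × ℕ) (z : ℕ × Option Str) =>
      z.2.bind (fun τ => g.stp τ (q.1.take (g.σ.length + z.1 + 1))))
    Computable.snd (Computable.const _) (by
      have h1 : Computable (fun w : ((Str × ℕ) × (ℕ × Option Str)) × Str =>
          (w.2, w.1.1.1.take (g.σ.length + w.1.2.1 + 1))) := by
        refine Computable.snd.pair (c_take ?_ (Computable.fst.comp
          (Computable.fst.comp Computable.fst)))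
        exact Computable.succ.comp (c_add (Computable.const _)
          (Computable.fst.comp (Computable.snd.comp Computable.fst)))
      have h2 : Computable₂ (fun (w : (Str × ℕ) × (ℕ × Option Str)) (τ : Str) =>
          g.stp τ (w.1.1.take (g.σ.length + w.2.1 + 1))) := cmp g.c_stp h1 (fun _ => rfl)
      exact Computable.option_bind (Computable.snd.comp Computable.snd) h2)
  exact h

/-- the current base of a string -/
def bs (ρ : Str) : Option Str := g.FF ρ (ρ.length - g.σ.length)

lemma c_bs : Computable g.bs :=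
  g.c_FF.comp Computable.id (c_sub Computable.list_length (Computable.const _))

lemma bs_root : g.bs g.σ = some g.σ := by
  unfold bs
  rw [Nat.sub_self]
  rfl

lemma FF_congr {ρ ρ' : Str} (k : ℕ) (h : ∀ j, j ≤ g.σ.length + k → ρ.take j = ρ'.take j) :
    g.FF ρ k = g.FF ρ' k := by
  induction k with
  | zero => rfl
  | succ k ih =>
    have h1 := ih (fun j hj => h j (by omega))
    show (g.FF ρ k).bind (fun τ => g.stp τ (ρ.take (g.σ.length + k + 1))) =
      (g.FF ρ' k).bind (fun τ => g.stp τ (ρ'.take (g.σ.length + k + 1)))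
    rw [h1, h (g.σ.length + k + 1) (by omega)]

lemma bs_succ {ρ : Str} (h : g.σ <+: ρ) (i : ℕ) :
    g.bs (ρ ++ [i]) = (g.bs ρ).bind (fun τ => g.stp τ (ρ ++ [i])) := by
  have hl := h.length_le
  have h1 : (ρ ++ [i]).length - g.σ.length = (ρ.length - g.σ.length) + 1 := by
    rw [List.length_append]; simp; omega
  unfold bs
  rw [h1]
  show (g.FF (ρ ++ [i]) (ρ.length - g.σ.length)).bind (fun τ => g.stp τ
    ((ρ ++ [i]).take (g.σ.length + (ρ.length - g.σ.length) + 1))) = _
  have h2 : g.FF (ρ ++ [i]) (ρ.length - g.σ.length) = g.FF ρ (ρ.length - g.σ.length) := by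
    apply g.FF_congr
    intro j hj
    exact List.take_append_of_le_length (by omega)
  rw [h2]
  have h3 : (ρ ++ [i]).take (g.σ.length + (ρ.length - g.σ.length) + 1) = ρ ++ [i] := by
    apply List.take_of_length_le
    rw [List.length_append]; simp; omega
  rw [h3]

/-- the thinned tree -/
def T' (ρ : Str) : Bool := decide (ρ.take g.σ.length = g.σ) && (g.bs ρ).isSome

lemma c_isSome {α β : Type*} [Primcodable α] [Primcodable β] {f : α → Option β}
    (hf : Computable f) : Computable (fun a => (f a).isSome) :=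
  (Primrec.option_isSome.to_comp).comp hf

lemma c_T' : Computable g.T' :=
  c_and (c_eq (c_take (Computable.const _) Computable.id) (Computable.const _))
    (c_isSome g.c_bs)

lemma T'_iff {ρ : Str} : g.T' ρ = true ↔ g.σ <+: ρ ∧ ∃ τ, g.bs ρ = some τ := by
  rw [T', Bool.and_eq_true, decide_eq_true_iff, Option.isSome_iff_exists]
  constructor
  · rintro ⟨h1, h2⟩; exact ⟨List.prefix_iff_eq_take.2 h1.symm, h2⟩
  · rintro ⟨h1, h2⟩; exact ⟨(List.prefix_iff_eq_take.1 h1).symm, h2⟩

/-- is `ρ` a base -/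
def isb (ρ : Str) : Bool := decide (ρ.take g.σ.length = g.σ) && decide (g.bs ρ = some ρ)

lemma c_isb : Computable g.isb :=
  c_and (c_eq (c_take (Computable.const _) Computable.id) (Computable.const _))
    (c_eq g.c_bs (Computable.option_some.comp Computable.id))

lemma isb_iff {ρ : Str} : g.isb ρ = true ↔ g.σ <+: ρ ∧ g.bs ρ = some ρ := by
  rw [isb, Bool.and_eq_true, decide_eq_true_iff, decide_eq_true_iff]
  constructor
  · rintro ⟨h1, h2⟩; exact ⟨List.prefix_iff_eq_take.2 h1.symm, h2⟩
  · rintro ⟨h1, h2⟩; exact ⟨(List.prefix_iff_eq_take.1 h1).symm, h2⟩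

lemma isb_T' {ρ : Str} (h : g.isb ρ = true) : g.T' ρ = true := by
  rw [isb_iff] at h
  rw [T'_iff]
  exact ⟨h.1, _, h.2⟩

lemma ind {P : Str → Prop} (h0 : P g.σ) (h : ∀ ρ i, g.σ <+: ρ → P ρ → P (ρ ++ [i])) {ρ : Str}
    (hρ : g.σ <+: ρ) : P ρ := by
  obtain ⟨l, rfl⟩ := hρ
  induction l using List.reverseRecOn with
  | nil => simpa using h0
  | append_singleton l i ih =>
    rw [← List.append_assoc]
    exact h _ _ (List.prefix_append _ _) ih

lemma stp_some {τ ρ τ' : Str} (h : g.stp τ ρ = some τ') :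
    ρ ∈ (g.ct τ).1 ∧ g.T ρ = true ∧
      ((g.isl τ ρ = true ∧ τ' = ρ) ∨ (g.isl τ ρ = false ∧ τ' = τ)) := by
  unfold stp at h
  split_ifs at h with h1 h2
  · rw [Bool.and_eq_true, mem_iff] at h1
    exact ⟨h1.1, h1.2, Or.inl ⟨h2, by simpa using h.symm⟩⟩
  · rw [Bool.and_eq_true, mem_iff] at h1
    exact ⟨h1.1, h1.2, Or.inr ⟨by simpa using h2, by simpa using h.symm⟩⟩

lemma inv {ρ : Str} (hρ : g.σ <+: ρ) : ∀ τ, g.bs ρ = some τ →
    g.σ <+: τ ∧ τ <+: ρ ∧ g.T ρ = true ∧ g.T τ = true ∧ g.bs τ = some τ ∧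
      ρ ∈ (g.ct τ).1 ∧ (ρ = τ ∨ g.isl τ ρ = false) := by
  have hmem : ∀ τ, g.σ <+: τ → g.T τ = true → τ ∈ (g.ct τ).1 := by
    intro τ h1 h2
    have := g.ct_spec h1 h2
    rw [chk, Bool.and_eq_true, mem_iff] at this
    exact this.1
  refine g.ind (P := fun ρ => ∀ τ, g.bs ρ = some τ →
    g.σ <+: τ ∧ τ <+: ρ ∧ g.T ρ = true ∧ g.T τ = true ∧ g.bs τ = some τ ∧
      ρ ∈ (g.ct τ).1 ∧ (ρ = τ ∨ g.isl τ ρ = false)) ?_ ?_ hρ
  · intro τ h
    rw [g.bs_root] at h
    have h1 : τ = g.σ := by simpa using h.symm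
    subst h1
    exact ⟨List.prefix_rfl, List.prefix_rfl, g.hTσ, g.hTσ, g.bs_root,
      hmem _ List.prefix_rfl g.hTσ, Or.inl rfl⟩
  · intro ρ i h0 ih τ' h
    have hbs := h
    rw [g.bs_succ h0, Option.bind_eq_some_iff] at h
    obtain ⟨τ, h1, h2⟩ := h
    obtain ⟨i1, i2, i3, i4, i5, i6, i7⟩ := ih τ h1
    obtain ⟨j1, j2, j3⟩ := g.stp_some h2
    rcases j3 with ⟨j3, rfl⟩ | ⟨j3, rfl⟩
    · have h3 : g.σ <+: ρ ++ [i] := h0.trans (List.prefix_append _ _)
      exact ⟨h3, List.prefix_rfl, j2, j2, hbs, hmem _ h3 j2, Or.inl rfl⟩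
    · exact ⟨i1, i2.trans (List.prefix_append _ _), j2, i4, i5, j1, Or.inr j3⟩

lemma T'_T {ρ : Str} (h : g.T' ρ = true) : g.T ρ = true := by
  rw [T'_iff] at h
  obtain ⟨h1, τ, h2⟩ := h
  exact (g.inv h1 τ h2).2.2.1

lemma T'_root : g.T' g.σ = true := by
  rw [T'_iff]; exact ⟨List.prefix_rfl, _, g.bs_root⟩

lemma T'_pfx {ρ : Str} {i : ℕ} (h0 : g.σ <+: ρ) (h : g.T' (ρ ++ [i]) = true) :
    g.T' ρ = true := by
  rw [T'_iff] at h ⊢
  obtain ⟨_, τ, h2⟩ := h
  rw [g.bs_succ h0, Option.bind_eq_some_iff] at h2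
  obtain ⟨τ', h3, _⟩ := h2
  exact ⟨h0, τ', h3⟩

/-- bushiness of the thinned tree -/
lemma T'_bushy {ρ : Str} (h : g.T' ρ = true) : g.p ρ.length ≤
    ((Finset.range (g.b ρ.length)).filter (fun i => g.T' (ρ ++ [i]) = true)).card := by
  rw [T'_iff] at h
  obtain ⟨h1, τ, h2⟩ := h
  obtain ⟨i1, i2, i3, i4, i5, i6, i7⟩ := g.inv h1 τ h2
  have h3 := g.ct_spec i1 i4
  rw [chk, Bool.and_eq_true, mem_iff, BOK_iff] at h3
  have h4 := h3.2 ρ i6
  have h5 : (decide (ρ ≠ τ) && g.lf τ (g.ct τ).2.1 (g.ct τ).2.2 ρ) = false := by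
    rcases i7 with i7 | i7
    · simp [i7]
    · rw [isl] at i7
      rw [i7]; simp
  rw [h5] at h4
  rcases h4 with h4 | h4
  · exact absurd h4 (by simp)
  · refine h4.trans (Finset.card_le_card ?_)
    intro i hi
    rw [Finset.mem_filter] at hi ⊢
    refine ⟨hi.1, ?_⟩
    rw [T'_iff]
    refine ⟨h1.trans (List.prefix_append _ _), ?_⟩
    rw [g.bs_succ h1, h2]
    simp only [Option.bind_some]
    unfold stp
    rw [if_pos (by rw [Bool.and_eq_true, mem_iff]; exact hi.2)]
    split_ifs
    · exact ⟨_, rfl⟩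
    · exact ⟨_, rfl⟩

/-- paths -/
def Pth (T : Str → Bool) (σ : Str) (a : ℕ → ℕ) : Prop :=
  pre a σ.length = σ ∧ ∀ n, σ.length ≤ n → T (pre a n) = true

lemma Pth.pfx {T : Str → Bool} {σ : Str} {a : ℕ → ℕ} (h : Pth T σ a) {n : ℕ}
    (hn : σ.length ≤ n) : σ <+: pre a n := by
  have := pre_prefix a hn
  rwa [h.1] at this

lemma next_base {a : ℕ → ℕ} (ha : Pth g.T' g.σ a) {m : ℕ} (hm : g.isb (pre a m) = true) :
    ∃ n, m < n ∧ g.isb (pre a n) = true ∧ g.isl (pre a m) (pre a n) = true := by
  rw [isb_iff] at hm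
  have hml : g.σ.length ≤ m := by simpa using hm.1.length_le
  by_contra hcon
  push Not at hcon
  have key : ∀ k, g.bs (pre a (m + k)) = some (pre a m) := by
    intro k
    induction k with
    | zero => exact hm.2
    | succ k ih =>
      have h1 : g.σ <+: pre a (m + k) := ha.pfx (by omega)
      have h2 := ha.2 (m + k + 1) (by omega)
      rw [T'_iff] at h2
      obtain ⟨h3, τ', h4⟩ := h2
      have h5 := h4
      rw [pre_succ, g.bs_succ h1, ih, Option.bind_some, ← pre_succ] at h4
      obtain ⟨j1, j2, j3⟩ := g.stp_some h4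
      rcases j3 with ⟨j3, rfl⟩ | ⟨j3, rfl⟩
      · exfalso
        have := hcon (m + k + 1) (by omega) (by rw [isb_iff]; exact ⟨h3, h5⟩)
        rw [j3] at this
        exact this rfl
      · exact h5
  obtain ⟨M, hM⟩ := len_bound (g.ct (pre a m)).1
  have h1 := (g.inv (ha.pfx (n := m + (M + 1)) (by omega)) _ (key (M + 1))).2.2.2.2.2.1
  have h2 := hM _ h1
  rw [pre_length] at h2
  omega

lemma bases {a : ℕ → ℕ} (ha : Pth g.T' g.σ a) (x : ℕ) :
    ∃ m, x ≤ m ∧ g.isb (pre a m) = true := by
  induction x with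
  | zero =>
    refine ⟨g.σ.length, Nat.zero_le _, ?_⟩
    rw [isb_iff, ha.1]
    exact ⟨List.prefix_rfl, g.bs_root⟩
  | succ x ih =>
    obtain ⟨m, h1, h2⟩ := ih
    obtain ⟨n, h3, h4, _⟩ := g.next_base ha h2
    exact ⟨n, by omega, h4⟩

/-- the colour of a base -/
def vc (τ : Str) : ℕ := (g.ct τ).2.1

lemma c_vc : Computable g.vc := Computable.fst.comp (Computable.snd.comp g.c_ct)

/-- along a path avoiding the enumerated set, the colour of each base is respected -/
lemma respect {a : ℕ → ℕ} (ha : Pth g.T' g.σ a)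
    (hB : ∀ n, g.σ.length ≤ n → ∀ s, g.f (pre a n) s = false) {m : ℕ}
    (hm : g.isb (pre a m) = true) : ∃ n, g.E (pre a m) (g.vc (pre a m)) (pre a n) = true := by
  obtain ⟨n, h1, h2, h3⟩ := g.next_base ha hm
  refine ⟨n, ?_⟩
  rw [isb_iff] at hm
  have hml : g.σ.length ≤ m := by simpa using hm.1.length_le
  unfold isl lf at h3
  rw [hB n (by omega), Bool.false_or] at h3
  exact h3

/-- finite bars -/
def Barred (G : Str → Bool) (ρ : Str) : Prop :=
  ∃ D : Finset Str, ρ ∈ D ∧ ∀ ρ' ∈ D, G ρ' = true ∨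
    ∀ i < g.b ρ'.length, g.T' (ρ' ++ [i]) = true → ρ' ++ [i] ∈ D

lemma barred_step {G : Str → Bool} {ρ : Str}
    (h : ∀ i < g.b ρ.length, g.T' (ρ ++ [i]) = true → g.Barred G (ρ ++ [i])) :
    g.Barred G ρ := by
  classical
  choose! D h1 h2 using h
  refine ⟨insert ρ (((Finset.range (g.b ρ.length)).filter
    (fun i => g.T' (ρ ++ [i]) = true)).biUnion D), by simp, ?_⟩
  intro ρ' hρ'
  rw [Finset.mem_insert] at hρ'
  rcases hρ' with rfl | hρ'
  · right
    intro i hi hT
    refine Finset.mem_insert_of_mem (Finset.mem_biUnion.2 ⟨i, ?_, h1 i hi hT⟩)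
    rw [Finset.mem_filter, Finset.mem_range]
    exact ⟨hi, hT⟩
  · rw [Finset.mem_biUnion] at hρ'
    obtain ⟨j, hj, hρ'⟩ := hρ'
    rw [Finset.mem_filter, Finset.mem_range] at hj
    rcases h2 j hj.1 hj.2 ρ' hρ' with h3 | h3
    · exact Or.inl h3
    · right
      intro i hi hT
      refine Finset.mem_insert_of_mem (Finset.mem_biUnion.2 ⟨j, ?_, h3 i hi hT⟩)
      rw [Finset.mem_filter, Finset.mem_range]
      exact hj

lemma barred_root {G : Str → Bool}
    (h : ∀ a, Pth g.T' g.σ a → ∃ n, g.σ.length ≤ n ∧ G (pre a n) = true) :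
    g.Barred G g.σ := by
  classical
  by_contra hcon
  obtain ⟨a, ha1, ha2⟩ := path_exists (R := fun ρ => g.T' ρ = true ∧ ¬ g.Barred G ρ)
    ⟨g.T'_root, hcon⟩ (by
      rintro ρ _ ⟨_, h2⟩
      by_contra h3
      exact h2 (g.barred_step (fun i _ hT => by
        by_contra h4
        exact h3 ⟨i, hT, h4⟩)))
  obtain ⟨n, h1, h2⟩ := h a ⟨ha1, fun n hn => (ha2 n hn).1⟩
  apply (ha2 n h1).2
  refine ⟨{pre a n}, by simp, fun ρ' hρ' => Or.inl ?_⟩
  rw [Finset.mem_singleton] at hρ'
  rw [hρ']
  exact h2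

/-- the check for a finite bar with a bound on the colours -/
def bchk (val : ℕ → ℕ) (x : ℕ) (q : List Str × ℕ) : Bool :=
  mem g.σ q.1 && lall q.1 (fun ρ => (g.isb ρ && (decide (x ≤ ρ.length) &&
    decide (val (g.vc ρ) ≤ q.2))) ||
    ball (g.b ρ.length) (fun i => !(g.T' (ρ ++ [i])) || mem (ρ ++ [i]) q.1))

lemma c_bchk {val : ℕ → ℕ} (hv : Computable val) :
    Computable₂ (fun (x : ℕ) (q : List Str × ℕ) => g.bchk val x q) := by
  refine c_and (c_mem (Computable.const _) (Computable.fst.comp Computable.snd)) (c_lall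
    (Computable.fst.comp Computable.snd) ?_)
  refine c_or (c_and (g.c_isb.comp Computable.snd) (c_and ?_ ?_)) ?_
  · exact c_le (Computable.fst.comp Computable.fst) (Computable.list_length.comp Computable.snd)
  · exact c_le (hv.comp (g.c_vc.comp Computable.snd))
      (Computable.snd.comp (Computable.snd.comp Computable.fst))
  · refine c_ball (f := fun (z : (ℕ × (List Str × ℕ)) × Str) (i : ℕ) =>
      !(g.T' (z.2 ++ [i])) || mem (z.2 ++ [i]) z.1.2.1)
      (g.hb.comp (Computable.list_length.comp Computable.snd)) ?_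
    have h1 : Computable (fun w : ((ℕ × (List Str × ℕ)) × Str) × ℕ => w.1.2 ++ [w.2]) :=
      c_concat (Computable.snd.comp Computable.fst) Computable.snd
    exact c_or (c_not (g.c_T'.comp h1)) (c_mem h1 (Computable.fst.comp (Computable.snd.comp
      (Computable.fst.comp Computable.fst))))

lemma bchk_ex (val : ℕ → ℕ) (x : ℕ) : ∃ q, g.bchk val x q = true := by
  classical
  obtain ⟨D, h1, h2⟩ := g.barred_root (G := fun ρ => g.isb ρ && decide (x ≤ ρ.length)) (by
    intro a ha
    obtain ⟨m, h3, h4⟩ := g.bases ha (max x g.σ.length)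
    refine ⟨m, by omega, ?_⟩
    simp only [Bool.and_eq_true, decide_eq_true_iff, pre_length]
    exact ⟨h4, by omega⟩)
  refine ⟨(D.toList, D.sup (fun ρ => val (g.vc ρ))), ?_⟩
  rw [bchk, Bool.and_eq_true, mem_iff, lall_iff]
  refine ⟨by simpa using h1, fun ρ hρ => ?_⟩
  have hρ' : ρ ∈ D := by simpa using hρ
  rw [Bool.or_eq_true]
  rcases h2 ρ hρ' with h3 | h3
  · left
    simp only [Bool.and_eq_true, decide_eq_true_iff] at h3 ⊢
    exact ⟨h3.1, h3.2, Finset.le_sup (f := fun ρ => val (g.vc ρ)) hρ'⟩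
  · right
    rw [ball_iff]
    intro i hi
    rw [Bool.or_eq_true, mem_iff]
    cases hT : g.T' (ρ ++ [i]) with
    | false => left; rfl
    | true => right; simpa using h3 i hi hT

/-- computable bounds along all paths of the thinned tree -/
theorem bound {val : ℕ → ℕ} (hv : Computable val) : ∃ G : ℕ → ℕ, Computable G ∧
    ∀ a, Pth g.T' g.σ a → ∀ x, ∃ m, x ≤ m ∧ g.isb (pre a m) = true ∧
      val (g.vc (pre a m)) ≤ G x := by
  have hc : Computable₂ (fun (x n : ℕ) =>
      ((decode n : Option (List Str × ℕ)).map (g.bchk val x)).getD false) := by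
    refine Computable.option_getD ?_ (Computable.const false)
    refine Computable.option_map (Computable.decode.comp Computable.snd) ?_
    exact (g.c_bchk hv).comp (Computable.fst.comp Computable.fst) Computable.snd
  have hex : ∀ x, ∃ n, ((decode n : Option (List Str × ℕ)).map (g.bchk val x)).getD false
      = true := by
    intro x
    obtain ⟨q, hq⟩ := g.bchk_ex val x
    exact ⟨encode q, by rw [encodek]; exact hq⟩
  have hfind := c_find hc hex
  refine ⟨fun x => ((decode (Nat.find (hex x)) : Option (List Str × ℕ)).getD ([], 0)).2,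
    Computable.snd.comp (Computable.option_getD (Computable.decode.comp hfind)
      (Computable.const _)), ?_⟩
  intro a ha x
  have h1 := Nat.find_spec (hex x)
  beta_reduce
  generalize Nat.find (hex x) = n at h1 ⊢
  cases hd : (decode n : Option (List Str × ℕ)) with
  | none => rw [hd] at h1; simp at h1
  | some q =>
    rw [hd] at h1
    simp only [Option.map_some, Option.getD_some] at h1 ⊢
    rw [bchk, Bool.and_eq_true, mem_iff, lall_iff] at h1
    obtain ⟨h2, h3⟩ := h1
    by_contra hcon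
    push Not at hcon
    have key : ∀ k, pre a (g.σ.length + k) ∈ q.1 := by
      intro k
      induction k with
      | zero => rw [Nat.add_zero, ha.1]; exact h2
      | succ k ih =>
        have h4 := h3 _ ih
        rw [Bool.or_eq_true] at h4
        rcases h4 with h4 | h4
        · simp only [Bool.and_eq_true, decide_eq_true_iff, pre_length] at h4
          exact absurd h4.2.2 (not_le.2 (hcon _ h4.2.1 h4.1))
        · rw [ball_iff] at h4
          have h5 := ha.2 (g.σ.length + k + 1) (by omega)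
          rw [pre_succ] at h5
          have h6 : a (g.σ.length + k) < g.b (pre a (g.σ.length + k)).length :=
            g.hTb _ _ (g.T'_T h5)
          have h7 := h4 _ h6
          rw [Bool.or_eq_true, mem_iff, h5] at h7
          rcases h7 with h7 | h7
          · simp at h7
          · rw [← Nat.add_assoc, pre_succ]; exact h7
    obtain ⟨M, hM⟩ := len_bound q.1
    have h4 := hM _ (key (M + 1))
    rw [pre_length] at h4
    omega

end GD

end Pool.Agent.H166R3.AT
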