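import Pool.Agent.H166R3.AT.CT

set_option autoImplicit false

/-! Hadamard codes. -/

namespace Pool.Agent.H166R3.AT

lemma bit_add {j k : ℕ} (h : j < k) (i m : ℕ) : (i + 2 ^ k * m) / 2 ^ j % 2 = i / 2 ^ j % 2 := by
  have h2 : 2 ^ k = 2 ^ j * (2 * 2 ^ (k - j - 1)) := by
    rw [← pow_succ', ← pow_add]; congr 1; omega
  rw [h2, mul_assoc, Nat.add_mul_div_left _ _ (by positivity), mul_assoc,
    Nat.add_mul_mod_self_left]

/-- the Hadamard matrix -/
def HH : ℕ → ℕ → ℕ → ℤ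
  | 0, _, _ => 1
  | k + 1, i, y => HH k i y * (if i / 2 ^ k % 2 = 1 ∧ y / 2 ^ k % 2 = 1 then -1 else 1)

lemma HH_left (k i y m : ℕ) : ∀ l, k ≤ l → HH k (i + 2 ^ l * m) y = HH k i y := by
  induction k with
  | zero => intro l _; rfl
  | succ k ih =>
    intro l hl
    rw [HH, HH, ih l (by omega), bit_add (by omega)]

lemma HH_right (k i y m : ℕ) : ∀ l, k ≤ l → HH k i (y + 2 ^ l * m) = HH k i y := by
  induction k with
  | zero => intro l _; rfl
  | succ k ih =>
    intro l hl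
    rw [HH, HH, ih l (by omega), bit_add (by omega)]

lemma HH_sq (k i y : ℕ) : HH k i y * HH k i y = 1 := by
  induction k with
  | zero => rfl
  | succ k ih =>
    rw [HH]
    split_ifs
    · linear_combination ih
    · linear_combination ih

/-- orthogonality -/
lemma HH_orth (k : ℕ) : ∀ y y', y < 2 ^ k → y' < 2 ^ k → y ≠ y' →
    ∑ i ∈ Finset.range (2 ^ k), HH k i y * HH k i y' = 0 := by
  induction k with
  | zero =>
    intro y y' h1 h2 h3
    simp at h1 h2
    omega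
  | succ k ih =>
    intro y y' h1 h2 h3
    have hs : 2 ^ (k + 1) = 2 ^ k + 2 ^ k := by ring
    rw [hs, Finset.sum_range_add]
    have hy : y = y % 2 ^ k + 2 ^ k * (y / 2 ^ k) := (Nat.mod_add_div _ _).symm
    have hy' : y' = y' % 2 ^ k + 2 ^ k * (y' / 2 ^ k) := (Nat.mod_add_div _ _).symm
    have e1 : ∀ i, HH k i y = HH k i (y % 2 ^ k) := by
      intro i
      conv_lhs => rw [hy]
      exact HH_right k i _ _ k le_rfl
    have e2 : ∀ i, HH k i y' = HH k i (y' % 2 ^ k) := by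
      intro i
      conv_lhs => rw [hy']
      exact HH_right k i _ _ k le_rfl
    have a1 : ∀ i ∈ Finset.range (2 ^ k), HH (k + 1) i y * HH (k + 1) i y' =
        HH k i (y % 2 ^ k) * HH k i (y' % 2 ^ k) := by
      intro i hi
      rw [Finset.mem_range] at hi
      rw [HH, HH, Nat.div_eq_of_lt hi, e1, e2]
      simp
    have a2 : ∀ i ∈ Finset.range (2 ^ k), HH (k + 1) (2 ^ k + i) y * HH (k + 1) (2 ^ k + i) y' =
        (HH k i (y % 2 ^ k) * HH k i (y' % 2 ^ k)) *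
          ((if y / 2 ^ k % 2 = 1 then -1 else 1) * (if y' / 2 ^ k % 2 = 1 then -1 else 1)) := by
      intro i hi
      rw [Finset.mem_range] at hi
      have h4 : (2 ^ k + i) / 2 ^ k % 2 = 1 := by
        rw [Nat.add_div_left _ (by positivity), Nat.div_eq_of_lt hi]
      have h5 : HH k (2 ^ k + i) y = HH k i (y % 2 ^ k) := by
        rw [show 2 ^ k + i = i + 2 ^ k * 1 by ring, HH_left k i _ 1 k le_rfl, e1]
      have h6 : HH k (2 ^ k + i) y' = HH k i (y' % 2 ^ k) := by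
        rw [show 2 ^ k + i = i + 2 ^ k * 1 by ring, HH_left k i _ 1 k le_rfl, e2]
      rw [HH, HH, h4, h5, h6]
      simp only [true_and]
      ring
    rw [Finset.sum_congr rfl a1, Finset.sum_congr rfl a2, ← Finset.sum_mul]
    by_cases hm : y % 2 ^ k = y' % 2 ^ k
    · have hd : y / 2 ^ k ≠ y' / 2 ^ k := by
        intro h; apply h3; rw [hy, hy', hm, h]
      have b1 : y / 2 ^ k < 2 := by
        rw [Nat.div_lt_iff_lt_mul (by positivity)]; rw [pow_succ] at h1; omega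
      have b2 : y' / 2 ^ k < 2 := by
        rw [Nat.div_lt_iff_lt_mul (by positivity)]; rw [pow_succ] at h2; omega
      have b3 : ((if y / 2 ^ k % 2 = 1 then (-1 : ℤ) else 1) *
          (if y' / 2 ^ k % 2 = 1 then -1 else 1)) = -1 := by
        have b4 : ∀ q q' : ℕ, q < 2 → q' < 2 → q ≠ q' → (q = 0 ∧ q' = 1) ∨ (q = 1 ∧ q' = 0) := by
          intro q q' _ _ _
          omega
        rcases b4 _ _ b1 b2 hd with ⟨h4, h5⟩ | ⟨h4, h5⟩ <;> simp [h4, h5]
      rw [b3]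
      ring
    · rw [ih _ _ (Nat.mod_lt _ (by positivity)) (Nat.mod_lt _ (by positivity)) hm]
      ring

/-- Parseval -/
lemma parseval (k : ℕ) (E : ℕ → ℤ) :
    ∑ i ∈ Finset.range (2 ^ k), (∑ y ∈ Finset.range (2 ^ k), HH k i y * E y) ^ 2 =
      2 ^ k * ∑ y ∈ Finset.range (2 ^ k), E y ^ 2 := by
  have h1 : ∀ i, (∑ y ∈ Finset.range (2 ^ k), HH k i y * E y) ^ 2 =
      ∑ y ∈ Finset.range (2 ^ k), ∑ y' ∈ Finset.range (2 ^ k),
        (E y * E y') * (HH k i y * HH k i y') := by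
    intro i
    rw [sq, Finset.sum_mul_sum]
    refine Finset.sum_congr rfl (fun y _ => Finset.sum_congr rfl (fun y' _ => ?_))
    ring
  rw [Finset.sum_congr rfl (fun i _ => h1 i), Finset.sum_comm, Finset.mul_sum]
  refine Finset.sum_congr rfl (fun y hy => ?_)
  rw [Finset.sum_comm]
  rw [Finset.mem_range] at hy
  rw [Finset.sum_eq_single y]
  · rw [← Finset.mul_sum]
    simp only [HH_sq]
    rw [Finset.sum_const, Finset.card_range, nsmul_eq_mul]
    push_cast
    ring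
  · intro y' hy' hne
    rw [Finset.mem_range] at hy'
    rw [← Finset.mul_sum, HH_orth k y y' hy hy' (Ne.symm hne), mul_zero]
  · intro h
    exact absurd (Finset.mem_range.2 hy) h

/-- signs -/
def sg (b : Bool) : ℤ := if b then -1 else 1

lemma sg_le (b : Bool) : |sg b| ≤ 1 := by cases b <;> simp [sg]

/-- the correlation of row `i` with `D` on the interval `[A, A + R 2^k)` -/
def cor (k i A R : ℕ) (D : ℕ → Bool) : ℤ :=
  ∑ r ∈ Finset.range R, ∑ y ∈ Finset.range (2 ^ k), HH k i y * sg (D (A + r * 2 ^ k + y))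

lemma cor_sq (k A R : ℕ) (D : ℕ → Bool) :
    ∑ i ∈ Finset.range (2 ^ k), (cor k i A R D) ^ 2 ≤ ((R : ℤ) * 2 ^ k) ^ 2 := by
  have h1 : ∀ i, cor k i A R D = ∑ y ∈ Finset.range (2 ^ k), HH k i y *
      (∑ r ∈ Finset.range R, sg (D (A + r * 2 ^ k + y))) := by
    intro i
    rw [cor, Finset.sum_comm]
    refine Finset.sum_congr rfl (fun y _ => ?_)
    rw [Finset.mul_sum]
  simp only [h1]
  rw [parseval]
  have h2 : ∀ y ∈ Finset.range (2 ^ k),
      (∑ r ∈ Finset.range R, sg (D (A + r * 2 ^ k + y))) ^ 2 ≤ (R : ℤ) ^ 2 := by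
    intro y _
    apply sq_le_sq'
    · have : |∑ r ∈ Finset.range R, sg (D (A + r * 2 ^ k + y))| ≤ R := by
        refine (Finset.abs_sum_le_sum_abs _ _).trans ?_
        refine (Finset.sum_le_sum (fun r _ => sg_le _)).trans ?_
        simp
      exact (abs_le.1 this).1
    · have : |∑ r ∈ Finset.range R, sg (D (A + r * 2 ^ k + y))| ≤ R := by
        refine (Finset.abs_sum_le_sum_abs _ _).trans ?_
        refine (Finset.sum_le_sum (fun r _ => sg_le _)).trans ?_
        simp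
      exact (abs_le.1 this).2
  calc (2 : ℤ) ^ k * ∑ y ∈ Finset.range (2 ^ k),
        (∑ r ∈ Finset.range R, sg (D (A + r * 2 ^ k + y))) ^ 2
      ≤ 2 ^ k * ∑ y ∈ Finset.range (2 ^ k), (R : ℤ) ^ 2 :=
        mul_le_mul_of_nonneg_left (Finset.sum_le_sum h2) (by positivity)
    _ = ((R : ℤ) * 2 ^ k) ^ 2 := by
        rw [Finset.sum_const, Finset.card_range, nsmul_eq_mul]
        push_cast
        ring

/-- few rows are badly correlated -/
lemma few_bad (k A R n : ℕ) (D : ℕ → Bool) (hR : 1 ≤ R) (F : Finset ℕ)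
    (hF : ∀ i ∈ F, i < 2 ^ k ∧ ((R : ℤ) * 2 ^ k) < 2 ^ n * (-(cor k i A R D))) :
    F.card ≤ 4 ^ n := by
  have hK : (0 : ℤ) < (R : ℤ) * 2 ^ k := by positivity
  have h1 : ∀ i ∈ F, ((R : ℤ) * 2 ^ k) ^ 2 ≤ 4 ^ n * (cor k i A R D) ^ 2 := by
    intro i hi
    have h2 := (hF i hi).2
    have h3 : ((R : ℤ) * 2 ^ k) ^ 2 ≤ (2 ^ n * (-(cor k i A R D))) ^ 2 := by
      apply pow_le_pow_left₀ hK.le h2.le
    refine h3.trans (le_of_eq ?_)
    rw [show (4 : ℤ) = 2 ^ 2 by norm_num, ← pow_mul]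
    ring
  have h2 : (F.card : ℤ) * ((R : ℤ) * 2 ^ k) ^ 2 ≤ 4 ^ n * ((R : ℤ) * 2 ^ k) ^ 2 := by
    calc (F.card : ℤ) * ((R : ℤ) * 2 ^ k) ^ 2 = ∑ i ∈ F, ((R : ℤ) * 2 ^ k) ^ 2 := by
          rw [Finset.sum_const, nsmul_eq_mul]
      _ ≤ ∑ i ∈ F, 4 ^ n * (cor k i A R D) ^ 2 := Finset.sum_le_sum h1
      _ = 4 ^ n * ∑ i ∈ F, (cor k i A R D) ^ 2 := by rw [Finset.mul_sum]
      _ ≤ 4 ^ n * ∑ i ∈ Finset.range (2 ^ k), (cor k i A R D) ^ 2 := by
          refine mul_le_mul_of_nonneg_left ?_ (by positivity)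
          refine Finset.sum_le_sum_of_subset_of_nonneg ?_ (fun i _ _ => sq_nonneg _)
          intro i hi
          exact Finset.mem_range.2 (hF i hi).1
      _ ≤ 4 ^ n * ((R : ℤ) * 2 ^ k) ^ 2 :=
          mul_le_mul_of_nonneg_left (cor_sq k A R D) (by positivity)
  have h3 : (F.card : ℤ) ≤ 4 ^ n := le_of_mul_le_mul_right h2 (by positivity)
  exact_mod_cast h3

/-- the code bit -/
def chi (k i x : ℕ) : Bool :=
  decide ((∑ j ∈ Finset.range k, (i / 2 ^ j % 2) * (x / 2 ^ j % 2)) % 2 = 1)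

lemma chi_sg (k i x : ℕ) : sg (chi k i x) = HH k i x := by
  induction k with
  | zero => simp [chi, sg, HH]
  | succ k ih =>
    rw [HH, ← ih]
    unfold chi sg
    rw [Finset.sum_range_succ]
    have h1 : i / 2 ^ k % 2 < 2 := Nat.mod_lt _ (by norm_num)
    have h2 : x / 2 ^ k % 2 < 2 := Nat.mod_lt _ (by norm_num)
    generalize i / 2 ^ k % 2 = a at h1
    generalize x / 2 ^ k % 2 = b at h2
    generalize (∑ j ∈ Finset.range k, (i / 2 ^ j % 2) * (x / 2 ^ j % 2)) = s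
    have h3 : s % 2 = 0 ∨ s % 2 = 1 := by omega
    interval_cases a <;> interval_cases b <;> rcases h3 with h3 | h3 <;>
      simp [h3, Nat.add_mod]

end Pool.Agent.H166R3.AT
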