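import Pool.Agent.H166R3.AT.HC

set_option autoImplicit false

/-! Blocks, codes, and the density of differences. -/

namespace Pool.Agent.H166R3.AT

/-- dyadic exponents of the blocks -/
def uu (n : ℕ) : ℕ := 2 ^ ((n + 3) ^ 2)

/-- the dimension of the code in block `n` -/
def kp (n : ℕ) : ℕ := uu n - n

lemma uu_mono {m n : ℕ} (h : m ≤ n) : uu m ≤ uu n :=
  Nat.pow_le_pow_right (by norm_num) (Nat.pow_le_pow_left (by omega) 2)

lemma le_uu (n : ℕ) : n ≤ uu n := by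
  have h1 : n < 2 ^ n := Nat.lt_two_pow_self
  have h2 : 2 ^ n ≤ 2 ^ ((n + 3) ^ 2) := Nat.pow_le_pow_right (by norm_num) (by nlinarith)
  unfold uu
  omega

lemma uu_lt (n : ℕ) : uu n < uu (n + 1) :=
  Nat.pow_lt_pow_right (by norm_num) (Nat.pow_lt_pow_left (by omega) (by norm_num))

lemma kp_add (n : ℕ) : kp n + n = uu n := by
  have := le_uu n
  unfold kp
  omega

/-- the block of a position -/
def blk (x : ℕ) : ℕ := Nat.find (⟨x, by
  have h1 : x < 2 ^ x := Nat.lt_two_pow_self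
  have h2 : 2 ^ x ≤ 2 ^ uu (x + 1) := Nat.pow_le_pow_right (by norm_num)
    ((Nat.le_succ x).trans (le_uu (x + 1)))
  omega⟩ : ∃ n, x < 2 ^ uu (n + 1))

lemma blk_eq {n x : ℕ} (h1 : 2 ^ uu n ≤ x) (h2 : x < 2 ^ uu (n + 1)) : blk x = n := by
  unfold blk
  rw [Nat.find_eq_iff]
  refine ⟨h2, fun m hm => ?_⟩
  rw [not_lt]
  refine le_trans (Nat.pow_le_pow_right (by norm_num) (uu_mono (by omega))) h1

/-- the coded sequence -/
def code (a : ℕ → ℕ) (x : ℕ) : Bool := chi (kp (blk x)) (a (blk x)) x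

/-- the excess of differences -/
def dl (C D : ℕ → Bool) (m : ℕ) : ℤ := ∑ x ∈ Finset.range m, -(sg (C x) * sg (D x))

lemma dl_card (C D : ℕ → Bool) (m : ℕ) :
    dl C D m = 2 * (((Finset.range m).filter (fun k => C k ≠ D k)).card : ℤ) - m := by
  induction m with
  | zero => simp [dl]
  | succ m ih =>
    unfold dl at ih ⊢
    rw [Finset.sum_range_succ, ih, Finset.range_add_one, Finset.filter_insert]
    by_cases h : C m = D m
    · rw [if_neg (by simp [h]), h]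
      cases D m <;> simp [sg] <;> ring
    · rw [if_pos h, Finset.card_insert_of_notMem (by simp)]
      cases hC : C m <;> cases hD : D m <;> rw [hC, hD] at h <;> simp [sg] at h ⊢ <;> ring

/-- badness of the index `i` for block `n` -/
def Bd (n i : ℕ) (D : ℕ → Bool) : Prop :=
  ∃ j, uu n ≤ j ∧ j < uu (n + 1) ∧ ∃ s < 2 ^ n,
    ((2 ^ (j - uu n) * 2 ^ kp n : ℕ) : ℤ) <
      2 ^ n * (-(cor (kp n) i (2 ^ j + s * 2 ^ (j - n)) (2 ^ (j - uu n)) D))

lemma len_eq {n j : ℕ} (h : uu n ≤ j) : 2 ^ (j - uu n) * 2 ^ kp n = 2 ^ (j - n) := by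
  rw [← pow_add]
  congr 1
  have := kp_add n
  omega

/-- few bad indices -/
lemma few (n : ℕ) (D : ℕ → Bool) (F : Finset ℕ) (hF : ∀ i ∈ F, i < 2 ^ kp n ∧ Bd n i D) :
    F.card ≤ uu (n + 1) * 2 ^ n * 4 ^ n := by
  classical
  have h1 : F ⊆ (Finset.range (uu (n + 1))).biUnion (fun j => (Finset.range (2 ^ n)).biUnion
      (fun s => F.filter (fun i => ((2 ^ (j - uu n) * 2 ^ kp n : ℕ) : ℤ) <
      2 ^ n * (-(cor (kp n) i (2 ^ j + s * 2 ^ (j - n)) (2 ^ (j - uu n)) D))))) := by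
    intro i hi
    obtain ⟨_, j, _, h3, s, h4, h5⟩ := hF i hi
    rw [Finset.mem_biUnion]
    refine ⟨j, Finset.mem_range.2 h3, ?_⟩
    rw [Finset.mem_biUnion]
    exact ⟨s, Finset.mem_range.2 h4, Finset.mem_filter.2 ⟨hi, h5⟩⟩
  refine (Finset.card_le_card h1).trans ?_
  refine (Finset.card_biUnion_le_card_mul _ _ (2 ^ n * 4 ^ n) (fun j _ => ?_)).trans ?_
  · refine (Finset.card_biUnion_le_card_mul _ _ (4 ^ n) (fun s _ => ?_)).trans ?_
    · refine few_bad (kp n) (2 ^ j + s * 2 ^ (j - n)) (2 ^ (j - uu n)) n D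
        (Nat.one_le_two_pow) _ (fun i hi => ?_)
      rw [Finset.mem_filter] at hi
      refine ⟨(hF i hi.1).1, ?_⟩
      have := hi.2
      push_cast at this ⊢
      exact this
    · rw [Finset.card_range]
  · rw [Finset.card_range, mul_assoc]

lemma pos_lt {n j s r y : ℕ} (hj : uu n ≤ j) (hs : s < 2 ^ n) (hr : r < 2 ^ (j - uu n))
    (hy : y < 2 ^ kp n) : 2 ^ j + s * 2 ^ (j - n) + r * 2 ^ kp n + y < 2 ^ (j + 1) := by
  have h5 : r * 2 ^ kp n + y < 2 ^ (j - n) := by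
    rw [← len_eq hj]
    calc r * 2 ^ kp n + y < r * 2 ^ kp n + 2 ^ kp n := by omega
      _ = (r + 1) * 2 ^ kp n := by ring
      _ ≤ 2 ^ (j - uu n) * 2 ^ kp n := Nat.mul_le_mul_right _ hr
  have h6 : (s + 1) * 2 ^ (j - n) ≤ 2 ^ n * 2 ^ (j - n) := Nat.mul_le_mul_right _ hs
  have h7 : 2 ^ n * 2 ^ (j - n) = 2 ^ j := by
    rw [← pow_add]; congr 1
    have := le_uu n
    omega
  rw [h7] at h6
  rw [pow_succ]
  nlinarith

lemma Bd_congr {n i : ℕ} {D D' : ℕ → Bool} (h : ∀ x < 2 ^ uu (n + 1), D x = D' x)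
    (hb : Bd n i D) : Bd n i D' := by
  obtain ⟨j, h1, h2, s, h3, h4⟩ := hb
  refine ⟨j, h1, h2, s, h3, ?_⟩
  have h5 : cor (kp n) i (2 ^ j + s * 2 ^ (j - n)) (2 ^ (j - uu n)) D' =
      cor (kp n) i (2 ^ j + s * 2 ^ (j - n)) (2 ^ (j - uu n)) D := by
    unfold cor
    refine Finset.sum_congr rfl (fun r hr => Finset.sum_congr rfl (fun y hy => ?_))
    rw [Finset.mem_range] at hr hy
    rw [h]
    exact lt_of_lt_of_le (pos_lt h1 h3 hr hy) (Nat.pow_le_pow_right (by norm_num) h2)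
  rw [h5]
  exact h4

lemma sum_block (f : ℕ → ℤ) (A R w : ℕ) :
    ∑ x ∈ Finset.range (A + R * w), f x = ∑ x ∈ Finset.range A, f x +
      ∑ r ∈ Finset.range R, ∑ y ∈ Finset.range w, f (A + r * w + y) := by
  induction R with
  | zero => simp
  | succ R ih =>
    rw [show A + (R + 1) * w = (A + R * w) + w by ring, Finset.sum_range_add, ih,
      Finset.sum_range_succ]
    ring

/-- the increment of the excess over a good interval -/
lemma dl_good {a : ℕ → ℕ} {D : ℕ → Bool} {n j s : ℕ} (hj : uu n ≤ j) (hj2 : j < uu (n + 1))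
    (hs : s < 2 ^ n) (hg : ¬ Bd n (a n) D) :
    2 ^ n * (dl (code a) D (2 ^ j + (s + 1) * 2 ^ (j - n)) -
      dl (code a) D (2 ^ j + s * 2 ^ (j - n))) ≤ 2 ^ (j - n) := by
  have h1 : ¬ (((2 ^ (j - uu n) * 2 ^ kp n : ℕ) : ℤ) <
      2 ^ n * (-(cor (kp n) (a n) (2 ^ j + s * 2 ^ (j - n)) (2 ^ (j - uu n)) D))) :=
    fun h => hg ⟨j, hj, hj2, s, hs, h⟩
  rw [not_lt, len_eq hj] at h1
  have h2 : 2 ^ j + (s + 1) * 2 ^ (j - n) = (2 ^ j + s * 2 ^ (j - n)) +
      2 ^ (j - uu n) * 2 ^ kp n := by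
    rw [len_eq hj]; ring
  have h3 : dl (code a) D (2 ^ j + (s + 1) * 2 ^ (j - n)) -
      dl (code a) D (2 ^ j + s * 2 ^ (j - n)) =
      -(cor (kp n) (a n) (2 ^ j + s * 2 ^ (j - n)) (2 ^ (j - uu n)) D) := by
    rw [h2]
    unfold dl
    rw [sum_block, add_sub_cancel_left, cor, ← Finset.sum_neg_distrib]
    refine Finset.sum_congr rfl (fun r hr => ?_)
    rw [← Finset.sum_neg_distrib]
    refine Finset.sum_congr rfl (fun y hy => ?_)
    rw [Finset.mem_range] at hr hy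
    have h4 : 2 ^ j + s * 2 ^ (j - n) + r * 2 ^ kp n + y < 2 ^ (j + 1) := pos_lt hj hs hr hy
    have h8 : blk (2 ^ j + s * 2 ^ (j - n) + r * 2 ^ kp n + y) = n := by
      apply blk_eq
      · have : 2 ^ uu n ≤ 2 ^ j := Nat.pow_le_pow_right (by norm_num) hj
        omega
      · exact lt_of_lt_of_le h4 (Nat.pow_le_pow_right (by norm_num) hj2)
    have h9 : sg (code a (2 ^ j + s * 2 ^ (j - n) + r * 2 ^ kp n + y)) =
        HH (kp n) (a n) y := by
      unfold code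
      rw [h8, chi_sg]
      have h10 : 2 ^ j + s * 2 ^ (j - n) + r * 2 ^ kp n + y =
          y + 2 ^ kp n * (2 ^ (j - kp n) + s * 2 ^ (j - n - kp n) + r) := by
        have k1 := kp_add n
        have k2 : 2 ^ j = 2 ^ kp n * 2 ^ (j - kp n) := by
          rw [← pow_add]; congr 1; omega
        have k3 : 2 ^ (j - n) = 2 ^ kp n * 2 ^ (j - n - kp n) := by
          rw [← pow_add]; congr 1; omega
        calc 2 ^ j + s * 2 ^ (j - n) + r * 2 ^ kp n + y
            = 2 ^ kp n * 2 ^ (j - kp n) + s * (2 ^ kp n * 2 ^ (j - n - kp n)) +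
              r * 2 ^ kp n + y := by rw [← k2, ← k3]
          _ = _ := by ring
      rw [h10]
      exact HH_right _ _ _ _ _ le_rfl
    rw [h9]
  rw [h3]
  calc 2 ^ n * (-(cor (kp n) (a n) (2 ^ j + s * 2 ^ (j - n)) (2 ^ (j - uu n)) D))
      ≤ ((2 ^ (j - n) : ℕ) : ℤ) := h1
    _ = 2 ^ (j - n) := by push_cast; rfl

/-- over an initial part of a dyadic interval -/
lemma dl_part {a : ℕ → ℕ} {D : ℕ → Bool} {n j : ℕ} (hj : uu n ≤ j) (hj2 : j < uu (n + 1))
    (hg : ¬ Bd n (a n) D) (s : ℕ) (hs : s ≤ 2 ^ n) :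
    2 ^ n * (dl (code a) D (2 ^ j + s * 2 ^ (j - n)) - dl (code a) D (2 ^ j)) ≤
      s * 2 ^ (j - n) := by
  induction s with
  | zero => simp
  | succ s ih =>
    have h1 := ih (by omega)
    have h2 := dl_good (s := s) hj hj2 (by omega) hg
    push_cast
    linarith

lemma dl_part' {a : ℕ → ℕ} {D : ℕ → Bool} {n j : ℕ} (hj : uu n ≤ j) (hj2 : j < uu (n + 1))
    (hg : ¬ Bd n (a n) D) (s : ℕ) (hs : s ≤ 2 ^ n) :
    dl (code a) D (2 ^ j + s * 2 ^ (j - n)) - dl (code a) D (2 ^ j) ≤ 2 ^ (j - n) := by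
  have h1 := dl_part hj hj2 hg s hs
  have h2 : (s : ℤ) * 2 ^ (j - n) ≤ 2 ^ n * 2 ^ (j - n) := by
    have : (s : ℤ) ≤ 2 ^ n := by exact_mod_cast hs
    exact mul_le_mul_of_nonneg_right this (by positivity)
  exact le_of_mul_le_mul_left (h1.trans h2) (by positivity)

lemma dl_step (C D : ℕ → Bool) (m r : ℕ) : dl C D (m + r) ≤ dl C D m + r := by
  unfold dl
  rw [Finset.sum_range_add]
  have : ∑ x ∈ Finset.range r, -(sg (C (m + x)) * sg (D (m + x))) ≤
      ∑ x ∈ Finset.range r, (1 : ℤ) := by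
    refine Finset.sum_le_sum (fun x _ => ?_)
    cases C (m + x) <;> cases D (m + x) <;> simp [sg]
  simp at this
  simpa using this

lemma block_exists {N j : ℕ} (h : uu N ≤ j) : ∃ n, N ≤ n ∧ uu n ≤ j ∧ j < uu (n + 1) := by
  classical
  have hex : ∃ n, j < uu (n + 1) := ⟨j, lt_of_lt_of_le (Nat.lt_succ_self j) (le_uu (j + 1))⟩
  refine ⟨Nat.find hex, ?_, ?_, Nat.find_spec hex⟩
  · by_contra hcon
    rw [not_le] at hcon
    have h1 := Nat.find_spec hex
    have h2 : uu (Nat.find hex + 1) ≤ uu N := uu_mono hcon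
    omega
  · rcases Nat.eq_zero_or_pos (Nat.find hex) with h1 | h1
    · rw [h1]; exact le_trans (uu_mono (Nat.zero_le N)) h
    · have h2 := Nat.find_min hex (m := Nat.find hex - 1) (by omega)
      rw [not_lt, Nat.sub_add_cancel h1] at h2
      exact h2

/-- the excess at dyadic points -/
lemma dl_dyadic {a : ℕ → ℕ} {D : ℕ → Bool} {N : ℕ} (hg : ∀ n, N ≤ n → ¬ Bd n (a n) D) (j : ℕ)
    (hj : uu N ≤ j) : 2 ^ N * dl (code a) D (2 ^ j) ≤ 2 ^ N * 2 ^ uu N + 2 ^ j := by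
  induction j, hj using Nat.le_induction with
  | base =>
    have h1 := dl_step (code a) D 0 (2 ^ uu N)
    have h2 : dl (code a) D 0 = 0 := by simp [dl]
    rw [h2, zero_add, zero_add] at h1
    push_cast at h1
    have h3 : (2 : ℤ) ^ N * dl (code a) D (2 ^ uu N) ≤ 2 ^ N * 2 ^ uu N :=
      mul_le_mul_of_nonneg_left h1 (by positivity)
    have h4 : (0 : ℤ) ≤ 2 ^ uu N := by positivity
    linarith
  | succ j hj ih =>
    obtain ⟨n, h1, h2, h3⟩ := block_exists hj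
    have h4 := dl_part' h2 h3 (hg n h1) (2 ^ n) le_rfl
    have h5 : 2 ^ j + 2 ^ n * 2 ^ (j - n) = 2 ^ (j + 1) := by
      rw [← pow_add, pow_succ]
      have : n + (j - n) = j := by have := le_uu n; omega
      rw [this]; ring
    rw [h5] at h4
    have h6 : (2 : ℤ) ^ N * 2 ^ (j - n) ≤ 2 ^ j := by
      rw [← pow_add]
      apply pow_le_pow_right₀ (by norm_num)
      have := le_uu n
      omega
    have h7 : (2 : ℤ) ^ N * (dl (code a) D (2 ^ (j + 1)) - dl (code a) D (2 ^ j)) ≤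
        2 ^ N * 2 ^ (j - n) := mul_le_mul_of_nonneg_left h4 (by positivity)
    rw [pow_succ (2 : ℤ) j]
    linarith

/-- the excess everywhere -/
lemma dl_all {a : ℕ → ℕ} {D : ℕ → Bool} {N : ℕ} (hg : ∀ n, N ≤ n → ¬ Bd n (a n) D) (m : ℕ)
    (hm : 2 ^ uu N ≤ m) : 2 ^ N * dl (code a) D m ≤ 2 ^ N * 2 ^ uu N + 3 * m := by
  have hm0 : m ≠ 0 := by
    have : 0 < 2 ^ uu N := by positivity
    omega
  set j := Nat.log 2 m with hj
  have hj1 : 2 ^ j ≤ m := Nat.pow_log_le_self 2 hm0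
  have hj2 : m < 2 ^ (j + 1) := Nat.lt_pow_succ_log_self (by norm_num) m
  have hj3 : uu N ≤ j := (Nat.le_log_iff_pow_le (by norm_num) hm0).2 hm
  obtain ⟨n, h1, h2, h3⟩ := block_exists hj3
  have hnj : n + (j - n) = j := by have := le_uu n; omega
  set s := (m - 2 ^ j) / 2 ^ (j - n) with hs
  set r := (m - 2 ^ j) % 2 ^ (j - n) with hr
  have hmr : m = (2 ^ j + s * 2 ^ (j - n)) + r := by
    have := Nat.div_add_mod (m - 2 ^ j) (2 ^ (j - n))
    rw [← hs, ← hr] at this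
    have h4 : s * 2 ^ (j - n) = 2 ^ (j - n) * s := mul_comm _ _
    omega
  have hs2 : s ≤ 2 ^ n := by
    have h5 : m - 2 ^ j < 2 ^ n * 2 ^ (j - n) := by
      rw [← pow_add, hnj]; rw [pow_succ] at hj2; omega
    exact (Nat.div_lt_of_lt_mul (by rw [mul_comm]; exact h5)).le
  have hr2 : r < 2 ^ (j - n) := Nat.mod_lt _ (by positivity)
  have h4 := dl_part' h2 h3 (hg n h1) s hs2
  have h5 := dl_step (code a) D (2 ^ j + s * 2 ^ (j - n)) r
  rw [← hmr] at h5
  have h6 := dl_dyadic hg j hj3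
  have h7 : (2 : ℤ) ^ N * 2 ^ (j - n) ≤ 2 ^ j := by
    rw [← pow_add]
    exact pow_le_pow_right₀ (by norm_num) (by omega)
  have h8 : (r : ℤ) ≤ 2 ^ (j - n) := by exact_mod_cast hr2.le
  have h9 : (2 : ℤ) ^ j ≤ m := by exact_mod_cast hj1
  have h10 : dl (code a) D m ≤ dl (code a) D (2 ^ j) + 2 * 2 ^ (j - n) := by linarith
  have h11 : (2 : ℤ) ^ N * dl (code a) D m ≤
      2 ^ N * (dl (code a) D (2 ^ j) + 2 * 2 ^ (j - n)) :=
    mul_le_mul_of_nonneg_left h10 (by positivity)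
  linarith

end Pool.Agent.H166R3.AT
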