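import Pool.Agent.H166R3.AT.FN

set_option autoImplicit false

/-! The main theorem. -/

namespace Pool.Agent.H166R3.AT

open MeasureTheory Filter
open Pool.Agent.Helper743
open Pool.Agent.H715R3.Disp (gam mu bn exists_gam)

theorem main : ∃ A : ℕ → Bool,
    (∀ᵐ B ∂(Measure.infinitePi (fun _ : ℕ => (PMF.uniformOfFintype Bool).toMeasure)),
      max
        (⨆ C : {C : ℕ → Bool // TuringEquivalent (fun n => Part.some (C n).toNat)
                                    (fun n => Part.some (A n).toNat)},
          ⨅ D : {D : ℕ → Bool // TuringEquivalent (fun n => Part.some (D n).toNat)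
                                    (fun n => Part.some (B n).toNat)},
            Filter.limsup
              (fun n : ℕ => (((Finset.range n).filter (fun k => C.1 k ≠ D.1 k)).card : ℝ) / (n : ℝ))
              Filter.atTop)
        (⨆ D : {D : ℕ → Bool // TuringEquivalent (fun n => Part.some (D n).toNat)
                                    (fun n => Part.some (B n).toNat)},
          ⨅ C : {C : ℕ → Bool // TuringEquivalent (fun n => Part.some (C n).toNat)
                                    (fun n => Part.some (A n).toNat)},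
            Filter.limsup
              (fun n : ℕ => (((Finset.range n).filter (fun k => C.1 k ≠ D.1 k)).card : ℝ) / (n : ℝ))
              Filter.atTop)
        = (1 / 2 : ℝ)) ∧
    (∀ f : ℕ → ℕ, TuringReducible (fun n => Part.some (f n)) (fun n => Part.some (A n).toNat) →
      ∃ g : ℕ → ℕ, Computable g ∧ ∀ n, f n ≤ g n) ∧
    (∀ R : ℕ → Bool, MLRandom R →
      ¬ TuringReducible (fun n => Part.some (R n).toNat) (fun n => Part.some (A n).toNat)) := by
  obtain ⟨a, ha, hW, hres⟩ := exists_seq
  refine ⟨code a, ?_, ?_, ?_⟩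
  · have h1 := ae_half (code a)
    have h2 := ae_good ha hW
    filter_upwards [h1, h2] with B hB1 hB2
    refine formula_half hB1 (fun D hD => ?_)
    obtain ⟨N, hN⟩ := not_bad hB2 hD
    exact lim_half hN
  · intro f hf
    have h1 : TR f a := TR.trans (TR_iff.2 hf) (code_TR a)
    obtain ⟨p, hp⟩ := exists_gam a _ h1
    rcases hres p with ⟨x, hx⟩ | ⟨⟨G, hG, hG2⟩, _⟩
    · obtain ⟨n, hn⟩ := (hp x (f x)).1 (Part.mem_some _)
      rw [hx n] at hn
      exact absurd hn (by simp)
    · refine ⟨G, hG, fun x => ?_⟩
      obtain ⟨n, y, h2, h3⟩ := hG2 x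
      have h4 := (hp x y).2 ⟨n, h2⟩
      rw [Part.mem_some_iff] at h4
      rw [← h4]; exact h3
  · intro R hR hRA
    have h1 : TR (bn R) a := TR.trans (TR_iff.2 hRA) (code_TR a)
    obtain ⟨p, hp⟩ := exists_gam a _ h1
    rcases hres p with ⟨x, hx⟩ | ⟨_, V, hV, hV2⟩
    · obtain ⟨n, hn⟩ := (hp x (bn R x)).1 (Part.mem_some _)
      rw [hx n] at hn
      exact absurd hn (by simp)
    · obtain ⟨k, hk⟩ := hR V hV
      refine hk (hV2 R (fun x n y h2 => ?_) k)
      have h4 := (hp x y).2 ⟨n, h2⟩
      rw [Part.mem_some_iff] at h4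
      rw [h4]
      unfold bn
      cases R x <;> simp

end Pool.Agent.H166R3.AT
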