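import Pool.Agent.H166R3.AT.WN
import Pool.Agent.H166R3.AT.FG

set_option autoImplicit false

/-! Parameters. -/

namespace Pool.Agent.H166R3.AT

open Encodable MeasureTheory
open scoped ENNReal

def tt (l : ℕ) : ℕ := (∑ j ∈ Finset.range l, kp j) + l + 1

lemma tt_comp : Computable tt := by
  have h1 : Computable₂ (fun (_ : ℕ) (j : ℕ) => kp j) := c_kp Computable.snd
  exact Computable.succ.comp (c_add (c_sum Computable.id h1) Computable.id)

lemma tt_mono : Monotone tt := by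
  refine monotone_nat_of_le_succ (fun l => ?_)
  unfold tt
  rw [Finset.sum_range_succ]
  omega

lemma tt_prod (l : ℕ) : (∏ j ∈ Finset.range l, 2 ^ kp j) * 2 ^ (l + 1) = 2 ^ tt l := by
  rw [Finset.prod_pow_eq_pow_sum, ← pow_add, tt, add_assoc]

lemma sum_uu (n : ℕ) : ∑ j ∈ Finset.range (n + 1), uu j ≤ 2 * uu n := by
  induction n with
  | zero => rw [Finset.sum_range_one]; omega
  | succ n ih =>
    rw [Finset.sum_range_succ]
    have h1 : 2 * uu n ≤ uu (n + 1) := by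
      unfold uu
      rw [← pow_succ']
      apply Nat.pow_le_pow_right (by norm_num)
      ring_nf
      omega
    omega

lemma tt_le (m : ℕ) : tt (m + 1) ≤ 2 ^ ((m + 3) ^ 2 + 2) := by
  have h1 : ∑ j ∈ Finset.range (m + 1), kp j ≤ ∑ j ∈ Finset.range (m + 1), uu j :=
    Finset.sum_le_sum (fun j _ => Nat.sub_le _ _)
  have h2 := sum_uu m
  have h3 : m + 1 + 1 ≤ 2 ^ ((m + 3) ^ 2 + 1) := by
    have : (m + 3) ^ 2 + 1 < 2 ^ ((m + 3) ^ 2 + 1) := Nat.lt_pow_self (by norm_num)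
    nlinarith
  have h4 : 2 * uu m = 2 ^ ((m + 3) ^ 2 + 1) := by
    unfold uu; rw [pow_succ 2 ((m + 3) ^ 2), mul_comm]
  have h5 : 2 ^ ((m + 3) ^ 2 + 2) = 2 * 2 ^ ((m + 3) ^ 2 + 1) := by
    rw [pow_succ _ ((m + 3) ^ 2 + 1), mul_comm]
  unfold tt
  omega

lemma QQ_le (n : ℕ) : QQ n ≤ 2 ^ (n ^ 2 + 13 * n + 17) := by
  have h1 : n + 1 ≤ 2 ^ n := Nat.lt_pow_self (by norm_num)
  have h2 : (n + 1) * (2 ^ n * (uu (n + 1) * 2 ^ n * 4 ^ n)) ≤ 2 ^ (n ^ 2 + 13 * n + 16) := by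
    calc (n + 1) * (2 ^ n * (uu (n + 1) * 2 ^ n * 4 ^ n))
        ≤ 2 ^ n * (2 ^ n * (uu (n + 1) * 2 ^ n * 4 ^ n)) := Nat.mul_le_mul_right _ h1
      _ = 2 ^ (n ^ 2 + 13 * n + 16) := by
        unfold uu
        rw [show (4 : ℕ) = 2 ^ 2 by norm_num, ← pow_mul, ← pow_add, ← pow_add, ← pow_add,
          ← pow_add]
        congr 1
        ring
  have h3 : 1 ≤ 2 ^ (n ^ 2 + 13 * n + 16) := Nat.one_le_pow _ _ (by norm_num)
  have h4 : 2 ^ (n ^ 2 + 13 * n + 17) = 2 * 2 ^ (n ^ 2 + 13 * n + 16) := by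
    rw [pow_succ _ (n ^ 2 + 13 * n + 16), mul_comm]
  unfold QQ
  omega

lemma budget (n : ℕ) (hn : 1 ≤ n) : QQ n * (2 ^ tt n) ^ (4 ^ n) ≤ 2 ^ kp n := by
  obtain ⟨m, rfl⟩ : ∃ m, n = m + 1 := ⟨n - 1, by omega⟩
  have h1 := QQ_le (m + 1)
  have h2 := tt_le m
  have h3 : tt (m + 1) * 4 ^ (m + 1) ≤ 2 ^ (m ^ 2 + 8 * m + 13) := by
    calc tt (m + 1) * 4 ^ (m + 1) ≤ 2 ^ ((m + 3) ^ 2 + 2) * 4 ^ (m + 1) :=
          Nat.mul_le_mul_right _ h2
      _ = 2 ^ (m ^ 2 + 8 * m + 13) := by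
        rw [show (4 : ℕ) = 2 ^ 2 by norm_num, ← pow_mul, ← pow_add]
        congr 1
        ring
  have h4 : (m + 1) ^ 2 + 13 * (m + 1) + 17 + 2 ^ (m ^ 2 + 8 * m + 13) + (m + 1) ≤ uu (m + 1) := by
    have h5 : m ^ 2 + 8 * m + 13 < 2 ^ (m ^ 2 + 8 * m + 13) := Nat.lt_pow_self (by norm_num)
    have h6 : uu (m + 1) = 8 * 2 ^ (m ^ 2 + 8 * m + 13) := by
      unfold uu
      rw [show (8 : ℕ) = 2 ^ 3 by norm_num, ← pow_add]
      congr 1
      ring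
    rw [h6]
    nlinarith
  calc QQ (m + 1) * (2 ^ tt (m + 1)) ^ (4 ^ (m + 1))
      ≤ 2 ^ ((m + 1) ^ 2 + 13 * (m + 1) + 17) * (2 ^ tt (m + 1)) ^ (4 ^ (m + 1)) :=
        Nat.mul_le_mul_right _ h1
    _ = 2 ^ ((m + 1) ^ 2 + 13 * (m + 1) + 17 + tt (m + 1) * 4 ^ (m + 1)) := by
        rw [← pow_mul, ← pow_add]
    _ ≤ 2 ^ kp (m + 1) := by
        apply Nat.pow_le_pow_right (by norm_num)
        unfold kp
        omega

lemma budget0 : QQ 0 ≤ 2 ^ kp 0 := by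
  refine (QQ_le 0).trans (Nat.pow_le_pow_right (by norm_num) ?_)
  unfold kp uu
  norm_num

lemma QQ_comp : Computable QQ := by
  have h1 : Computable (fun n : ℕ => n + 1) := Computable.succ
  have h2 : Computable (fun n : ℕ => 2 ^ n) := c_two Computable.id
  have h4 : Computable (fun n : ℕ => 4 ^ n) := c_pow (Computable.const 4) Computable.id
  exact Computable.succ.comp (c_mul h1 (c_mul h2 (c_mul (c_mul (c_uu h1) h2) h4)))

def cc : Ctx where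
  b n := 2 ^ kp n
  t := tt
  hb := c_two (c_kp Computable.id)
  ht := tt_comp
  htm := tt_mono
  htl l := by unfold tt; omega
  htb l := (tt_prod l).le

/-- the generic sequence of indices -/
theorem exists_seq : ∃ a : ℕ → ℕ, (∀ n, a n < 2 ^ kp n) ∧ (∀ n, a n ∉ WW n) ∧ ∀ p, Res a p :=
  generic cc WW WW_CE QQ QQ_comp (fun n s h => QQ_spec n s h) budget0 budget

end Pool.Agent.H166R3.AT
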