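import Pool.Agent.H166R3.AT.HD
import Pool.Agent.H166R3.AT.FC

set_option autoImplicit false

/-! The enumerated bad indices. -/

namespace Pool.Agent.H166R3.AT

open Encodable MeasureTheory
open scoped ENNReal
open Pool.Agent.Helper743 (pre pre_length pre_succ pre_prefix)
open Pool.Agent.H715R3.Disp (gam gam_mono gam_primrec mu cyl_measure bn meas_pre exists_gam)

/-- the sequence computed from a finite oracle -/
def DD (p : ℕ) (w : Str) (x : ℕ) : Bool := decide (gam p w x ≠ some 0)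

def Hit (p n i : ℕ) (w : Str) : Prop :=
  (∀ x < 2 ^ uu (n + 1), (gam p w x).isSome = true) ∧ Bd n i (DD p w)

lemma Hit.mono {p n i : ℕ} {w w' : Str} (h : w <+: w') (hh : Hit p n i w) : Hit p n i w' := by
  have h1 : ∀ x < 2 ^ uu (n + 1), gam p w' x = gam p w x := by
    intro x hx
    have h2 := hh.1 x hx
    rw [Option.isSome_iff_exists] at h2
    obtain ⟨y, hy⟩ := h2
    rw [hy, gam_mono h hy]
  refine ⟨fun x hx => by rw [h1 x hx]; exact hh.1 x hx, Bd_congr (fun x hx => ?_) hh.2⟩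
  unfold DD
  rw [h1 x hx]

/-- counting differences -/
def cnt (k i A R : ℕ) (D : ℕ → Bool) : ℕ :=
  ∑ r ∈ Finset.range R, ∑ y ∈ Finset.range (2 ^ k),
    (!(chi k i y == D (A + r * 2 ^ k + y))).toNat

lemma cor_cnt (k i A R : ℕ) (D : ℕ → Bool) :
    -(cor k i A R D) = 2 * (cnt k i A R D : ℤ) - R * 2 ^ k := by
  unfold cor cnt
  push_cast
  rw [← Finset.sum_neg_distrib, Finset.mul_sum]
  have h1 : (R : ℤ) * 2 ^ k = ∑ r ∈ Finset.range R, ∑ y ∈ Finset.range (2 ^ k), (1 : ℤ) := by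
    simp
  rw [h1, ← Finset.sum_sub_distrib]
  refine Finset.sum_congr rfl (fun r _ => ?_)
  rw [← Finset.sum_neg_distrib, Finset.mul_sum, ← Finset.sum_sub_distrib]
  refine Finset.sum_congr rfl (fun y _ => ?_)
  rw [← chi_sg]
  cases chi k i y <;> cases D (A + r * 2 ^ k + y) <;> simp [sg]

def hitb (p n i : ℕ) (w : Str) : Bool :=
  ball (2 ^ uu (n + 1)) (fun x => (gam p w x).isSome) &&
    bex (uu (n + 1)) (fun j => decide (uu n ≤ j) && bex (2 ^ n) (fun s =>
      decide ((2 ^ n + 1) * (2 ^ (j - uu n) * 2 ^ kp n) <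
        2 ^ n * (2 * cnt (kp n) i (2 ^ j + s * 2 ^ (j - n)) (2 ^ (j - uu n)) (DD p w)))))

lemma hitb_iff {p n i : ℕ} {w : Str} : hitb p n i w = true ↔ Hit p n i w := by
  rw [hitb, Bool.and_eq_true, ball_iff, bex_iff, Hit]
  refine and_congr Iff.rfl ?_
  simp only [Bool.and_eq_true, decide_eq_true_iff, bex_iff]
  constructor
  · rintro ⟨j, h1, h2, s, h3, h4⟩
    refine ⟨j, h2, h1, s, h3, ?_⟩
    rw [cor_cnt]
    have h5 : ((2 ^ n + 1 : ℤ)) * (2 ^ (j - uu n) * 2 ^ kp n) <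
        2 ^ n * (2 * (cnt (kp n) i (2 ^ j + s * 2 ^ (j - n)) (2 ^ (j - uu n)) (DD p w) : ℤ)) := by
      exact_mod_cast h4
    push_cast
    linarith
  · rintro ⟨j, h1, h2, s, h3, h4⟩
    refine ⟨j, h2, h1, s, h3, ?_⟩
    rw [cor_cnt] at h4
    push_cast at h4
    have h5 : ((2 ^ n + 1 : ℤ)) * (2 ^ (j - uu n) * 2 ^ kp n) <
        2 ^ n * (2 * (cnt (kp n) i (2 ^ j + s * 2 ^ (j - n)) (2 ^ (j - uu n)) (DD p w) : ℤ)) := by
      linarith
    exact_mod_cast h5

section comp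

variable {α : Type*} [Primcodable α]

lemma c_uu {n : α → ℕ} (hn : Computable n) : Computable (fun a => uu (n a)) :=
  c_pow (Computable.const 2) (c_pow (c_add hn (Computable.const 3)) (Computable.const 2))

lemma c_kp {n : α → ℕ} (hn : Computable n) : Computable (fun a => kp (n a)) :=
  c_sub (c_uu hn) hn

lemma c_two {n : α → ℕ} (hn : Computable n) : Computable (fun a => 2 ^ n a) :=
  c_pow (Computable.const 2) hn

lemma c_chi {k i x : α → ℕ} (hk : Computable k) (hi : Computable i) (hx : Computable x) :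
    Computable (fun a => chi (k a) (i a) (x a)) := by
  have h1 : Computable₂ (fun (a : α) (j : ℕ) => (i a / 2 ^ j % 2) * (x a / 2 ^ j % 2)) := by
    have a1 : Computable (fun z : α × ℕ => 2 ^ z.2) := c_two Computable.snd
    have a2 := c_mod (c_div (hi.comp (Computable.fst (α := α) (β := ℕ))) a1) (Computable.const 2)
    have a3 := c_mod (c_div (hx.comp (Computable.fst (α := α) (β := ℕ))) a1) (Computable.const 2)
    exact c_mul a2 a3
  exact c_eq (c_mod (c_sum hk h1) (Computable.const 2)) (Computable.const 1)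

lemma c_gam {p x : α → ℕ} {w : α → Str} (hp : Computable p) (hw : Computable w)
    (hx : Computable x) : Computable (fun a => gam (p a) (w a) (x a)) :=
  cmp gam_primrec.to_comp ((hp.pair hw).pair hx) (fun _ => rfl)

lemma c_DD {p x : α → ℕ} {w : α → Str} (hp : Computable p) (hw : Computable w)
    (hx : Computable x) : Computable (fun a => DD (p a) (w a) (x a)) := by
  have h1 : Computable (fun a => !(decide (gam (p a) (w a) (x a) = some 0))) :=
    c_not (c_eq (c_gam hp hw hx) (Computable.const (some 0)))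
  refine h1.of_eq (fun a => ?_)
  unfold DD
  by_cases h : gam (p a) (w a) (x a) = some 0 <;> simp [h]

lemma c_cnt {k i A R p : α → ℕ} {w : α → Str} (hk : Computable k) (hi : Computable i)
    (hA : Computable A) (hR : Computable R) (hp : Computable p) (hw : Computable w) :
    Computable (fun a => cnt (k a) (i a) (A a) (R a) (DD (p a) (w a))) := by
  have f1 : Computable (fun z : (α × ℕ) × ℕ => z.1.1) := Computable.fst.comp Computable.fst
  have f2 : Computable (fun z : (α × ℕ) × ℕ => z.1.2) := Computable.snd.comp Computable.fst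
  have g1 : Computable (fun z : (α × ℕ) × ℕ => A z.1.1 + z.1.2 * 2 ^ k z.1.1 + z.2) :=
    c_add (c_add (hA.comp f1) (c_mul f2 (c_two (hk.comp f1)))) Computable.snd
  have g2 : Computable (fun z : (α × ℕ) × ℕ =>
      (!(chi (k z.1.1) (i z.1.1) z.2 == DD (p z.1.1) (w z.1.1)
        (A z.1.1 + z.1.2 * 2 ^ k z.1.1 + z.2))).toNat) :=
    c_ofb (c_not (c_beq (c_chi (hk.comp f1) (hi.comp f1) Computable.snd)
      (c_DD (hp.comp f1) (hw.comp f1) g1)))
  have g3 : Computable₂ (fun (a : α) (r : ℕ) => ∑ y ∈ Finset.range (2 ^ k a),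
      (!(chi (k a) (i a) y == DD (p a) (w a) (A a + r * 2 ^ k a + y))).toNat) := by
    have := c_sum (n := fun q : α × ℕ => 2 ^ k q.1) (f := fun (q : α × ℕ) (y : ℕ) =>
      (!(chi (k q.1) (i q.1) y == DD (p q.1) (w q.1) (A q.1 + q.2 * 2 ^ k q.1 + y))).toNat)
      (c_two (hk.comp Computable.fst)) g2
    exact this
  exact c_sum hR g3

lemma c_hitb {p n i : α → ℕ} {w : α → Str} (hp : Computable p) (hn : Computable n)
    (hi : Computable i) (hw : Computable w) :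
    Computable (fun a => hitb (p a) (n a) (i a) (w a)) := by
  have hu1 : Computable (fun a => uu (n a + 1)) := c_uu (Computable.succ.comp hn)
  have e1 : Computable (fun a => ball (2 ^ uu (n a + 1))
      (fun x => (gam (p a) (w a) x).isSome)) := by
    have := c_ball (f := fun (a : α) (x : ℕ) => (gam (p a) (w a) x).isSome) (c_two hu1)
      (GD.c_isSome (c_gam (hp.comp Computable.fst) (hw.comp Computable.fst) Computable.snd))
    exact this
  have f1 : Computable (fun z : (α × ℕ) × ℕ => z.1.1) := Computable.fst.comp Computable.fst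
  have f2 : Computable (fun z : (α × ℕ) × ℕ => z.1.2) := Computable.snd.comp Computable.fst
  have ja : Computable (fun z : (α × ℕ) × ℕ => 2 ^ (z.1.2 - uu (n z.1.1))) :=
    c_two (c_sub f2 (c_uu (hn.comp f1)))
  have jb : Computable (fun z : (α × ℕ) × ℕ => 2 ^ n z.1.1) := c_two (hn.comp f1)
  have jc : Computable (fun z : (α × ℕ) × ℕ => 2 ^ z.1.2 + z.2 * 2 ^ (z.1.2 - n z.1.1)) :=
    c_add (c_two f2) (c_mul Computable.snd (c_two (c_sub f2 (hn.comp f1))))
  have jd : Computable (fun z : (α × ℕ) × ℕ => 2 ^ kp (n z.1.1)) := c_two (c_kp (hn.comp f1))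
  have je : Computable (fun z : (α × ℕ) × ℕ =>
      decide ((2 ^ n z.1.1 + 1) * (2 ^ (z.1.2 - uu (n z.1.1)) * 2 ^ kp (n z.1.1)) <
        2 ^ n z.1.1 * (2 * cnt (kp (n z.1.1)) (i z.1.1) (2 ^ z.1.2 + z.2 * 2 ^ (z.1.2 - n z.1.1))
          (2 ^ (z.1.2 - uu (n z.1.1))) (DD (p z.1.1) (w z.1.1))))) :=
    c_lt (c_mul (c_add jb (Computable.const 1)) (c_mul ja jd))
      (c_mul jb (c_mul (Computable.const 2) (c_cnt (c_kp (hn.comp f1)) (hi.comp f1) jc ja
        (hp.comp f1) (hw.comp f1))))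
  have jf : Computable₂ (fun (a : α) (j : ℕ) => decide (uu (n a) ≤ j) && bex (2 ^ n a) (fun s =>
      decide ((2 ^ n a + 1) * (2 ^ (j - uu (n a)) * 2 ^ kp (n a)) <
        2 ^ n a * (2 * cnt (kp (n a)) (i a) (2 ^ j + s * 2 ^ (j - n a))
          (2 ^ (j - uu (n a))) (DD (p a) (w a)))))) := by
    have k1 : Computable (fun z : α × ℕ => decide (uu (n z.1) ≤ z.2)) :=
      c_le (c_uu (hn.comp Computable.fst)) Computable.snd
    have k2 := c_bex (n := fun z : α × ℕ => 2 ^ n z.1) (f := fun (z : α × ℕ) (s : ℕ) =>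
      decide ((2 ^ n z.1 + 1) * (2 ^ (z.2 - uu (n z.1)) * 2 ^ kp (n z.1)) <
        2 ^ n z.1 * (2 * cnt (kp (n z.1)) (i z.1) (2 ^ z.2 + s * 2 ^ (z.2 - n z.1))
          (2 ^ (z.2 - uu (n z.1))) (DD (p z.1) (w z.1)))))
      (c_two (hn.comp Computable.fst)) je
    have := c_and k1 k2
    exact this
  have e2 := c_bex hu1 jf
  have e3 := c_and e1 e2
  exact e3

end comp

/-- binary strings of length `l` -/
def bits (l m : ℕ) : Str := (List.range l).map (fun x => m / 2 ^ x % 2)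

lemma bits_primrec : Primrec (fun q : ℕ × ℕ => bits q.1 q.2) := by
  refine Primrec.list_map (Primrec.list_range.comp Primrec.fst) ?_
  exact Primrec.nat_mod.comp (Primrec.nat_div.comp (Primrec.snd.comp Primrec.fst)
      (pow_primrec'.comp (Primrec.const 2) Primrec.snd)) (Primrec.const 2)

def cyl (l m : ℕ) : Set (ℕ → Bool) := {B | ∀ x < l, B x = decide (m / 2 ^ x % 2 = 1)}

lemma cyl_iff {l m : ℕ} {B : ℕ → Bool} : B ∈ cyl l m ↔ pre (bn B) l = bits l m := by
  unfold pre bits bn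
  rw [List.map_inj_left]
  simp only [List.mem_range, cyl, Set.mem_ofPred_eq]
  refine forall_congr' (fun x => imp_congr_right (fun _ => ?_))
  have h1 : m / 2 ^ x % 2 < 2 := Nat.mod_lt _ (by norm_num)
  generalize m / 2 ^ x % 2 = q at h1
  interval_cases q <;> cases B x <;> simp

lemma cyl_exists (B : ℕ → Bool) (l : ℕ) : ∃ m < 2 ^ l, B ∈ cyl l m := by
  obtain ⟨m, hm, h⟩ := pat_num l B
  refine ⟨m, hm, fun x hx => ?_⟩
  have := h x hx
  cases hB : B x with
  | false => rw [hB] at this; simp at this; simp [this]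
  | true => rw [hB] at this; simp at this; simp [this]

lemma cyl_disj {l m m' : ℕ} (hm : m < 2 ^ l) (hm' : m' < 2 ^ l) (h : m ≠ m') :
    Disjoint (cyl l m) (cyl l m') := by
  rw [Set.disjoint_left]
  intro B h1 h2
  apply h
  apply Nat.eq_of_testBit_eq
  intro x
  by_cases hx : x < l
  · rw [Nat.testBit_eq_decide_div_mod_eq, Nat.testBit_eq_decide_div_mod_eq, ← h1 x hx, ← h2 x hx]
  · have h3 : 2 ^ l ≤ 2 ^ x := Nat.pow_le_pow_right (by norm_num) (by omega)
    rw [Nat.testBit_lt_two_pow (lt_of_lt_of_le hm h3), Nat.testBit_lt_two_pow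
      (lt_of_lt_of_le hm' h3)]

lemma cyl_meas (l m : ℕ) : MeasurableSet (cyl l m) := by
  have : cyl l m = {B | pre (bn B) l = bits l m} := by
    ext B; exact cyl_iff
  rw [this]
  exact meas_pre (fun s => s = bits l m) l

/-- the measure of a clopen set -/
lemma mu_pre (P : Str → Bool) (l : ℕ) : mu {B | P (pre (bn B) l) = true} =
    ((Finset.range (2 ^ l)).filter (fun m => P (bits l m) = true)).card * (2⁻¹ : ℝ≥0∞) ^ l := by
  have h1 : {B | P (pre (bn B) l) = true} =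
      ⋃ m ∈ (Finset.range (2 ^ l)).filter (fun m => P (bits l m) = true), cyl l m := by
    ext B
    rw [Set.mem_iUnion₂]
    constructor
    · intro h
      obtain ⟨m, hm, h2⟩ := cyl_exists B l
      refine ⟨m, ?_, h2⟩
      rw [Finset.mem_filter, Finset.mem_range, ← cyl_iff.1 h2]
      exact ⟨hm, h⟩
    · rintro ⟨m, hm, h2⟩
      rw [Finset.mem_filter, ← cyl_iff.1 h2] at hm
      exact hm.2
  rw [h1, measure_biUnion_finset]
  · have h2 : ∀ m ∈ (Finset.range (2 ^ l)).filter (fun m => P (bits l m) = true),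
        mu (cyl l m) = (2⁻¹ : ℝ≥0∞) ^ l :=
      fun m _ => cyl_measure (fun x => decide (m / 2 ^ x % 2 = 1)) l
    rw [Finset.sum_congr rfl h2, Finset.sum_const, nsmul_eq_mul]
  · intro m hm m' hm' hne
    have a1 := (Finset.mem_filter.1 (Finset.mem_coe.1 hm)).1
    have a2 := (Finset.mem_filter.1 (Finset.mem_coe.1 hm')).1
    exact cyl_disj (Finset.mem_range.1 a1) (Finset.mem_range.1 a2) hne
  · intro m _
    exact cyl_meas l m

/-- the event that `i` is bad for functional `p` in block `n` -/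
def Ev (p n i : ℕ) : Set (ℕ → Bool) := {B | ∃ l, hitb p n i (pre (bn B) l) = true}

lemma Ev_eq (p n i : ℕ) : Ev p n i = ⋃ l, {B | hitb p n i (pre (bn B) l) = true} := by
  ext B; simp [Ev]

lemma Ev_meas (p n i : ℕ) : MeasurableSet (Ev p n i) := by
  rw [Ev_eq]
  exact MeasurableSet.iUnion (fun l => meas_pre (fun s => hitb p n i s = true) l)

open Classical in
lemma Ev_few (p n : ℕ) (F : Finset ℕ) (hF : ∀ i ∈ F, i < 2 ^ kp n) (B : ℕ → Bool) :
    (F.filter (fun i => B ∈ Ev p n i)).card ≤ uu (n + 1) * 2 ^ n * 4 ^ n := by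
  classical
  have h1 : ∀ i ∈ F.filter (fun i => B ∈ Ev p n i), ∃ l, hitb p n i (pre (bn B) l) = true :=
    fun i hi => (Finset.mem_filter.1 hi).2
  choose! l hl using h1
  refine few n (DD p (pre (bn B) ((F.filter (fun i => B ∈ Ev p n i)).sup l))) _ (fun i hi => ?_)
  refine ⟨hF i (Finset.mem_filter.1 hi).1, ?_⟩
  exact (Hit.mono (pre_prefix (bn B) (Finset.le_sup hi)) (hitb_iff.1 (hl i hi))).2

/-- the enumerated set of indices to be avoided -/
def WW (n : ℕ) : Set ℕ := {i | i < 2 ^ kp n ∧ ∃ p ≤ n, ∃ l,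
  2 ^ l < 2 ^ n * ((Finset.range (2 ^ l)).filter (fun m => hitb p n i (bits l m) = true)).card}

lemma WW_CE : CE {q : ℕ × ℕ | q.2 ∈ WW q.1} := by
  refine CE.ofEx (δ := ℕ × ℕ) (fun q d => decide (q.2 < 2 ^ kp q.1) && (decide (d.1 ≤ q.1) &&
    decide (2 ^ d.2 < 2 ^ q.1 * ((Finset.range (2 ^ d.2)).filter
      (fun m => hitb d.1 q.1 q.2 (bits d.2 m) = true)).card))) ?_ ?_
  · have f1 : Computable (fun z : (ℕ × ℕ) × (ℕ × ℕ) => z.1.1) :=
      Computable.fst.comp Computable.fst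
    have f2 : Computable (fun z : (ℕ × ℕ) × (ℕ × ℕ) => z.1.2) :=
      Computable.snd.comp Computable.fst
    have f3 : Computable (fun z : (ℕ × ℕ) × (ℕ × ℕ) => z.2.1) :=
      Computable.fst.comp Computable.snd
    have f4 : Computable (fun z : (ℕ × ℕ) × (ℕ × ℕ) => z.2.2) :=
      Computable.snd.comp Computable.snd
    have g1 : Computable₂ (fun (z : (ℕ × ℕ) × (ℕ × ℕ)) (m : ℕ) =>
        hitb z.2.1 z.1.1 z.1.2 (bits z.2.2 m)) := by
      have g2 : Computable (fun y : ((ℕ × ℕ) × (ℕ × ℕ)) × ℕ => bits y.1.2.2 y.2) :=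
        cmp bits_primrec.to_comp ((f4.comp Computable.fst).pair Computable.snd) (fun _ => rfl)
      have := c_hitb (f3.comp (Computable.fst (α := (ℕ × ℕ) × (ℕ × ℕ)) (β := ℕ)))
        (f1.comp Computable.fst) (f2.comp Computable.fst) g2
      exact this
    have g3 := c_count (c_two f4) g1
    have g4 := c_lt (c_two f4) (c_mul (c_two f1) g3)
    have g5 := c_and (c_lt f2 (c_two (c_kp f1))) (c_and (c_le f3 f1) g4)
    exact g5
  · rintro ⟨n, i⟩
    simp only [WW, Set.mem_ofPred_eq, Bool.and_eq_true, decide_eq_true_iff]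
    constructor
    · rintro ⟨h1, p, h2, l, h3⟩
      exact ⟨(p, l), h1, h2, h3⟩
    · rintro ⟨⟨p, l⟩, h1, h2, h3⟩
      exact ⟨h1, p, h2, l, h3⟩

lemma two_pow_mul_inv (n : ℕ) : (2 : ℝ≥0∞) ^ n * (2⁻¹ : ℝ≥0∞) ^ n = 1 := by
  rw [← mul_pow, ENNReal.mul_inv_cancel (by norm_num) (by norm_num), one_pow]

lemma Ev_large {p n i l : ℕ} (h : 2 ^ l < 2 ^ n *
    ((Finset.range (2 ^ l)).filter (fun m => hitb p n i (bits l m) = true)).card) :
    (2⁻¹ : ℝ≥0∞) ^ n ≤ mu (Ev p n i) := by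
  have h1 : {B | hitb p n i (pre (bn B) l) = true} ⊆ Ev p n i := fun B hB => ⟨l, hB⟩
  refine le_trans ?_ (measure_mono h1)
  rw [mu_pre (hitb p n i) l]
  set K := ((Finset.range (2 ^ l)).filter (fun m => hitb p n i (bits l m) = true)).card
  have h2 : (2 : ℝ≥0∞) ^ l ≤ 2 ^ n * K := by exact_mod_cast h.le
  calc (2⁻¹ : ℝ≥0∞) ^ n = (2⁻¹ : ℝ≥0∞) ^ n * ((2 : ℝ≥0∞) ^ l * (2⁻¹ : ℝ≥0∞) ^ l) := by
        rw [two_pow_mul_inv, mul_one]
    _ ≤ (2⁻¹ : ℝ≥0∞) ^ n * ((2 ^ n * K) * (2⁻¹ : ℝ≥0∞) ^ l) := by gcongr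
    _ = ((2 : ℝ≥0∞) ^ n * (2⁻¹ : ℝ≥0∞) ^ n) * (K * (2⁻¹ : ℝ≥0∞) ^ l) := by ring
    _ = K * (2⁻¹ : ℝ≥0∞) ^ l := by rw [two_pow_mul_inv, one_mul]

lemma Ev_small {p n i : ℕ} (hp : p ≤ n) (hi : i < 2 ^ kp n) (h : i ∉ WW n) :
    mu (Ev p n i) ≤ (2⁻¹ : ℝ≥0∞) ^ n := by
  rw [Ev_eq, (show Monotone (fun l => {B | hitb p n i (pre (bn B) l) = true}) from
    fun l l' hl B hB => hitb_iff.2 (Hit.mono (pre_prefix (bn B) hl)
      (hitb_iff.1 hB))).measure_iUnion]
  refine iSup_le (fun l => ?_)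
  rw [mu_pre (hitb p n i) l]
  have h1 : ¬ (2 ^ l < 2 ^ n * ((Finset.range (2 ^ l)).filter
      (fun m => hitb p n i (bits l m) = true)).card) := fun hc => h ⟨hi, p, hp, l, hc⟩
  rw [not_lt] at h1
  set K := ((Finset.range (2 ^ l)).filter (fun m => hitb p n i (bits l m) = true)).card
  have h2 : 2 ^ n * (K : ℝ≥0∞) ≤ (2 : ℝ≥0∞) ^ l := by exact_mod_cast h1
  calc K * (2⁻¹ : ℝ≥0∞) ^ l = ((2 : ℝ≥0∞) ^ n * (2⁻¹ : ℝ≥0∞) ^ n) * (K * (2⁻¹ : ℝ≥0∞) ^ l) := by
        rw [two_pow_mul_inv, one_mul]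
    _ = (2⁻¹ : ℝ≥0∞) ^ n * ((2 ^ n * K) * (2⁻¹ : ℝ≥0∞) ^ l) := by ring
    _ ≤ (2⁻¹ : ℝ≥0∞) ^ n * ((2 : ℝ≥0∞) ^ l * (2⁻¹ : ℝ≥0∞) ^ l) := by gcongr
    _ = (2⁻¹ : ℝ≥0∞) ^ n := by rw [two_pow_mul_inv, mul_one]

/-- the strict bound on the number of enumerated indices -/
def QQ (n : ℕ) : ℕ := (n + 1) * (2 ^ n * (uu (n + 1) * 2 ^ n * 4 ^ n)) + 1

lemma few_p (p n : ℕ) (F : Finset ℕ) (hF : ∀ i ∈ F, i < 2 ^ kp n ∧ ∃ l,
    2 ^ l < 2 ^ n * ((Finset.range (2 ^ l)).filter (fun m => hitb p n i (bits l m) = true)).card) :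
    F.card ≤ 2 ^ n * (uu (n + 1) * 2 ^ n * 4 ^ n) := by
  classical
  have h1 : ∑ i ∈ F, mu (Ev p n i) ≤ ((uu (n + 1) * 2 ^ n * 4 ^ n : ℕ) : ℝ≥0∞) := by
    calc ∑ i ∈ F, mu (Ev p n i) = ∑ i ∈ F, ∫⁻ B, (Ev p n i).indicator 1 B ∂mu := by
          refine Finset.sum_congr rfl (fun i _ => ?_)
          rw [lintegral_indicator_one (Ev_meas p n i)]
      _ = ∫⁻ B, ∑ i ∈ F, (Ev p n i).indicator 1 B ∂mu := by
          rw [lintegral_finsetSum]
          intro i _
          exact measurable_one.indicator (Ev_meas p n i)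
      _ ≤ ∫⁻ _, ((uu (n + 1) * 2 ^ n * 4 ^ n : ℕ) : ℝ≥0∞) ∂mu := by
          refine lintegral_mono (fun B => ?_)
          have h2 : ∑ i ∈ F, (Ev p n i).indicator (1 : (ℕ → Bool) → ℝ≥0∞) B =
              ((F.filter (fun i => B ∈ Ev p n i)).card : ℝ≥0∞) := by
            rw [Finset.card_filter]
            push_cast
            refine Finset.sum_congr rfl (fun i _ => ?_)
            by_cases h : B ∈ Ev p n i <;> simp [h]
          simp only
          rw [h2]
          exact_mod_cast Ev_few p n F (fun i hi => (hF i hi).1) B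
      _ = ((uu (n + 1) * 2 ^ n * 4 ^ n : ℕ) : ℝ≥0∞) := by simp
  have h2 : (F.card : ℝ≥0∞) * (2⁻¹ : ℝ≥0∞) ^ n ≤ ∑ i ∈ F, mu (Ev p n i) := by
    rw [← nsmul_eq_mul, ← Finset.sum_const]
    refine Finset.sum_le_sum (fun i hi => ?_)
    obtain ⟨l, hl⟩ := (hF i hi).2
    exact Ev_large hl
  have h3 := h2.trans h1
  have h4 : (F.card : ℝ≥0∞) ≤ 2 ^ n * ((uu (n + 1) * 2 ^ n * 4 ^ n : ℕ) : ℝ≥0∞) := by
    calc (F.card : ℝ≥0∞) = 2 ^ n * (F.card * (2⁻¹ : ℝ≥0∞) ^ n) := by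
          rw [mul_left_comm, two_pow_mul_inv, mul_one]
      _ ≤ _ := by gcongr
  exact_mod_cast h4

lemma QQ_spec (n : ℕ) (F : Finset ℕ) (hF : ∀ i ∈ F, i ∈ WW n) : F.card < QQ n := by
  classical
  have h1 : F ⊆ (Finset.range (n + 1)).biUnion (fun p => F.filter (fun i => ∃ l,
      2 ^ l < 2 ^ n * ((Finset.range (2 ^ l)).filter
        (fun m => hitb p n i (bits l m) = true)).card)) := by
    intro i hi
    obtain ⟨_, p, h2, l, h3⟩ := hF i hi
    rw [Finset.mem_biUnion]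
    exact ⟨p, Finset.mem_range.2 (by omega), Finset.mem_filter.2 ⟨hi, l, h3⟩⟩
  unfold QQ
  refine Nat.lt_succ_of_le ((Finset.card_le_card h1).trans ?_)
  refine (Finset.card_biUnion_le_card_mul _ _ (2 ^ n * (uu (n + 1) * 2 ^ n * 4 ^ n))
    (fun p _ => ?_)).trans ?_
  · refine few_p p n _ (fun i hi => ?_)
    rw [Finset.mem_filter] at hi
    exact ⟨(hF i hi.1).1, hi.2⟩
  · rw [Finset.card_range]

end Pool.Agent.H166R3.AT
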